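import Pool.Agent.Q309.OFF.Tfae
import Pool.Agent.Q171.RC.PtFam

/-!
Points off the rational curves: all algebraically closed fields of characteristic zero, and all
extensions of an algebraically closed field.
-/

set_option autoImplicit false

namespace Pool.Agent.Q309.OFF

open MvPolynomial
open Pool.Agent.Q309.DU
open Pool.Agent.Q309.PO
open Pool.Agent.Q309.TP (Same)
open Pool.Agent.Q309.DF (exists_sub rel_embed)
open Pool.Agent.Q1.SL
open Pool.Agent.Q171.RC (OnRat NC HasPt HasSol hasPt_iff ptEqn descendT)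

variable {n : ℕ}

theorem map_aeval_alg {k A A' : Type} [Field k] [CommRing A] [CommRing A'] [Algebra k A]
    [Algebra k A'] (g : A →ₐ[k] A') (W : Fin (n + 1) → Polynomial A)
    (G : MvPolynomial (Fin (n + 1)) k) :
    (aeval W G : Polynomial A).map (g : A →+* A') =
      aeval (fun j => (W j).map (g : A →+* A')) G := by
  have h1 := MvPolynomial.comp_aeval_apply (f := W) (Polynomial.mapAlgHom g) G
  exact h1

theorem ev_ring {A B : Type} [Field A] [Field B] (τ : A →+* B) (x : Fin (n + 1) → A)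
    (F : MvPolynomial (Fin (n + 1)) A) :
    eval (fun j => τ (x j)) (map τ F) = τ (eval x F) := by
  rw [eval_map]
  have h1 := MvPolynomial.eval₂_comp_left τ (RingHom.id A) x F
  rw [RingHom.comp_id] at h1
  exact h1.symm

/-- **Specialization of rational curves.** -/
theorem curve_spec {k E : Type} [Field k] [IsAlgClosed k] [Field E] [Algebra k E]
    (p : Fin (n + 1) → Polynomial E) (hp : NC p) {G' : MvPolynomial (Fin (n + 1)) k}
    (hG : (aeval p G' : Polynomial E) ≠ 0) :
    ∃ q : Fin (n + 1) → Polynomial k, NC q ∧ (∀ j, (q j).natDegree ≤ (p j).natDegree) ∧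
      (aeval q G' : Polynomial k) ≠ 0 ∧
      ∀ G : MvPolynomial (Fin (n + 1)) k, (aeval p G : Polynomial E) = 0 →
        (aeval q G : Polynomial k) = 0 := by
  classical
  obtain ⟨a, b, i, j, hnc⟩ := hp
  set cc : E := (p i).eval a * (p j).eval b - (p j).eval a * (p i).eval b with hcc
  have hcc0 : cc ≠ 0 := sub_ne_zero.2 hnc
  let s : Finset E := (Finset.univ.biUnion fun j => (p j).coeffs) ∪
    {cc⁻¹, (aeval p G' : Polynomial E).leadingCoeff⁻¹, a, b}
  let A := Algebra.adjoin k (s : Set E)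
  have hs : ∀ x ∈ s, x ∈ A := fun x hx => Algebra.subset_adjoin hx
  have hA : Algebra.FiniteType k A := ⟨(Subalgebra.fg_top A).2 ⟨s, rfl⟩⟩
  obtain ⟨m, hm⟩ := Ideal.exists_maximal A
  let _ : Field (A ⧸ m) := Ideal.Quotient.field m
  have hft : Algebra.FiniteType k (A ⧸ m) :=
    Algebra.FiniteType.of_surjective (Ideal.Quotient.mkₐ k m) Ideal.Quotient.mk_surjective
  have hfin : Module.Finite k (A ⧸ m) := finite_of_finite_type_of_isJacobsonRing k (A ⧸ m)
  let e : (A ⧸ m) →ₐ[k] k := IsAlgClosed.lift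
  let θ : A →ₐ[k] k := e.comp (Ideal.Quotient.mkₐ k m)
  -- lifts
  have hlift : ∀ j, ∃ q : Polynomial A, q.map (algebraMap A E) = p j := by
    intro j
    have h2 : p j ∈ Polynomial.lifts (algebraMap A E) := by
      rw [Polynomial.lifts_iff_coeff_lifts]
      intro t
      by_cases ht : (p j).coeff t = 0
      · exact ⟨0, by rw [ht, map_zero]⟩
      · refine ⟨⟨(p j).coeff t, hs _ ?_⟩, rfl⟩
        exact Finset.mem_union_left _ (Finset.mem_biUnion.2
          ⟨j, Finset.mem_univ _, Polynomial.coeff_mem_coeffs ht⟩)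
    exact (Polynomial.mem_lifts _).1 h2
  choose P hP using hlift
  have hinj : Function.Injective (algebraMap A E) := Subtype.val_injective
  have hcur : ∀ G : MvPolynomial (Fin (n + 1)) k, (aeval P G : Polynomial A).map
      (algebraMap A E) = aeval p G := by
    intro G
    have h1 := map_aeval_alg (IsScalarTower.toAlgHom k A E) P G
    have h2 : (fun j => (P j).map ((IsScalarTower.toAlgHom k A E : A →ₐ[k] E) : A →+* E)) = p :=
      funext fun j => hP j
    rw [h2] at h1
    exact h1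
  have hcur' : ∀ G : MvPolynomial (Fin (n + 1)) k, (aeval P G : Polynomial A).map
      (θ : A →+* k) = aeval (fun j => (P j).map (θ : A →+* k)) G := fun G =>
    map_aeval_alg θ P G
  have hunit : ∀ x : A, ((x : E))⁻¹ ∈ s → (x : E) ≠ 0 → θ x ≠ 0 := by
    intro x hx hx0 h0
    have h2 : x * ⟨_, hs _ hx⟩ = 1 := Subtype.ext (mul_inv_cancel₀ hx0)
    have h3 := congrArg θ h2
    rw [map_mul, h0, zero_mul, map_one] at h3
    exact zero_ne_one h3
  let aA : A := ⟨a, hs a (by simp [s])⟩
  let bA : A := ⟨b, hs b (by simp [s])⟩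
  have hev : ∀ (Q : Polynomial A) (x : A), ((Q.eval x : A) : E) =
      (Q.map (algebraMap A E)).eval (x : E) := by
    intro Q x
    rw [Polynomial.eval_map]
    exact (Polynomial.eval₂_at_apply (algebraMap A E) x).symm
  have hevθ : ∀ (Q : Polynomial A) (x : A), (Q.map (θ : A →+* k)).eval (θ x) = θ (Q.eval x) := by
    intro Q x
    rw [Polynomial.eval_map]
    exact Polynomial.eval₂_at_apply (θ : A →+* k) x
  refine ⟨fun j => (P j).map (θ : A →+* k), ⟨θ aA, θ bA, i, j, ?_⟩, fun j => ?_, ?_,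
    fun G hG0 => ?_⟩
  · rw [hevθ, hevθ, hevθ, hevθ]
    intro h0
    have h2 : (((P i).eval aA * (P j).eval bA - (P j).eval aA * (P i).eval bA : A) : E) = cc := by
      push_cast
      rw [hev, hev, hev, hev, hP, hP]
    refine hunit ((P i).eval aA * (P j).eval bA - (P j).eval aA * (P i).eval bA) ?_ ?_ ?_
    · rw [h2]
      simp [s]
    · rw [h2]
      exact hcc0
    · rw [map_sub, map_mul, map_mul, sub_eq_zero]
      exact h0
  · refine (Polynomial.natDegree_map_le).trans ?_
    rw [← hP j, Polynomial.natDegree_map_eq_of_injective hinj]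
  · rw [← hcur']
    intro h0
    set q := (aeval P G' : Polynomial A) with hq
    have h2 : (q.leadingCoeff : E) = (aeval p G' : Polynomial E).leadingCoeff := by
      rw [← hcur, Polynomial.leadingCoeff_map_of_injective hinj]
      rfl
    refine hunit q.leadingCoeff ?_ ?_ ?_
    · rw [h2]
      simp [s]
    · rw [h2]
      exact Polynomial.leadingCoeff_ne_zero.2 hG
    · have h3 := congrArg (fun f => Polynomial.coeff f q.natDegree) h0
      simp only [Polynomial.coeff_map, Polynomial.coeff_zero] at h3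
      exact h3
  · have h2 : (aeval P G : Polynomial A) = 0 := by
      apply Polynomial.map_injective _ hinj
      rw [hcur, hG0, Polynomial.map_zero]
    rw [← hcur', h2, Polynomial.map_zero]

/-- **Descent of pointed curves.** -/
theorem onRat_desc {L0 L κ : Type} [Field L0] [Field L] [IsAlgClosed L] [Algebra L0 L] [Field κ]
    [Infinite κ] (τ : L0 →+* κ) {S : Set (MvPolynomial (Fin (n + 1)) L0)} {δ : ℕ}
    {x : Fin (n + 1) → L0} (h : OnRat (map τ '' S) δ fun j => τ (x j)) :
    OnRat (map (algebraMap L0 L) '' S) δ fun j => algebraMap L0 L (x j) := by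
  have hinf : Infinite L := IsAlgClosed.instInfinite
  have h1 : HasPt τ S δ fun j => τ (x j) := by
    obtain ⟨p, h1, h2, h3, h4⟩ := h
    exact ⟨p, h1, h2, fun F hF => h3 _ ⟨F, hF, rfl⟩, h4⟩
  rw [hasPt_iff] at h1
  have h2 := descendT (K := L) (RingHom.id L0) τ (ptEqn S δ x) (by rwa [RingHom.comp_id])
  rw [RingHom.comp_id, ← hasPt_iff] at h2
  obtain ⟨p, h3, h4, h5, h6⟩ := h2
  refine ⟨p, h3, h4, ?_, h6⟩
  rintro _ ⟨F, hF, rfl⟩
  exact h5 F hF

/-- **All algebraically closed fields of characteristic zero.** -/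
theorem off_alg (n D r e q : ℕ) : ∃ N : ℕ, ∀ (L : Type) [Field L] [CharZero L] [IsAlgClosed L]
    (S : Set (MvPolynomial (Fin (n + 1)) L)), (∀ F ∈ S, ∃ e, e ≤ D ∧ F.IsHomogeneous e) →
    ∀ (M : ℕ) (x : ℕ → Fin (n + 1) → L), OSeq r e q M x →
      (∀ m ≤ M, ∀ F ∈ S, eval (x m) F = 0) →
        ∃ I : Finset ℕ, I.card ≤ N ∧ ∀ m ≤ M, ¬ OnRat S N (x m) →
          ∃ i ∈ I, i ≤ M ∧ ∀ u v, x i u * x m v = x i v * x m u := by
  classical
  obtain ⟨N, hN⟩ := off_strong n D r e q
  refine ⟨N, fun L _ _ _ S hS M x hx hX => ?_⟩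
  have hfg : (Ideal.span S).FG := IsNoetherian.noetherian _
  obtain ⟨S1, hS1, hS2⟩ := (Submodule.fg_span_iff_fg_span_finset_subset _).1 hfg
  have hS3 : Ideal.span (S1 : Set (MvPolynomial (Fin (n + 1)) L)) = Ideal.span S := hS2.symm
  obtain ⟨k1, _, _, hkc, -, hk⟩ := exists_ctbleK (k := L) (⋃ F ∈ S1, (F.coeffs : Set L)) (by
    exact Set.Countable.biUnion S1.countable_toSet fun F _ => F.coeffs.countable_toSet)
  have hkc' : Countable k1 := hkc
  obtain ⟨L0, _, _, _, ι, x0, hx0, hιx⟩ := oseq_desc (k1 := k1) hx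
  have hc0 : CharZero L0 := RingHom.charZero (ι : L0 →+* L)
  obtain ⟨τ⟩ := exists_embed L0
  let _ : Algebra L0 L := (ι : L0 →+* L).toAlgebra
  let S' : Set (MvPolynomial (Fin (n + 1)) L0) := {F | map (ι : L0 →+* L) F ∈ S1}
  have hS' : ∀ F ∈ S1, ∃ F' ∈ S', map (ι : L0 →+* L) F' = F := by
    intro F hF
    obtain ⟨F', hF'⟩ : ∃ F' : MvPolynomial (Fin (n + 1)) k1, map (algebraMap k1 L) F' = F :=
      mem_range_map_iff_coeffs_subset.2 fun c hc => hk c (Set.mem_biUnion (x := F) hF hc)
    have h1 : map (ι : L0 →+* L) (map (algebraMap k1 L0) F') = F := by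
      have hcomp : (ι : L0 →+* L).comp (algebraMap k1 L0) = algebraMap k1 L := by
        ext a
        exact ι.commutes a
      rw [MvPolynomial.map_map, hcomp, hF']
    refine ⟨map (algebraMap k1 L0) F', ?_, h1⟩
    change map (ι : L0 →+* L) (map (algebraMap k1 L0) F') ∈ (S1 : Set _)
    rw [h1]
    exact hF
  have hev : ∀ (m : ℕ) (F : MvPolynomial (Fin (n + 1)) L0),
      (ι : L0 →+* L) (eval (x0 m) F) = eval (x m) (map (ι : L0 →+* L) F) := by
    intro m F
    rw [← ev_ring]
    congr 2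
    funext j
    exact hιx m j
  have hevτ : ∀ (m : ℕ) (F : MvPolynomial (Fin (n + 1)) L0),
      eval (fun j => τ (x0 m j)) (map τ F) = τ (eval (x0 m) F) := by
    intro m F
    exact ev_ring τ (x0 m) F
  obtain ⟨t, ht⟩ := wseq_of (S := map τ '' S') hx0 τ (by
    rintro m hm _ ⟨F, hF, rfl⟩
    rw [hevτ]
    have h1 : eval (x0 m) F = 0 := by
      apply (ι : L0 →+* L).injective
      rw [hev, map_zero]
      exact hX m hm _ (hS1 hF)
    rw [h1, map_zero])
  obtain ⟨I, hI, hI2⟩ := hN _ (by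
    rintro _ ⟨F, hF, rfl⟩
    obtain ⟨d, hd, hd2⟩ := hS _ (hS1 hF)
    exact ⟨d, hd, (IsHomogeneous.of_map (ι : L0 →+* L).injective hd2).map _⟩) M t _ ht
  refine ⟨I, hI, fun m hm hoff => ?_⟩
  obtain ⟨i, hi, hiM, hs⟩ := hI2 m hm fun hon => hoff (by
    obtain ⟨p, h1, h2, h3, h4⟩ := onRat_desc (L := L) τ hon
    refine ⟨p, h1, h2, fun F hF => ?_, fun j => (h4 j).trans (hιx m j)⟩
    have h5 : Ideal.span (S1 : Set (MvPolynomial (Fin (n + 1)) L)) ≤
        RingHom.ker (aeval p : MvPolynomial (Fin (n + 1)) L →ₐ[L] Polynomial L) := by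
      rw [Ideal.span_le]
      intro F' hF'
      obtain ⟨F'', hF'', he⟩ := hS' F' hF'
      exact h3 F' ⟨F'', hF'', he⟩
    rw [hS3] at h5
    exact h5 (Ideal.subset_span hF))
  refine ⟨i, hi, hiM, fun u v => ?_⟩
  have h1 : x0 i u * x0 m v = x0 i v * x0 m u := by
    apply τ.injective
    rw [map_mul, map_mul]
    exact hs u v
  rw [← hιx, ← hιx, ← hιx, ← hιx, ← map_mul, ← map_mul, h1]

/-- sequences over extensions -/
theorem OSeq.map {L L' : Type} [Field L] [Field L'] {r e q M : ℕ} {x : ℕ → Fin (n + 1) → L}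
    (h : OSeq r e q M x) (τ : L →+* L') : OSeq r e q M fun m j => τ (x m j) := by
  obtain ⟨t, ρ, h0, h1, h2, h3⟩ := h.eqn
  have hev : ∀ (Q : Polynomial L) (a : L), (Q.map τ).eval (τ a) = τ (Q.eval a) := fun Q a => by
    rw [Polynomial.eval_map]
    exact Polynomial.eval₂_at_apply τ a
  refine ⟨fun m hm h4 => h.ne m hm ?_, fun m => τ (t m), ρ.map τ,
    (Polynomial.natDegree_map_le).trans h0, fun m => by rw [hev, ← h1],
    fun i j hij hj h4 => h2 i j hij hj (τ.injective h4), fun j => ?_⟩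
  · funext j
    exact (map_eq_zero τ).1 (congrFun h4 j)
  · obtain ⟨P, ⟨k0, hk0, hPk⟩, hPe, hrec⟩ := h3 j
    refine ⟨fun k => (P k).map τ, ⟨k0, hk0, ?_⟩, fun k => ?_, fun m hm => ?_⟩
    · rwa [Ne, Polynomial.map_eq_zero_iff τ.injective]
    · exact (Polynomial.natDegree_map_le).trans (hPe k)
    · have h4 := congrArg τ (hrec m hm)
      rw [map_zero, map_sum] at h4
      rw [← h4]
      refine Finset.sum_congr rfl fun k _ => ?_
      rw [map_mul, hev]

/-- **Points over extensions.** If all nonconstant rational curves of degree at most `N` on `X` over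
`k` lie in `G = 0`, then the sequences over all extensions of `k` contain at most `N` different points
outside of `G = 0`. -/
theorem few_ext {D r e q N : ℕ}
    (hN : ∀ (L : Type) [Field L] [CharZero L] [IsAlgClosed L]
      (S : Set (MvPolynomial (Fin (n + 1)) L)), (∀ F ∈ S, ∃ e, e ≤ D ∧ F.IsHomogeneous e) →
      ∀ (M : ℕ) (x : ℕ → Fin (n + 1) → L), OSeq r e q M x →
        (∀ m ≤ M, ∀ F ∈ S, eval (x m) F = 0) →
          ∃ I : Finset ℕ, I.card ≤ N ∧ ∀ m ≤ M, ¬ OnRat S N (x m) →
            ∃ i ∈ I, i ≤ M ∧ ∀ u v, x i u * x m v = x i v * x m u)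
    {k : Type} [Field k] [CharZero k] [IsAlgClosed k] {S : Set (MvPolynomial (Fin (n + 1)) k)}
    (hS : ∀ F ∈ S, ∃ e, e ≤ D ∧ F.IsHomogeneous e) {G : MvPolynomial (Fin (n + 1)) k}
    (hG : ∀ p : Fin (n + 1) → Polynomial k, NC p → (∀ j, (p j).natDegree ≤ N) →
      (∀ F ∈ S, aeval p F = 0) → aeval p G = 0)
    (L : Type) [Field L] [Algebra k L] (M : ℕ) (x : ℕ → Fin (n + 1) → L) (hx : OSeq r e q M x)
    (hX : ∀ m ≤ M, ∀ F ∈ S, eval (x m) (map (algebraMap k L) F) = 0) :
    FewOff N M (map (algebraMap k L) G) x := by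
  classical
  let E := AlgebraicClosure L
  have hcL : CharZero L := charZero_of_injective_algebraMap (algebraMap k L).injective
  have hcE : CharZero E := charZero_of_injective_algebraMap (algebraMap L E).injective
  have hev : ∀ (m : ℕ) (F : MvPolynomial (Fin (n + 1)) k),
      eval (fun j => algebraMap L E (x m j)) (map (algebraMap k E) F) =
        algebraMap L E (eval (x m) (map (algebraMap k L) F)) := by
    intro m F
    rw [eval_map, eval_map]
    change aeval (fun j => algebraMap L E (x m j)) F =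
      IsScalarTower.toAlgHom k L E (aeval (x m) F)
    rw [MvPolynomial.comp_aeval_apply]
    rfl
  obtain ⟨I, hI, hI2⟩ := hN E (map (algebraMap k E) '' S) (by
    rintro _ ⟨F, hF, rfl⟩
    obtain ⟨d, hd, hd2⟩ := hS F hF
    exact ⟨d, hd, hd2.map _⟩) M _ (OSeq.map hx (algebraMap L E)) (by
    rintro m hm _ ⟨F, hF, rfl⟩
    rw [hev, hX m hm F hF, map_zero])
  refine ⟨I, hI, fun m hm hGm => ?_⟩
  obtain ⟨i, hi, hiM, hs⟩ := hI2 m hm (by
    rintro ⟨p, h1, h2, h3, h4⟩
    have h5 : (aeval p G : Polynomial E) ≠ 0 := by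
      intro h0
      apply hGm
      apply (algebraMap L E).injective
      rw [← hev, map_zero]
      have h6 := poly_eval p (map (algebraMap k E) G) 0
      have h7 : (fun j => (p j).eval 0) = fun j => algebraMap L E (x m j) := funext h4
      rw [MvPolynomial.aeval_map_algebraMap, h0, Polynomial.eval_zero, h7] at h6
      exact h6.symm
    obtain ⟨p', h6, h7, h8, h9⟩ := curve_spec p h1 h5
    refine h8 (hG p' h6 (fun j => (h7 j).trans (h2 j)) fun F hF => h9 F ?_)
    have h10 := h3 _ ⟨F, hF, rfl⟩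
    rwa [MvPolynomial.aeval_map_algebraMap] at h10)
  refine ⟨i, hi, hiM, fun u v => ?_⟩
  apply (algebraMap L E).injective
  rw [map_mul, map_mul]
  exact hs u v

end Pool.Agent.Q309.OFF
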