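import Mathlib
import Pool.Agent.Results.MP_0e7dfd_ag.RecursiveOrbits

/-!
Sequences which satisfy linear recurrences along an orbit form an algebra.
-/

set_option autoImplicit false

namespace Pool.Agent.Q309.OFF

open Filter
open Pool.Agent.Results.MP_0e7dfd_ag.RecursiveOrbits (Rec)

section

variable {L : Type} [Field L] {t : ℕ → L}

/-- germs of sequences -/
abbrev Gm (L : Type) [Field L] : Type := Filter.Germ (atTop : Filter ℕ) L

/-- the values of polynomials along the orbit -/
noncomputable def psi (t : ℕ → L) : Polynomial L →+* Gm L where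
  toFun P := ((fun m => P.eval (t m) : ℕ → L) : Gm L)
  map_one' := by
    have h1 : (fun m => (1 : Polynomial L).eval (t m) : ℕ → L) = 1 := by
      funext m
      simp
    rw [h1]
    rfl
  map_mul' P Q := by
    have h1 : (fun m => (P * Q).eval (t m) : ℕ → L) =
        (fun m => P.eval (t m)) * fun m => Q.eval (t m) := by
      funext m
      simp
    rw [h1]
    rfl
  map_zero' := by
    have h1 : (fun m => (0 : Polynomial L).eval (t m) : ℕ → L) = 0 := by
      funext m
      simp
    rw [h1]
    rfl
  map_add' P Q := by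
    have h1 : (fun m => (P + Q).eval (t m) : ℕ → L) =
        (fun m => P.eval (t m)) + fun m => Q.eval (t m) := by
      funext m
      simp
    rw [h1]
    rfl

theorem ev_ne (ht : Function.Injective t) {P : Polynomial L} (hP : P ≠ 0) :
    ∀ᶠ m in atTop, P.eval (t m) ≠ 0 := by
  have h1 : {m : ℕ | P.eval (t m) = 0}.Finite :=
    Set.Finite.preimage ht.injOn (Polynomial.finite_setOfPred_isRoot hP)
  obtain ⟨M, hM⟩ := h1.bddAbove
  filter_upwards [eventually_gt_atTop M] with m hm h0
  exact absurd (hM h0) (by omega)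

theorem psi_unit (ht : Function.Injective t) {P : Polynomial L} (hP : P ≠ 0) :
    IsUnit (psi t P) := by
  refine IsUnit.of_mul_eq_one (((fun m => (P.eval (t m))⁻¹ : ℕ → L) : Gm L)) ?_
  change (((fun m => P.eval (t m)) * (fun m => (P.eval (t m))⁻¹) : ℕ → L) : Gm L) =
    ((1 : ℕ → L) : Gm L)
  rw [Filter.Germ.coe_eq]
  filter_upwards [ev_ne ht hP] with m hm
  exact mul_inv_cancel₀ hm

/-- rational functions along the orbit -/
noncomputable def psiK (ht : Function.Injective t) : FractionRing (Polynomial L) →+* Gm L :=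
  IsLocalization.lift (M := nonZeroDivisors (Polynomial L)) (g := psi t) fun y =>
    psi_unit ht (nonZeroDivisors.ne_zero y.2)

theorem psiK_algebraMap (ht : Function.Injective t) (P : Polynomial L) :
    psiK ht (algebraMap (Polynomial L) (FractionRing (Polynomial L)) P) = psi t P :=
  IsLocalization.lift_eq _ P

/-- the shifts of a sequence -/
def gs (a : ℕ → L) (i : ℕ) : Gm L := ((fun m => a (m + i) : ℕ → L) : Gm L)

theorem iter_eval {ρ : Polynomial L} (hρ : ∀ m, t (m + 1) = ρ.eval (t m)) (l m : ℕ) :
    t (m + l) = (ρ.comp^[l] Polynomial.X).eval (t m) := by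
  induction l with
  | zero => simp
  | succ l ih =>
    rw [Function.iterate_succ_apply', Polynomial.eval_comp, ← ih, ← hρ, add_assoc]

/-- all shifts lie in a finite-dimensional space -/
def Fd (ht : Function.Injective t) (a : ℕ → L) : Prop :=
  letI : Algebra (FractionRing (Polynomial L)) (Gm L) := (psiK ht).toAlgebra
  ∃ M : Submodule (FractionRing (Polynomial L)) (Gm L), M.FG ∧ ∀ i, gs a i ∈ M

theorem Fd.const (ht : Function.Injective t) (c : L) : Fd ht fun _ => c := by
  let _ : Algebra (FractionRing (Polynomial L)) (Gm L) := (psiK ht).toAlgebra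
  refine ⟨Submodule.span _ {gs (fun _ => c) 0}, Submodule.fg_span_singleton _, fun i => ?_⟩
  exact Submodule.mem_span_singleton_self _

theorem Fd.add {ht : Function.Injective t} {a b : ℕ → L} (ha : Fd ht a) (hb : Fd ht b) :
    Fd ht fun m => a m + b m := by
  let _ : Algebra (FractionRing (Polynomial L)) (Gm L) := (psiK ht).toAlgebra
  obtain ⟨M, hM, h1⟩ := ha
  obtain ⟨M', hM', h2⟩ := hb
  refine ⟨M ⊔ M', hM.sup hM', fun i => ?_⟩
  have h3 : gs (fun m => a m + b m) i = gs a i + gs b i := rfl
  rw [h3]
  exact Submodule.add_mem_sup (h1 i) (h2 i)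

theorem Fd.mul {ht : Function.Injective t} {a b : ℕ → L} (ha : Fd ht a) (hb : Fd ht b) :
    Fd ht fun m => a m * b m := by
  let _ : Algebra (FractionRing (Polynomial L)) (Gm L) := (psiK ht).toAlgebra
  obtain ⟨M, hM, h1⟩ := ha
  obtain ⟨M', hM', h2⟩ := hb
  refine ⟨M * M', hM.mul hM', fun i => ?_⟩
  have h3 : gs (fun m => a m * b m) i = gs a i * gs b i := rfl
  rw [h3]
  exact Submodule.mul_mem_mul (h1 i) (h2 i)

theorem Fd.of_rec (ht : Function.Injective t) {ρ : Polynomial L}
    (hρ : ∀ m, t (m + 1) = ρ.eval (t m)) {a : ℕ → L} (h : Rec t a) : Fd ht a := by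
  classical
  let _ : Algebra (FractionRing (Polynomial L)) (Gm L) := (psiK ht).toAlgebra
  obtain ⟨r, P, ⟨i0, hi0, hPi0⟩, hrec⟩ := h
  -- the top index
  obtain ⟨s, hs, hPs, htop⟩ : ∃ s ≤ r, P s ≠ 0 ∧ ∀ i, s < i → i ≤ r → P i = 0 := by
    let J : Finset ℕ := (Finset.range (r + 1)).filter fun i => P i ≠ 0
    have hJ : ∀ i, i ∈ J ↔ i < r + 1 ∧ P i ≠ 0 := fun i => by
      rw [Finset.mem_filter, Finset.mem_range]
    have hne : J.Nonempty := ⟨i0, (hJ i0).2 ⟨by omega, hPi0⟩⟩
    have h1 := (hJ _).1 (J.max'_mem hne)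
    refine ⟨J.max' hne, by omega, h1.2, fun i hi hir => ?_⟩
    by_contra hcon
    have := J.le_max' i ((hJ i).2 ⟨by omega, hcon⟩)
    omega
  have hsum : ∀ m, ∑ i ∈ Finset.range (s + 1), (P i).eval (t m) * a (m + i) = 0 := by
    intro m
    rw [← hrec m]
    refine Finset.sum_subset (Finset.range_mono (by omega)) fun i hi hi' => ?_
    rw [htop i (by simpa using hi') (by have := Finset.mem_range.1 hi; omega),
      Polynomial.eval_zero, zero_mul]
  refine ⟨Submodule.span _ ((Finset.range s).image (gs a) : Finset (Gm L)),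
    ⟨(Finset.range s).image (gs a), rfl⟩, fun j => ?_⟩
  set M := Submodule.span (FractionRing (Polynomial L))
    (((Finset.range s).image (gs a) : Finset (Gm L)) : Set (Gm L)) with hM
  induction j using Nat.strong_induction_on with
  | _ j ih =>
    by_cases hj : j < s
    · exact Submodule.subset_span (Finset.mem_coe.2 (Finset.mem_image_of_mem _
        (Finset.mem_range.2 hj)))
    · obtain ⟨l, rfl⟩ := Nat.exists_eq_add_of_le (not_lt.1 hj)
      -- the shifted equation
      let Q : ℕ → Polynomial L := fun i => (P i).comp (ρ.comp^[l] Polynomial.X)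
      have hQ : ∀ i m, (Q i).eval (t m) = (P i).eval (t (m + l)) := fun i m => by
        rw [Polynomial.eval_comp, ← iter_eval hρ]
      have hQs : Q s ≠ 0 := by
        intro h0
        obtain ⟨m, hm⟩ := ((ev_ne ht hPs).and (eventually_ge_atTop l)).exists
        obtain ⟨m', rfl⟩ := Nat.exists_eq_add_of_le hm.2
        have h1 := hQ s m'
        rw [h0, Polynomial.eval_zero] at h1
        apply hm.1
        rw [add_comm l m', ← h1]
      have heq : psi t (Q s) * gs a (s + l) = -∑ i ∈ Finset.range s, psi t (Q i) * gs a (i + l) := by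
        rw [eq_neg_iff_add_eq_zero]
        have h1 : psi t (Q s) * gs a (s + l) + ∑ i ∈ Finset.range s, psi t (Q i) * gs a (i + l) =
            ∑ i ∈ Finset.range (s + 1), psi t (Q i) * gs a (i + l) := by
          rw [Finset.sum_range_succ, add_comm]
        rw [h1]
        have h2 : (∑ i ∈ Finset.range (s + 1), psi t (Q i) * gs a (i + l)) =
            (((∑ i ∈ Finset.range (s + 1), fun m => (Q i).eval (t m) * a (m + (i + l))) :
              ℕ → L) : Gm L) := by
          have h3 : ∀ (T : Finset ℕ) (f : ℕ → ℕ → L),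
              ((∑ i ∈ T, f i : ℕ → L) : Gm L) = ∑ i ∈ T, ((f i : ℕ → L) : Gm L) := by
            intro T f
            exact map_sum (Filter.Germ.coeAddHom (M := L) (atTop : Filter ℕ)) f T
          rw [h3]
          rfl
        rw [h2]
        have h4 : (∑ i ∈ Finset.range (s + 1), fun m => (Q i).eval (t m) * a (m + (i + l))) =
            (0 : ℕ → L) := by
          funext m
          rw [Finset.sum_apply, Pi.zero_apply, ← hsum (m + l)]
          refine Finset.sum_congr rfl fun i _ => ?_
          rw [hQ, show m + l + i = m + (i + l) by omega]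
        rw [h4]
        rfl
      have hu : IsUnit (psi t (Q s)) := psi_unit ht hQs
      have h5 : gs a (s + l) = (algebraMap (Polynomial L) (FractionRing (Polynomial L)) (Q s))⁻¹ •
          (-∑ i ∈ Finset.range s, psi t (Q i) * gs a (i + l)) := by
        have h6 : (algebraMap (Polynomial L) (FractionRing (Polynomial L)) (Q s)) ≠ 0 := by
          rwa [Ne, map_eq_zero_iff _ (IsFractionRing.injective (Polynomial L) _)]
        have h7 : psi t (Q s) * gs a (s + l) =
            (algebraMap (Polynomial L) (FractionRing (Polynomial L)) (Q s)) • gs a (s + l) := by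
          rw [Algebra.smul_def]
          change _ = psiK ht _ * _
          rw [psiK_algebraMap]
        rw [← heq, h7, inv_smul_smul₀ h6]
      rw [h5]
      refine Submodule.smul_mem _ _ (Submodule.neg_mem _ (Submodule.sum_mem _ fun i hi => ?_))
      have h8 : psi t (Q i) * gs a (i + l) =
          (algebraMap (Polynomial L) (FractionRing (Polynomial L)) (Q i)) • gs a (i + l) := by
        rw [Algebra.smul_def]
        change _ = psiK ht _ * _
        rw [psiK_algebraMap]
      rw [h8]
      exact Submodule.smul_mem _ _ (ih (i + l) (by have := Finset.mem_range.1 hi; omega))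

theorem Fd.rec {ht : Function.Injective t} {a : ℕ → L} (h : Fd ht a) : Rec t a := by
  classical
  let _ : Algebra (FractionRing (Polynomial L)) (Gm L) := (psiK ht).toAlgebra
  let _ : Algebra (Polynomial L) (Gm L) := (psi t).toAlgebra
  have _ : IsScalarTower (Polynomial L) (FractionRing (Polynomial L)) (Gm L) :=
    IsScalarTower.of_algebraMap_eq fun P => (psiK_algebraMap ht P).symm
  obtain ⟨M, hM, h1⟩ := h
  have hfin : Module.Finite (FractionRing (Polynomial L)) M := Module.Finite.iff_fg.2 hM
  set d := Module.finrank (FractionRing (Polynomial L)) M with hd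
  have h2 : ¬ LinearIndependent (Polynomial L) fun i : Fin (d + 1) => gs a i := by
    intro hli
    have h3 : LinearIndependent (FractionRing (Polynomial L)) fun i : Fin (d + 1) => gs a i :=
      (LinearIndependent.iff_fractionRing (Polynomial L) (FractionRing (Polynomial L))).1 hli
    have h4 : LinearIndependent (FractionRing (Polynomial L))
        fun i : Fin (d + 1) => (⟨gs a i, h1 i⟩ : M) := by
      refine LinearIndependent.of_comp M.subtype ?_
      exact h3
    have h5 := h4.fintype_card_le_finrank
    rw [Fintype.card_fin, ← hd] at h5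
    omega
  rw [Fintype.not_linearIndependent_iff] at h2
  obtain ⟨g, hg, ⟨i0, hi0⟩⟩ := h2
  let P : ℕ → Polynomial L := fun i => if hi : i < d + 1 then g ⟨i, hi⟩ else 0
  have hP : ∀ᶠ m in atTop, ∑ i ∈ Finset.range (d + 1), (P i).eval (t m) * a (m + i) = 0 := by
    have h3 : ((∑ i ∈ Finset.range (d + 1), fun m => (P i).eval (t m) * a (m + i) : ℕ → L) :
        Gm L) = ((0 : ℕ → L) : Gm L) := by
      have h3 : ∀ (T : Finset ℕ) (f : ℕ → ℕ → L),
          ((∑ i ∈ T, f i : ℕ → L) : Gm L) = ∑ i ∈ T, ((f i : ℕ → L) : Gm L) := by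
        intro T f
        exact map_sum (Filter.Germ.coeAddHom (M := L) (atTop : Filter ℕ)) f T
      rw [h3, Finset.sum_range]
      refine Eq.trans (Finset.sum_congr rfl fun i _ => ?_) hg
      rw [Algebra.smul_def]
      have h6 : P i = g i := dif_pos i.2
      rw [← h6]
      rfl
    rw [Filter.Germ.coe_eq] at h3
    filter_upwards [h3] with m hm
    rw [Finset.sum_apply] at hm
    exact hm
  obtain ⟨m0, hm0⟩ := eventually_atTop.1 hP
  let Q : Polynomial L := ∏ m ∈ Finset.range m0, (Polynomial.X - Polynomial.C (t m))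
  have hQ0 : Q ≠ 0 := Finset.prod_ne_zero_iff.2 fun m _ => Polynomial.X_sub_C_ne_zero _
  refine ⟨d, fun i => Q * P i, ⟨i0, by omega, mul_ne_zero hQ0 ?_⟩, fun m => ?_⟩
  · have h6 : P i0 = g i0 := dif_pos i0.2
    rwa [h6]
  · have h7 : ∑ i ∈ Finset.range (d + 1), (Q * P i).eval (t m) * a (m + i) =
        Q.eval (t m) * ∑ i ∈ Finset.range (d + 1), (P i).eval (t m) * a (m + i) := by
      rw [Finset.mul_sum]
      refine Finset.sum_congr rfl fun i _ => ?_
      rw [Polynomial.eval_mul, mul_assoc]
    rw [h7]
    by_cases hm : m0 ≤ m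
    · rw [hm0 m hm, mul_zero]
    · have h8 : Q.eval (t m) = 0 := by
        rw [Polynomial.eval_prod]
        refine Finset.prod_eq_zero (Finset.mem_range.2 (not_le.1 hm)) ?_
        simp
      rw [h8, zero_mul]

/-- **Forms of recurrent sequences.** -/
theorem rec_form (ht : Function.Injective t) {ρ : Polynomial L}
    (hρ : ∀ m, t (m + 1) = ρ.eval (t m)) {n : ℕ} {x : ℕ → Fin (n + 1) → L}
    (h : ∀ j, Rec t fun m => x m j) (G : MvPolynomial (Fin (n + 1)) L) :
    Rec t fun m => MvPolynomial.eval (x m) G := by
  apply Fd.rec (ht := ht)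
  induction G using MvPolynomial.induction_on with
  | C a =>
    simp only [MvPolynomial.eval_C]
    exact Fd.const ht a
  | add p q hp hq =>
    simp only [map_add]
    exact hp.add hq
  | mul_X p j hp =>
    simp only [map_mul, MvPolynomial.eval_X]
    exact hp.mul (Fd.of_rec ht hρ (h j))

end

end Pool.Agent.Q309.OFF
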