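import Pool.Agent.Q309.OFF.Alg

/-!
Sequences of points on rational curves over extensions of an algebraically closed field.
-/

set_option autoImplicit false

namespace Pool.Agent.Q309.OFF

open MvPolynomial
open Pool.Agent.Q309.PO
open Pool.Agent.Q1.SL
open Pool.Agent.Q171.RC (OnRat NC)

variable {n : ℕ}

theorem trans_of_not_range {k L : Type} [Field k] [IsAlgClosed k] [Field L] [Algebra k L] {u : L}
    (hu : u ∉ Set.range (algebraMap k L)) : Transcendental k u := by
  intro h
  have h1 : IsIntegral k u := h.isIntegral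
  apply hu
  refine ⟨-(minpoly k u).coeff 0, ?_⟩
  have hq : (minpoly k u).leadingCoeff = 1 := minpoly.monic h1
  have hdeg : (minpoly k u).degree = 1 :=
    IsAlgClosed.degree_eq_one_of_irreducible k (minpoly.irreducible h1)
  have h2 : Polynomial.aeval u (minpoly k u) = 0 := minpoly.aeval k u
  rw [Polynomial.eq_X_add_C_of_degree_eq_one hdeg, hq, Polynomial.C_1, one_mul, map_add,
    Polynomial.aeval_X, Polynomial.aeval_C, add_eq_zero_iff_eq_neg] at h2
  rw [map_neg]
  exact h2.symm

theorem pow_ne {k : Type} [Field k] [CharZero k] [IsAlgClosed k]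
    {p : Fin (n + 1) → Polynomial k} (hp : NC p) {a b : ℕ} (hab : a < b) :
    ¬ ∀ i j, (p i).comp (Polynomial.X ^ (2 ^ a)) * (p j).comp (Polynomial.X ^ (2 ^ b)) =
      (p j).comp (Polynomial.X ^ (2 ^ a)) * (p i).comp (Polynomial.X ^ (2 ^ b)) := by
  classical
  intro h
  obtain ⟨s, t, i, j, hst⟩ := hp
  obtain ⟨l, hl⟩ : ∃ l, p l ≠ 0 := by
    by_contra hcon
    push Not at hcon
    apply hst
    rw [hcon i, hcon j, Polynomial.eval_zero, Polynomial.eval_zero]
  obtain ⟨c, hc2, hc⟩ : ∃ c : ℕ, 2 ≤ c ∧ ∀ m : ℕ, c ≤ m → (p l).eval (m : k) ≠ 0 := by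
    have h1 : {m : ℕ | (p l).eval (m : k) = 0}.Finite :=
      Set.Finite.preimage (fun a _ b _ hab => Nat.cast_injective hab)
        (Polynomial.finite_setOfPred_isRoot hl) (f := fun h : ℕ => (h : k))
    obtain ⟨c, hc⟩ := h1.bddAbove
    exact ⟨c + 2, by omega, fun m hm h0 => by
      have := hc h0
      omega⟩
  obtain ⟨w, hw⟩ : ∃ w : ℕ, w = 2 ^ (b - a) := ⟨_, rfl⟩
  have hw2 : 2 ≤ w := by
    rw [hw]
    calc 2 = 2 ^ 1 := rfl
      _ ≤ 2 ^ (b - a) := Nat.pow_le_pow_right (by norm_num) (by omega)
  have hstep : ∀ (z : k) (u v : Fin (n + 1)), (p u).eval z * (p v).eval (z ^ w) =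
      (p v).eval z * (p u).eval (z ^ w) := by
    intro z u v
    obtain ⟨y, hy⟩ := IsAlgClosed.exists_pow_nat_eq z (n := 2 ^ a) (by positivity)
    have h1 := congrArg (Polynomial.eval y) (h u v)
    have h2 : y ^ (2 ^ b) = z ^ w := by
      rw [← hy, ← pow_mul, hw, ← pow_add, Nat.add_sub_cancel' hab.le]
    simpa only [Polynomial.eval_mul, Polynomial.eval_comp, Polynomial.eval_pow,
      Polynomial.eval_X, hy, h2] using h1
  let S : ℕ → ℕ := fun i => c ^ (w ^ i)
  have hS : ∀ i, c ≤ S i := fun i => Nat.le_self_pow (by positivity) c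
  have hSi : Function.Injective S := fun i i' hii => by
    have h1 : w ^ i = w ^ i' := Nat.pow_right_injective hc2 hii
    exact Nat.pow_right_injective hw2 h1
  have hall : ∀ (i : ℕ) (u v : Fin (n + 1)), (p u).eval (S i : k) * (p v).eval (c : k) =
      (p v).eval (S i : k) * (p u).eval (c : k) := by
    intro i
    induction i with
    | zero =>
      intro u v
      simp only [S, pow_zero, pow_one]
      ring
    | succ i ih =>
      intro u v
      have h1 : ((S (i + 1) : ℕ) : k) = ((S i : ℕ) : k) ^ w := by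
        change ((c ^ (w ^ (i + 1)) : ℕ) : k) = ((c ^ (w ^ i) : ℕ) : k) ^ w
        rw [Nat.cast_pow, Nat.cast_pow, ← pow_mul, ← pow_succ]
      have h2 := hstep (S i : k)
      rw [← h1] at h2
      have h3 := hc (S i) (hS i)
      have e1 := h2 l u
      have e2 := h2 l v
      have e3 := ih u l
      have e4 := ih v l
      apply mul_left_cancel₀ (mul_ne_zero h3 (hc c le_rfl))
      have e5 := ih u v
      set A := (p l).eval (S i : k)
      set A' := (p l).eval (c : k)
      calc A * A' * ((p u).eval (S (i + 1) : k) * (p v).eval (c : k))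
          = A' * (p v).eval (c : k) * (A * (p u).eval (S (i + 1) : k)) := by ring
        _ = A' * (p v).eval (c : k) * ((p u).eval (S i : k) * (p l).eval (S (i + 1) : k)) := by
            rw [e1]
        _ = A' * (p l).eval (S (i + 1) : k) * ((p u).eval (S i : k) * (p v).eval (c : k)) := by
            ring
        _ = A' * (p l).eval (S (i + 1) : k) * ((p v).eval (S i : k) * (p u).eval (c : k)) := by
            rw [e5]
        _ = A' * (p u).eval (c : k) * ((p v).eval (S i : k) * (p l).eval (S (i + 1) : k)) := by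
            ring
        _ = A' * (p u).eval (c : k) * (A * (p v).eval (S (i + 1) : k)) := by rw [e2]
        _ = A * A' * ((p v).eval (S (i + 1) : k) * (p u).eval (c : k)) := by ring
  have hcc : ∀ u v : Fin (n + 1), p u * Polynomial.C ((p v).eval (c : k)) =
      p v * Polynomial.C ((p u).eval (c : k)) := by
    intro u v
    refine Polynomial.eq_of_infinite_eval_eq _ _ (Set.Infinite.mono ?_
      (Set.infinite_range_of_injective (f := fun i : ℕ => ((S i : ℕ) : k)) fun a b hab =>
        hSi (Nat.cast_injective hab)))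
    rintro _ ⟨m, rfl⟩
    change (p u * Polynomial.C ((p v).eval (c : k))).eval (S m : k) =
      (p v * Polynomial.C ((p u).eval (c : k))).eval (S m : k)
    rw [Polynomial.eval_mul, Polynomial.eval_C, Polynomial.eval_mul, Polynomial.eval_C]
    exact hall m u v
  have hl' : (p l).eval (c : k) ≠ 0 := hc c le_rfl
  have hcs : ∀ (z : k) (u : Fin (n + 1)), (p u).eval z =
      (p l).eval z * ((p u).eval (c : k) / (p l).eval (c : k)) := by
    intro z u
    have h2 := congrArg (fun q => Polynomial.eval z q) (hcc u l)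
    simp only [Polynomial.eval_mul, Polynomial.eval_C] at h2
    field_simp
    exact h2
  apply hst
  rw [hcs s i, hcs t j, hcs s j, hcs t i]
  ring

/-- **Points on rational curves over extensions.** -/
theorem pow_points {k : Type} [Field k] [CharZero k] [IsAlgClosed k]
    {p : Fin (n + 1) → Polynomial k} (hp : NC p) {d : ℕ} (hd : ∀ j, (p j).natDegree ≤ d)
    {L : Type} [Field L] [Algebra k L] {u : L} (hu : u ∉ Set.range (algebraMap k L)) :
    ORec 1 (2 * d) 2 (fun (m : ℕ) (j : Fin (n + 1)) => Polynomial.aeval (u ^ (2 ^ m)) (p j)) ∧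
      ∀ m m' : ℕ, m < m' → ¬ ∀ i j,
        Polynomial.aeval (u ^ (2 ^ m)) (p i) * Polynomial.aeval (u ^ (2 ^ m')) (p j) =
          Polynomial.aeval (u ^ (2 ^ m)) (p j) * Polynomial.aeval (u ^ (2 ^ m')) (p i) := by
  classical
  have htr := trans_of_not_range hu
  have hcomp : ∀ (m : ℕ) (Q : Polynomial k), Polynomial.aeval (u ^ (2 ^ m)) Q =
      Polynomial.aeval u (Q.comp (Polynomial.X ^ (2 ^ m))) := by
    intro m Q
    rw [Polynomial.aeval_comp, map_pow, Polynomial.aeval_X]
  have hinj : Function.Injective (Polynomial.aeval u : Polynomial k →ₐ[k] L) :=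
    transcendental_iff_injective.1 htr
  refine ⟨⟨fun m => u ^ (2 ^ m), Polynomial.X ^ 2, ?_, fun m => ?_, fun a b hab => ?_, fun j => ?_⟩,
    fun m m' hmm h => ?_⟩
  · exact (Polynomial.natDegree_X_pow 2).le
  · rw [Polynomial.eval_pow, Polynomial.eval_X, ← pow_mul, ← pow_succ]
  · have h1 : (Polynomial.X : Polynomial k) ^ (2 ^ a) = Polynomial.X ^ (2 ^ b) := by
      apply hinj
      rw [map_pow, map_pow, Polynomial.aeval_X]
      exact hab
    have h2 := congrArg Polynomial.natDegree h1
    rw [Polynomial.natDegree_X_pow, Polynomial.natDegree_X_pow] at h2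
    exact Nat.pow_right_injective le_rfl h2
  · by_cases h0 : p j = 0
    · refine ⟨fun _ => 1, ⟨0, Nat.zero_le _, one_ne_zero⟩, fun k => by simp, fun m => ?_⟩
      simp [h0]
    · let Q : Polynomial L := (p j).map (algebraMap k L)
      have hQ : Q ≠ 0 := (Polynomial.map_ne_zero_iff (algebraMap k L).injective).2 h0
      have hQd : Q.natDegree ≤ d := (Polynomial.natDegree_map_le).trans (hd j)
      have hQe : ∀ z : L, Q.eval z = Polynomial.aeval z (p j) := by
        intro z
        rw [Polynomial.eval_map, Polynomial.aeval_def]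
      refine ⟨fun k => if k = 0 then -(Q.comp (Polynomial.X ^ 2)) else Q,
        ⟨1, le_rfl, by simpa using hQ⟩, fun k => ?_, fun m => ?_⟩
      · by_cases hk : k = 0
        · simp only [if_pos hk]
          rw [Polynomial.natDegree_neg]
          refine Polynomial.natDegree_comp_le.trans ?_
          rw [Polynomial.natDegree_X_pow, mul_comm]
          exact Nat.mul_le_mul_left 2 hQd
        · simp only [if_neg hk]
          omega
      · rw [Finset.sum_range_succ, Finset.sum_range_one]
        simp only [if_pos, if_neg one_ne_zero, Polynomial.eval_neg, Polynomial.eval_comp,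
          Polynomial.eval_pow, Polynomial.eval_X, add_zero]
        rw [hQe, hQe, ← pow_mul, ← pow_succ]
        ring
  · refine pow_ne hp hmm fun i j => hinj ?_
    rw [map_mul, map_mul, ← hcomp, ← hcomp, ← hcomp, ← hcomp]
    exact h i j

/-- the points lie on the variety -/
theorem pow_on {k : Type} [Field k] {p : Fin (n + 1) → Polynomial k}
    {L : Type} [Field L] [Algebra k L] {F : MvPolynomial (Fin (n + 1)) k}
    (hF : (aeval p F : Polynomial k) = 0) (z : L) :
    eval (fun j => Polynomial.aeval z (p j)) (map (algebraMap k L) F) = 0 := by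
  rw [eval_map]
  change aeval (fun j => Polynomial.aeval z (p j)) F = 0
  have h1 := MvPolynomial.comp_aeval_apply (f := p) (Polynomial.aeval z : Polynomial k →ₐ[k] L) F
  rw [hF, map_zero] at h1
  exact h1.symm

end Pool.Agent.Q309.OFF
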