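import Pool.Agent.Q309.OFF.Per
import Pool.Agent.Q309.PO.Clo

/-!
Sequences of points given by nondegenerate recurrences over a rational function field, along the orbit
of a transcendental number: a first point off the rational curves is repeated.
-/

set_option autoImplicit false

namespace Pool.Agent.Q309.OFF

open MvPolynomial Filter
open Pool.Agent.Q309.PO

variable {n : ℕ}

theorem tr_orbit {k0 : Type} [Field k0] [Algebra k0 ℂ] {ρ : Polynomial k0}
    (hρ : 1 ≤ ρ.natDegree) {τ : ℕ → ℂ} (hτ : ∀ j, τ (j + 1) = Polynomial.aeval (τ j) ρ)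
    (htr : Transcendental k0 (τ 0)) (j : ℕ) : Transcendental k0 (τ j) := by
  induction j with
  | zero => exact htr
  | succ j ih =>
    rintro ⟨P, hP, h0⟩
    refine ih ⟨P.comp ρ, comp_ne hρ hP, ?_⟩
    rw [Polynomial.aeval_comp, ← hτ]
    exact h0

theorem frac_data {k0 F : Type} [Field k0] [Algebra k0 ℂ] [Field F] [Algebra (Polynomial k0) F]
    [IsFractionRing (Polynomial k0) F] [Algebra k0 F] [IsScalarTower k0 (Polynomial k0) F]
    {ρ : Polynomial k0} (hρ : 1 ≤ ρ.natDegree) {τ : ℕ → ℂ}
    (hτ : ∀ j, τ (j + 1) = Polynomial.aeval (τ j) ρ) (htr : Transcendental k0 (τ 0)) :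
    ∃ (σF : F →ₐ[k0] F) (ε : ℕ → F →ₐ[k0] ℂ),
      (∀ g : Polynomial k0, σF (algebraMap _ F g) = algebraMap _ F (g.comp ρ)) ∧
      (∀ j (g : Polynomial k0), ε j (algebraMap _ F g) = Polynomial.aeval (τ j) g) ∧
        ∀ j c, ε (j + 1) c = ε j (σF c) := by
  have h1 : Function.Injective ((IsScalarTower.toAlgHom k0 (Polynomial k0) F).comp
      (Polynomial.aeval ρ)) := by
    rw [injective_iff_map_eq_zero]
    intro p hp
    by_contra hne
    refine comp_ne hρ hne ?_
    have h2 : algebraMap (Polynomial k0) F (p.comp ρ) = 0 := hp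
    rwa [map_eq_zero_iff _ (IsFractionRing.injective (Polynomial k0) F)] at h2
  have h2 : ∀ j, Function.Injective (Polynomial.aeval (R := k0) (τ j)) := fun j =>
    transcendental_iff_injective.1 (tr_orbit hρ hτ htr j)
  let σF : F →ₐ[k0] F := IsFractionRing.liftAlgHom (K := F) h1
  let ε : ℕ → F →ₐ[k0] ℂ := fun j => IsFractionRing.liftAlgHom (K := F) (h2 j)
  have h3 : ∀ g : Polynomial k0, σF (algebraMap _ F g) = algebraMap _ F (g.comp ρ) := fun g =>
    IsFractionRing.lift_algebraMap h1 g
  have h4 : ∀ j (g : Polynomial k0), ε j (algebraMap _ F g) = Polynomial.aeval (τ j) g :=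
    fun j g => IsFractionRing.lift_algebraMap (h2 j) g
  refine ⟨σF, ε, h3, h4, fun j c => ?_⟩
  obtain ⟨a, b, hb, rfl⟩ := IsFractionRing.div_surjective (A := Polynomial k0) c
  rw [map_div₀, map_div₀, map_div₀, h3, h3, h4, h4, h4, h4, Polynomial.aeval_comp,
    Polynomial.aeval_comp, hτ]

/-- **The core, for nondegenerate recurrences.** -/
theorem core1 {k0 : Type} [Field k0] [Countable k0] [Algebra k0 ℂ] {R : ℕ} {ρ : Polynomial k0}
    (hρ : 1 ≤ ρ.natDegree) {τ : ℕ → ℂ} (hτ : ∀ j, τ (j + 1) = Polynomial.aeval (τ j) ρ)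
    (hinj : Function.Injective τ) (htr : Transcendental k0 (τ 0))
    {Q : Fin (n + 1) → ℕ → Polynomial k0} (hQ0 : ∀ u, Q u 0 ≠ 0) (hQR : ∀ u, Q u (R + 1) ≠ 0)
    {x : ℕ → Fin (n + 1) → ℂ}
    (hrec : ∀ u j, ∑ k ∈ Finset.range (R + 2), Polynomial.aeval (τ j) (Q u k) * x (j + k) u = 0)
    (hx0 : x 0 ≠ 0)
    (S : Set (MvPolynomial (Fin (n + 1)) k0)) (hS : ∀ F ∈ S, ∃ e, F.IsHomogeneous e)
    (hX : ∀ F ∈ S, ∀ j, aeval (x j) F = 0)
    (hrat : ∀ d : ℕ, ∃ G : MvPolynomial (Fin (n + 1)) k0, aeval (x 0) G ≠ 0 ∧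
      ∀ q : Fin (n + 1) → Polynomial ℂ, (∀ j, (q j).natDegree ≤ d) →
        (∀ F ∈ S, aeval q (map (algebraMap k0 ℂ) F) = 0) →
        (∃ a b i j, (q i).eval a * (q j).eval b ≠ (q j).eval a * (q i).eval b) →
          aeval q (map (algebraMap k0 ℂ) G) = 0) :
    ∃ k, 0 < k ∧ ∀ u v, x k u * x 0 v = x k v * x 0 u := by
  classical
  obtain ⟨F, _, _, _, _, _, hcF⟩ : ∃ (F : Type) (_ : Field F) (_ : Algebra (Polynomial k0) F)
      (_ : IsFractionRing (Polynomial k0) F) (_ : Algebra k0 F)
      (_ : IsScalarTower k0 (Polynomial k0) F), Countable F := by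
    refine ⟨FractionRing (Polynomial k0), inferInstance, inferInstance, inferInstance,
      inferInstance, inferInstance, ?_⟩
    have h0 : Countable (Polynomial k0) := by
      have h1 : Function.Injective fun p : Polynomial k0 =>
          (⟨p.natDegree, fun i : Fin (p.natDegree + 1) => p.coeff i⟩ : Σ d : ℕ, Fin (d + 1) → k0) := by
        intro p q hpq
        simp only [Sigma.mk.injEq] at hpq
        obtain ⟨h1, h2⟩ := hpq
        ext i
        by_cases hi : i ≤ p.natDegree
        · have h3 : ∀ (d d' : ℕ) (hd : d = d') (f : Fin (d + 1) → k0) (g : Fin (d' + 1) → k0),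
              f ≍ g → ∀ (i : ℕ) (h : i < d + 1) (h' : i < d' + 1), f ⟨i, h⟩ = g ⟨i, h'⟩ := by
            intro d d' hd f g hfg i h h'
            subst hd
            rw [eq_of_heq hfg]
          exact h3 _ _ h1 _ _ h2 i (by omega) (by omega)
        · rw [Polynomial.coeff_eq_zero_of_natDegree_lt (by omega),
            Polynomial.coeff_eq_zero_of_natDegree_lt (by omega)]
      exact h1.countable
    have h1 : Function.Surjective fun w : (Polynomial k0) × (nonZeroDivisors (Polynomial k0)) =>
        IsLocalization.mk' (FractionRing (Polynomial k0)) w.1 w.2 := by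
      intro z
      obtain ⟨a, s, h⟩ := IsLocalization.exists_mk'_eq (nonZeroDivisors (Polynomial k0)) z
      exact ⟨(a, s), h⟩
    exact h1.countable
  obtain ⟨σF, ε, hσF, hε, hεσ⟩ := frac_data (F := F) hρ hτ htr
  have hAinj : ∀ g : Polynomial k0, g ≠ 0 → algebraMap (Polynomial k0) F g ≠ 0 := fun g hg h0 =>
    hg ((map_eq_zero_iff _ (IsFractionRing.injective (Polynomial k0) F)).1 h0)
  -- the coefficients
  let q : Fin (n + 1) → Fin (R + 1) → F := fun u i =>
    algebraMap _ F (Q u i) / algebraMap _ F (Q u (R + 1))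
  have hq0 : ∀ u, q u 0 ≠ 0 := fun u => div_ne_zero (hAinj _ (hQ0 u)) (hAinj _ (hQR u))
  let αf : Fin (n + 1) × Fin (R + 1) → MvPolynomial (Fin (n + 1) × Fin (R + 1)) F := fun w =>
    Fin.lastCases (motive := fun _ => MvPolynomial (Fin (n + 1) × Fin (R + 1)) F)
      (-(C (q w.1 0) * X (w.1, 0) + ∑ i : Fin R, C (q w.1 i.succ) * X (w.1, i.succ)))
      (fun i => X (w.1, i.succ)) w.2
  let βf : Fin (n + 1) × Fin (R + 1) → MvPolynomial (Fin (n + 1) × Fin (R + 1)) F := fun w =>
    Fin.cases (motive := fun _ => MvPolynomial (Fin (n + 1) × Fin (R + 1)) F)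
      (-(C (q w.1 0)⁻¹ * (X (w.1, Fin.last R) +
        ∑ i : Fin R, C (q w.1 i.succ) * X (w.1, i.castSucc))))
      (fun i => X (w.1, i.castSucc)) w.2
  let α : MvPolynomial (Fin (n + 1) × Fin (R + 1)) F →ₐ[F]
    MvPolynomial (Fin (n + 1) × Fin (R + 1)) F := aeval αf
  let β : MvPolynomial (Fin (n + 1) × Fin (R + 1)) F →ₐ[F]
    MvPolynomial (Fin (n + 1) × Fin (R + 1)) F := aeval βf
  have hα1 : ∀ u (i : Fin R), α (X (u, i.castSucc)) = X (u, i.succ) := by
    intro u i
    simp only [α, aeval_X, αf, Fin.lastCases_castSucc]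
  have hα2 : ∀ u, α (X (u, Fin.last R)) =
      -(C (q u 0) * X (u, 0) + ∑ i : Fin R, C (q u i.succ) * X (u, i.succ)) := by
    intro u
    simp only [α, aeval_X, αf, Fin.lastCases_last]
  have hβ1 : ∀ u (i : Fin R), β (X (u, i.succ)) = X (u, i.castSucc) := by
    intro u i
    simp only [β, aeval_X, βf, Fin.cases_succ]
  have hβ2 : ∀ u, β (X (u, 0)) = -(C (q u 0)⁻¹ * (X (u, Fin.last R) +
        ∑ i : Fin R, C (q u i.succ) * X (u, i.castSucc))) := by
    intro u
    simp only [β, aeval_X, βf, Fin.cases_zero]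
  have hβα : ∀ f, β (α f) = f := by
    intro f
    have h1 : β.comp α = AlgHom.id F _ := by
      refine MvPolynomial.algHom_ext fun w => ?_
      obtain ⟨u, i⟩ := w
      rw [AlgHom.comp_apply, AlgHom.id_apply]
      refine Fin.lastCases ?_ (fun i => ?_) i
      · rw [hα2, map_neg, map_add, map_mul, map_sum, hβ2]
        have h2 : β (C (q u 0)) = C (q u 0) := β.commutes _
        have h3 : ∑ i : Fin R, β (C (q u i.succ) * X (u, i.succ)) =
            ∑ i : Fin R, C (q u i.succ) * X (u, i.castSucc) := by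
          refine Finset.sum_congr rfl fun i _ => ?_
          rw [map_mul, hβ1]
          congr 1
          exact β.commutes _
        rw [h2, h3]
        have h4 : (C (q u 0) : MvPolynomial (Fin (n + 1) × Fin (R + 1)) F) * C (q u 0)⁻¹ = 1 := by
          rw [← C_mul, mul_inv_cancel₀ (hq0 u), C_1]
        linear_combination (X (u, Fin.last R) +
          ∑ i : Fin R, C (q u i.succ) * X (u, i.castSucc)) * h4
      · rw [hα1, hβ1]
    exact AlgHom.congr_fun h1 f
  have hαh : ∀ w, (α (X w)).IsHomogeneous 1 := by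
    rintro ⟨u, i⟩
    refine Fin.lastCases ?_ (fun i => ?_) i
    · rw [hα2]
      refine IsHomogeneous.neg ?_
      refine IsHomogeneous.add ?_ (IsHomogeneous.sum _ _ _ fun i _ => ?_)
      · have h1 := (isHomogeneous_C (Fin (n + 1) × Fin (R + 1)) (q u 0)).mul
          (isHomogeneous_X F (u, (0 : Fin (R + 1))))
        rwa [zero_add] at h1
      · have h1 := (isHomogeneous_C (Fin (n + 1) × Fin (R + 1)) (q u i.succ)).mul
          (isHomogeneous_X F (u, i.succ))
        rwa [zero_add] at h1
    · rw [hα1]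
      exact isHomogeneous_X _ _
  -- the endomorphism and the evaluations
  let sg : MvPolynomial (Fin (n + 1) × Fin (R + 1)) F →ₐ[k0]
      MvPolynomial (Fin (n + 1) × Fin (R + 1)) F :=
    { (α : MvPolynomial (Fin (n + 1) × Fin (R + 1)) F →+* _).comp
        (MvPolynomial.map (σF : F →+* F)) with
      commutes' := fun c => by
        change α (MvPolynomial.map (σF : F →+* F) (C (algebraMap k0 F c))) = C (algebraMap k0 F c)
        rw [map_C]
        change α (C (σF (algebraMap k0 F c))) = _
        rw [σF.commutes]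
        exact α.commutes _ }
  let ev : ℕ → MvPolynomial (Fin (n + 1) × Fin (R + 1)) F →ₐ[k0] ℂ := fun j =>
    { eval₂Hom (ε j : F →+* ℂ) (fun w : Fin (n + 1) × Fin (R + 1) => x (j + w.2) w.1) with
      commutes' := fun c => by
        change eval₂Hom (ε j : F →+* ℂ) _ (C (algebraMap k0 F c)) = algebraMap k0 ℂ c
        rw [eval₂Hom_C]
        exact (ε j).commutes c }
  have hevC : ∀ j c, ev j (C c) = ε j c := fun j c => eval₂Hom_C _ _ _
  have hevX : ∀ j u (i : Fin (R + 1)), ev j (X (u, i)) = x (j + i) u := fun j u i =>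
    eval₂Hom_X' _ _ _
  have hsgC : ∀ c, sg (C c) = C (σF c) := by
    intro c
    change α (MvPolynomial.map (σF : F →+* F) (C c)) = _
    rw [map_C]
    exact α.commutes _
  have hsgX : ∀ w, sg (X w) = α (X w) := by
    intro w
    change α (MvPolynomial.map (σF : F →+* F) (X w)) = _
    rw [map_X]
  have hlast : ∀ u j, x (j + (R + 1)) u = -∑ i : Fin (R + 1), ε j (q u i) * x (j + i) u := by
    intro u j
    have h1 := hrec u j
    rw [Finset.sum_range_succ, Finset.sum_range] at h1
    have h2 : Polynomial.aeval (τ j) (Q u (R + 1)) ≠ 0 := fun h0 =>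
      tr_orbit hρ hτ htr j ⟨_, hQR u, h0⟩
    have h3 : ∑ i : Fin (R + 1), ε j (q u i) * x (j + i) u =
        (∑ i : Fin (R + 1), Polynomial.aeval (τ j) (Q u i) * x (j + i) u) /
          Polynomial.aeval (τ j) (Q u (R + 1)) := by
      rw [Finset.sum_div]
      refine Finset.sum_congr rfl fun i _ => ?_
      change ε j (algebraMap _ F (Q u i) / algebraMap _ F (Q u (R + 1))) * _ = _
      rw [map_div₀, hε, hε]
      ring
    rw [h3]
    field_simp
    linear_combination h1
  have hev : ∀ j f, ev (j + 1) f = ev j (sg f) := by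
    intro j f
    have h1 : (ev (j + 1) : MvPolynomial (Fin (n + 1) × Fin (R + 1)) F →+* ℂ) =
        ((ev j).comp sg : MvPolynomial (Fin (n + 1) × Fin (R + 1)) F →+* ℂ) := by
      refine MvPolynomial.ringHom_ext (fun c => ?_) fun w => ?_
      · change ev (j + 1) (C c) = ev j (sg (C c))
        rw [hsgC, hevC, hevC, hεσ]
      · obtain ⟨u, i⟩ := w
        change ev (j + 1) (X (u, i)) = ev j (sg (X (u, i)))
        rw [hsgX, hevX]
        refine Fin.lastCases ?_ (fun i => ?_) i
        · rw [hα2, map_neg, map_add, map_mul, map_sum, hevC, hevX, Fin.val_last]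
          have h2 : j + 1 + R = j + (R + 1) := by omega
          rw [h2, hlast, Fin.sum_univ_succ]
          congr 2
          refine Finset.sum_congr rfl fun i _ => ?_
          rw [map_mul, hevC, hevX]
        · rw [hα1, hevX]
          congr 1
          simp only [Fin.val_castSucc, Fin.val_succ]
          omega
    exact RingHom.congr_fun h1 f
  have hsgp : ∀ f, sg f = α (MvPolynomial.map (σF : F →+* F) f) := fun f => rfl
  have htail : ∀ f, (∀ j, ev (j + 1) f = 0) → ev 0 f = 0 := fun f hf =>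
    tail_rel (σF : F →+* F) hβα hαh
      (fun j => (ev j : MvPolynomial (Fin (n + 1) × Fin (R + 1)) F →+* ℂ))
      (fun j f => hev j f) f hf
  have hcT : Countable (MvPolynomial (Fin (n + 1) × Fin (R + 1)) F) := by
    have h1 : Cardinal.mk (MvPolynomial (Fin (n + 1) × Fin (R + 1)) F) ≤ Cardinal.aleph0 := by
      refine MvPolynomial.cardinalMk_le_max.trans ?_
      refine max_le (max_le ?_ ?_) le_rfl
      · exact Cardinal.mk_le_aleph0
      · exact Cardinal.mk_le_aleph0
    exact Cardinal.mk_le_aleph0_iff.1 h1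
  -- linear dependence
  let tt : MvPolynomial (Fin (n + 1) × Fin (R + 1)) F := C (algebraMap (Polynomial k0) F Polynomial.X)
  have htt : ∀ g : Polynomial k0, Polynomial.aeval tt g = C (algebraMap _ F g) := by
    intro g
    have h1 : (Polynomial.aeval tt : Polynomial k0 →ₐ[k0]
        MvPolynomial (Fin (n + 1) × Fin (R + 1)) F) =
        (IsScalarTower.toAlgHom k0 F (MvPolynomial (Fin (n + 1) × Fin (R + 1)) F)).comp
          (IsScalarTower.toAlgHom k0 (Polynomial k0) F) := by
      refine Polynomial.algHom_ext ?_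
      rw [Polynomial.aeval_X]
      rfl
    rw [h1]
    rfl
  have hdep : ∀ b : ℕ, ∀ u : Fin (n + 1), ∃ Q' : ℕ → Polynomial k0, (∃ k ≤ R + 1, Q' k ≠ 0) ∧
      ∑ k ∈ Finset.range (R + 1 + 1), Polynomial.aeval tt (Q' k) *
        (sg ^ (b * k)) (X (u, (0 : Fin (R + 1))) :
          MvPolynomial (Fin (n + 1) × Fin (R + 1)) F) = 0 := by
    intro b u
    let U : Submodule F (MvPolynomial (Fin (n + 1) × Fin (R + 1)) F) :=
      Submodule.span F (Set.range fun i : Fin (R + 1) =>
        (X (u, i) : MvPolynomial (Fin (n + 1) × Fin (R + 1)) F))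
    have hU1 : ∀ g ∈ U, sg g ∈ U := by
      intro g hg
      refine Submodule.span_induction (p := fun g _ => sg g ∈ U) ?_ ?_ ?_ ?_ hg
      · rintro _ ⟨i, rfl⟩
        change sg (X (u, i)) ∈ U
        rw [hsgX]
        refine Fin.lastCases ?_ (fun i => ?_) i
        · rw [hα2]
          refine U.neg_mem (U.add_mem ?_ (U.sum_mem fun i _ => ?_))
          · rw [← smul_eq_C_mul]
            exact U.smul_mem _ (Submodule.subset_span ⟨_, rfl⟩)
          · rw [← smul_eq_C_mul]
            exact U.smul_mem _ (Submodule.subset_span ⟨_, rfl⟩)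
        · rw [hα1]
          exact Submodule.subset_span ⟨_, rfl⟩
      · rw [map_zero]
        exact U.zero_mem
      · intro a c _ _ ha hc
        rw [map_add]
        exact U.add_mem ha hc
      · intro c a _ ha
        rw [smul_eq_C_mul, map_mul, hsgC, ← smul_eq_C_mul]
        exact U.smul_mem _ ha
    have hU2 : ∀ m : ℕ, (sg ^ m) (X (u, (0 : Fin (R + 1)))) ∈ U := by
      intro m
      induction m with
      | zero => exact Submodule.subset_span ⟨_, rfl⟩
      | succ m ih =>
        rw [pow_succ', AlgHom.mul_apply]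
        exact hU1 _ ih
    have hUf : Module.Finite F U := Module.Finite.span_of_finite F (Set.finite_range _)
    have hUr : Module.finrank F U ≤ R + 1 := by
      have h1 := finrank_range_le_card (R := F)
        (fun i : Fin (R + 1) => (X (u, i) : MvPolynomial (Fin (n + 1) × Fin (R + 1)) F))
      rwa [Fintype.card_fin] at h1
    have hnl : ¬ LinearIndependent F fun k : Fin (R + 2) =>
        (⟨(sg ^ (b * (k : ℕ))) (X (u, (0 : Fin (R + 1)))), hU2 _⟩ : U) := by
      intro h1
      have h2 := h1.fintype_card_le_finrank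
      rw [Fintype.card_fin] at h2
      omega
    obtain ⟨g, hg1, i0, hg2⟩ := Fintype.not_linearIndependent_iff.1 hnl
    obtain ⟨d, hd⟩ := IsLocalization.exist_integer_multiples_of_finite
      (nonZeroDivisors (Polynomial k0)) g
    choose Q1 hQ1 using hd
    have hd0 : algebraMap (Polynomial k0) F (d : Polynomial k0) ≠ 0 :=
      hAinj _ (nonZeroDivisors.ne_zero d.2)
    refine ⟨fun k => if h : k < R + 2 then Q1 ⟨k, h⟩ else 0, ⟨i0, by omega, ?_⟩, ?_⟩
    · simp only [dif_pos i0.2]
      intro h0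
      have h1 := hQ1 i0
      rw [show (⟨(i0 : ℕ), i0.2⟩ : Fin (R + 2)) = i0 from rfl] at h0
      rw [h0, map_zero, Algebra.smul_def] at h1
      exact (mul_ne_zero hd0 hg2) h1.symm
    · rw [Finset.sum_range]
      have h1 := congrArg (Subtype.val) hg1
      rw [Submodule.coe_sum, ZeroMemClass.coe_zero] at h1
      have h2 : ∑ i : Fin (R + 2), Polynomial.aeval tt
          (if h : (i : ℕ) < R + 2 then Q1 ⟨i, h⟩ else 0) *
            (sg ^ (b * (i : ℕ))) (X (u, (0 : Fin (R + 1)))) =
          C (algebraMap (Polynomial k0) F (d : Polynomial k0)) * ∑ i : Fin (R + 2),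
            ((g i • (⟨(sg ^ (b * (i : ℕ))) (X (u, (0 : Fin (R + 1)))), hU2 _⟩ : U) : U) :
              MvPolynomial (Fin (n + 1) × Fin (R + 1)) F) := by
        rw [Finset.mul_sum]
        refine Finset.sum_congr rfl fun i _ => ?_
        rw [dif_pos i.2, htt, Submodule.coe_smul, smul_eq_C_mul, ← mul_assoc, ← C_mul]
        congr 2
        rw [show (⟨(i : ℕ), i.2⟩ : Fin (R + 2)) = i from rfl, hQ1, Algebra.smul_def]
      rw [h2, h1, mul_zero]
  obtain ⟨k, hk, h⟩ := core2 sg ev hev htail tt (fun u => X (u, (0 : Fin (R + 1)))) ρ (by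
      rw [htt]
      change sg (C _) = _
      rw [hsgC, hσF, Polynomial.X_comp]) (by
      intro i j hij
      apply hinj
      change ev i (C _) = ev j (C _) at hij
      rw [hevC, hevC, hε, hε, Polynomial.aeval_X, Polynomial.aeval_X] at hij
      exact hij) (R + 1) hdep S hS (fun F' hF' j => by
      rw [MvPolynomial.comp_aeval_apply]
      have h1 : (fun u => ev j (X (u, (0 : Fin (R + 1))))) = x j := by
        funext u
        rw [hevX]
        rfl
      rw [h1]
      exact hX F' hF' j) (by
      obtain ⟨u, hu⟩ := Function.ne_iff.1 hx0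
      refine ⟨u, ?_⟩
      rw [hevX]
      exact hu) (fun d => by
      obtain ⟨G, hG, hrG⟩ := hrat d
      refine ⟨G, ?_, hrG⟩
      rw [MvPolynomial.comp_aeval_apply]
      have h1 : (fun u => ev 0 (X (u, (0 : Fin (R + 1))))) = x 0 := by
        funext u
        rw [hevX]
        rfl
      rw [h1]
      exact hG)
  refine ⟨k, hk, fun u v => ?_⟩
  have h1 := h u v
  rw [hevX, hevX, hevX, hevX] at h1
  exact h1

end Pool.Agent.Q309.OFF
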