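import Mathlib

/-!
Elements of a difference field which satisfy linear difference equations with polynomial coefficients
form a ring.
-/

set_option autoImplicit false

namespace Pool.Agent.Q309.OFF

open Polynomial (aeval)

section

variable {K E : Type} [Field K] [Field E] [Algebra K E]

/-- The element `f` satisfies a nontrivial linear difference equation
`P_0 (t) f + P_1 (t) σ f + … + P_r (t) σ^r f = 0`, the `P_i` are polynomials over `K`. -/
def DRec (σ : E →ₐ[K] E) (t f : E) : Prop :=
  ∃ (r : ℕ) (P : ℕ → Polynomial K), (∃ i ≤ r, P i ≠ 0) ∧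
    ∑ i ∈ Finset.range (r + 1), aeval t (P i) * σ^[i] f = 0

/-- rational functions in `t` -/
noncomputable def chi {t : E} (ht : Transcendental K t) : FractionRing (Polynomial K) →+* E :=
  IsFractionRing.lift (A := Polynomial K) (g := (aeval t : Polynomial K →ₐ[K] E).toRingHom)
    (transcendental_iff_injective.1 ht)

theorem chi_algebraMap {t : E} (ht : Transcendental K t) (P : Polynomial K) :
    chi ht (algebraMap (Polynomial K) (FractionRing (Polynomial K)) P) = aeval t P :=
  IsFractionRing.lift_algebraMap _ P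

theorem sig_aeval {σ : E →ₐ[K] E} {t : E} {ρ : Polynomial K} (hρ : σ t = aeval t ρ) (l : ℕ)
    (P : Polynomial K) : σ^[l] (aeval t P) = aeval t (P.comp (ρ.comp^[l] Polynomial.X)) := by
  induction l with
  | zero => simp
  | succ l ih =>
    have h1 : ∀ Q : Polynomial K, σ (aeval t Q) = aeval t (Q.comp ρ) := by
      intro Q
      rw [← Polynomial.aeval_algHom_apply, hρ, Polynomial.aeval_comp]
    rw [Function.iterate_succ_apply', ih, h1, Polynomial.comp_assoc]
    congr 2
    have h2 : ∀ l : ℕ, (ρ.comp^[l] Polynomial.X).comp ρ = ρ.comp^[l + 1] Polynomial.X := by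
      intro l
      induction l with
      | zero => simp
      | succ l ih2 =>
        rw [Function.iterate_succ_apply', Polynomial.comp_assoc, ih2,
          Function.iterate_succ_apply' ρ.comp (l + 1)]
    exact h2 l

/-- all shifts lie in a finite-dimensional space -/
def DFd (σ : E →ₐ[K] E) {t : E} (ht : Transcendental K t) (a : E) : Prop :=
  letI : Algebra (FractionRing (Polynomial K)) E := (chi ht).toAlgebra
  ∃ M : Submodule (FractionRing (Polynomial K)) E, M.FG ∧ ∀ i, σ^[i] a ∈ M

theorem DFd.const (σ : E →ₐ[K] E) {t : E} (ht : Transcendental K t) (c : K) :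
    DFd σ ht (algebraMap K E c) := by
  let _ : Algebra (FractionRing (Polynomial K)) E := (chi ht).toAlgebra
  refine ⟨Submodule.span _ {algebraMap K E c}, Submodule.fg_span_singleton _, fun i => ?_⟩
  have h1 : σ^[i] (algebraMap K E c) = algebraMap K E c := by
    induction i with
    | zero => rfl
    | succ i ih => rw [Function.iterate_succ_apply', ih, AlgHom.commutes]
  rw [h1]
  exact Submodule.mem_span_singleton_self _

theorem DFd.add {σ : E →ₐ[K] E} {t : E} {ht : Transcendental K t} {a b : E} (ha : DFd σ ht a)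
    (hb : DFd σ ht b) : DFd σ ht (a + b) := by
  let _ : Algebra (FractionRing (Polynomial K)) E := (chi ht).toAlgebra
  obtain ⟨M, hM, h1⟩ := ha
  obtain ⟨M', hM', h2⟩ := hb
  refine ⟨M ⊔ M', hM.sup hM', fun i => ?_⟩
  rw [iterate_map_add]
  exact Submodule.add_mem_sup (h1 i) (h2 i)

theorem DFd.mul {σ : E →ₐ[K] E} {t : E} {ht : Transcendental K t} {a b : E} (ha : DFd σ ht a)
    (hb : DFd σ ht b) : DFd σ ht (a * b) := by
  let _ : Algebra (FractionRing (Polynomial K)) E := (chi ht).toAlgebra
  obtain ⟨M, hM, h1⟩ := ha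
  obtain ⟨M', hM', h2⟩ := hb
  refine ⟨M * M', hM.mul hM', fun i => ?_⟩
  rw [iterate_map_mul]
  exact Submodule.mul_mem_mul (h1 i) (h2 i)

theorem DFd.of_rec {σ : E →ₐ[K] E} {t : E} (ht : Transcendental K t) {ρ : Polynomial K}
    (hρ : σ t = aeval t ρ) {a : E} (h : DRec σ t a) : DFd σ ht a := by
  classical
  let _ : Algebra (FractionRing (Polynomial K)) E := (chi ht).toAlgebra
  obtain ⟨r, P, ⟨i0, hi0, hPi0⟩, hrec⟩ := h
  obtain ⟨s, hs, hPs, htop⟩ : ∃ s ≤ r, P s ≠ 0 ∧ ∀ i, s < i → i ≤ r → P i = 0 := by
    let J : Finset ℕ := (Finset.range (r + 1)).filter fun i => P i ≠ 0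
    have hJ : ∀ i, i ∈ J ↔ i < r + 1 ∧ P i ≠ 0 := fun i => by
      rw [Finset.mem_filter, Finset.mem_range]
    have hne : J.Nonempty := ⟨i0, (hJ i0).2 ⟨by omega, hPi0⟩⟩
    have h1 := (hJ _).1 (J.max'_mem hne)
    refine ⟨J.max' hne, by omega, h1.2, fun i hi hir => ?_⟩
    by_contra hcon
    have := J.le_max' i ((hJ i).2 ⟨by omega, hcon⟩)
    omega
  have hsum : ∑ i ∈ Finset.range (s + 1), aeval t (P i) * σ^[i] a = 0 := by
    rw [← hrec]
    refine Finset.sum_subset (Finset.range_mono (by omega)) fun i hi hi' => ?_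
    rw [htop i (by simpa using hi') (by have := Finset.mem_range.1 hi; omega), map_zero, zero_mul]
  refine ⟨Submodule.span _ ((Finset.range s).image (fun i => σ^[i] a) : Finset E),
    ⟨(Finset.range s).image (fun i => σ^[i] a), rfl⟩, fun j => ?_⟩
  induction j using Nat.strong_induction_on with
  | _ j ih =>
    by_cases hj : j < s
    · exact Submodule.subset_span (Finset.mem_coe.2 (Finset.mem_image_of_mem
        (fun i => σ^[i] a) (Finset.mem_range.2 hj)))
    · obtain ⟨l, rfl⟩ := Nat.exists_eq_add_of_le (not_lt.1 hj)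
      let Q : ℕ → Polynomial K := fun i => (P i).comp (ρ.comp^[l] Polynomial.X)
      have hQ : ∀ i, σ^[l] (aeval t (P i)) = aeval t (Q i) := fun i => sig_aeval hρ l (P i)
      have hinj : Function.Injective (σ^[l] : E → E) := σ.toRingHom.injective.iterate l
      have hQs : aeval t (Q s) ≠ 0 := by
        rw [← hQ]
        intro h0
        have h1 : aeval t (P s) = 0 := by
          apply hinj
          rw [h0, iterate_map_zero]
        exact hPs (transcendental_iff.1 ht _ h1)
      have heq : aeval t (Q s) * σ^[s + l] a =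
          -∑ i ∈ Finset.range s, aeval t (Q i) * σ^[i + l] a := by
        rw [eq_neg_iff_add_eq_zero]
        have h1 : aeval t (Q s) * σ^[s + l] a + ∑ i ∈ Finset.range s, aeval t (Q i) * σ^[i + l] a =
            ∑ i ∈ Finset.range (s + 1), aeval t (Q i) * σ^[i + l] a := by
          rw [Finset.sum_range_succ, add_comm]
        rw [h1]
        have h2 := congrArg (σ^[l] : E → E) hsum
        rw [iterate_map_zero] at h2
        have h3 : ∀ (T : Finset ℕ) (f : ℕ → E), σ^[l] (∑ i ∈ T, f i) = ∑ i ∈ T, σ^[l] (f i) := by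
          intro T f
          induction T using Finset.induction_on with
          | empty => rw [Finset.sum_empty, Finset.sum_empty, iterate_map_zero]
          | insert i T hi ih2 => rw [Finset.sum_insert hi, Finset.sum_insert hi, iterate_map_add, ih2]
        rw [h3] at h2
        rw [← h2]
        refine Finset.sum_congr rfl fun i _ => ?_
        rw [iterate_map_mul, hQ, ← Function.iterate_add_apply, add_comm l i]
      have hsm : ∀ (i : ℕ) (y : E), aeval t (Q i) * y =
          (algebraMap (Polynomial K) (FractionRing (Polynomial K)) (Q i)) • y := by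
        intro i y
        rw [Algebra.smul_def]
        change _ = chi ht _ * _
        rw [chi_algebraMap]
      have h6 : (algebraMap (Polynomial K) (FractionRing (Polynomial K)) (Q s)) ≠ 0 := by
        intro h0
        apply hQs
        rw [← chi_algebraMap ht, h0, map_zero]
      have h5 : σ^[s + l] a = (algebraMap (Polynomial K) (FractionRing (Polynomial K)) (Q s))⁻¹ •
          (-∑ i ∈ Finset.range s, aeval t (Q i) * σ^[i + l] a) := by
        rw [← heq, hsm, inv_smul_smul₀ h6]
      rw [h5]
      refine Submodule.smul_mem _ _ (Submodule.neg_mem _ (Submodule.sum_mem _ fun i hi => ?_))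
      rw [hsm]
      exact Submodule.smul_mem _ _ (ih (i + l) (by have := Finset.mem_range.1 hi; omega))

theorem DFd.rec {σ : E →ₐ[K] E} {t : E} {ht : Transcendental K t} {a : E} (h : DFd σ ht a) :
    DRec σ t a := by
  classical
  let _ : Algebra (FractionRing (Polynomial K)) E := (chi ht).toAlgebra
  let _ : Algebra (Polynomial K) E := (aeval t : Polynomial K →ₐ[K] E).toRingHom.toAlgebra
  have _ : IsScalarTower (Polynomial K) (FractionRing (Polynomial K)) E :=
    IsScalarTower.of_algebraMap_eq fun P => (chi_algebraMap ht P).symm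
  obtain ⟨M, hM, h1⟩ := h
  have hfin : Module.Finite (FractionRing (Polynomial K)) M := Module.Finite.iff_fg.2 hM
  set d := Module.finrank (FractionRing (Polynomial K)) M with hd
  have h2 : ¬ LinearIndependent (Polynomial K) fun i : Fin (d + 1) => (σ^[(i : ℕ)] a : E) := by
    intro hli
    have h3 : LinearIndependent (FractionRing (Polynomial K))
        fun i : Fin (d + 1) => (σ^[(i : ℕ)] a : E) :=
      (LinearIndependent.iff_fractionRing (Polynomial K) (FractionRing (Polynomial K))).1 hli
    have h4 : LinearIndependent (FractionRing (Polynomial K))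
        fun i : Fin (d + 1) => (⟨σ^[(i : ℕ)] a, h1 i⟩ : M) := by
      refine LinearIndependent.of_comp M.subtype ?_
      exact h3
    have h5 := h4.fintype_card_le_finrank
    rw [Fintype.card_fin, ← hd] at h5
    omega
  rw [Fintype.not_linearIndependent_iff] at h2
  obtain ⟨g, hg, ⟨i0, hi0⟩⟩ := h2
  refine ⟨d, fun i => if hi : i < d + 1 then g ⟨i, hi⟩ else 0, ⟨i0, by omega, ?_⟩, ?_⟩
  · have h6 : (if hi : (i0 : ℕ) < d + 1 then g ⟨i0, hi⟩ else 0) = g i0 := dif_pos i0.2
    beta_reduce
    rwa [h6]
  · rw [Finset.sum_range]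
    refine Eq.trans (Finset.sum_congr rfl fun i _ => ?_) hg
    have h6 : (if hi : (i : ℕ) < d + 1 then g ⟨i, hi⟩ else 0) = g i := dif_pos i.2
    beta_reduce
    rw [h6, Algebra.smul_def]
    rfl

/-- **Polynomials in elements with difference equations.** -/
theorem drec_form {σ : E →ₐ[K] E} {t : E} (ht : Transcendental K t) {ρ : Polynomial K}
    (hρ : σ t = aeval t ρ) {n : ℕ} {h : Fin (n + 1) → E} (hh : ∀ j, DRec σ t (h j))
    (G : MvPolynomial (Fin (n + 1)) K) : DRec σ t (MvPolynomial.aeval h G) := by
  apply DFd.rec (ht := ht)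
  induction G using MvPolynomial.induction_on with
  | C a =>
    rw [MvPolynomial.aeval_C]
    exact DFd.const σ ht a
  | add p q hp hq =>
    rw [map_add]
    exact hp.add hq
  | mul_X p j hp =>
    rw [map_mul, MvPolynomial.aeval_X]
    exact hp.mul (DFd.of_rec ht hρ (hh j))

end

end Pool.Agent.Q309.OFF
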