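import Pool.Agent.Q309.KS.Main

/-!
Piecewise syndetic sets, and the returns of a dense orbit to a closed subset.
-/

set_option autoImplicit false

namespace Pool.Agent.Q309.OFF

open MvPolynomial
open Pool.Agent.TH8.OR (eval_scale eval_aeval_F)
open Pool.Agent.Results.MP_0e7dfd_ag.RecursiveOrbits (DenseOrbit)
open Pool.Agent.Q309.KS (tail_dense)

/-- piecewise syndetic sets -/
def PS (A : Set ℕ) : Prop := ∃ K : ℕ, ∀ M : ℕ, ∃ a : ℕ, ∀ c, a ≤ c → c ≤ a + M → ∃ i ≤ K, c + i ∈ A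

theorem PS.mono {A B : Set ℕ} (h : PS A) (hAB : A ⊆ B) : PS B := by
  obtain ⟨K, hK⟩ := h
  refine ⟨K, fun M => ?_⟩
  obtain ⟨a, ha⟩ := hK M
  refine ⟨a, fun c h1 h2 => ?_⟩
  obtain ⟨i, hi, h3⟩ := ha c h1 h2
  exact ⟨i, hi, hAB h3⟩

theorem PS.nonempty {A : Set ℕ} (h : PS A) : A.Nonempty := by
  obtain ⟨K, hK⟩ := h
  obtain ⟨a, ha⟩ := hK 0
  obtain ⟨i, -, h1⟩ := ha a le_rfl (by omega)
  exact ⟨_, h1⟩

theorem ps_union {A B : Set ℕ} (h : PS (A ∪ B)) : PS A ∨ PS B := by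
  by_cases hA : PS A
  · exact Or.inl hA
  · right
    obtain ⟨K, hK⟩ := h
    unfold PS at hA
    push Not at hA
    refine ⟨K, fun M => ?_⟩
    obtain ⟨M', hM'⟩ := hA (M + K)
    obtain ⟨a, ha⟩ := hK (M' + M)
    obtain ⟨c, h1, h2, h3⟩ := hM' a
    refine ⟨c, fun e h4 h5 => ?_⟩
    obtain ⟨i, hi, h6⟩ := ha e (by omega) (by omega)
    refine ⟨i, hi, h6.resolve_left fun h7 => h3 (e - c + i) (by omega) ?_⟩
    rwa [show c + (e - c + i) = e + i by omega]

theorem ps_biUnion {ι : Type} (s : Finset ι) (A : ι → Set ℕ) (h : PS (⋃ i ∈ s, A i)) :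
    ∃ i ∈ s, PS (A i) := by
  classical
  induction s using Finset.induction_on with
  | empty =>
    obtain ⟨a, ha⟩ := h.nonempty
    simp at ha
  | insert j s hj ih =>
    rw [Finset.set_biUnion_insert] at h
    rcases ps_union h with h1 | h1
    · exact ⟨j, Finset.mem_insert_self _ _, h1⟩
    · obtain ⟨i, hi, h2⟩ := ih h1
      exact ⟨i, Finset.mem_insert_of_mem hi, h2⟩

theorem ps_shift {A : Set ℕ} {g : ℕ} (h : PS {a | a + g ∈ A}) : PS A := by
  obtain ⟨K, hK⟩ := h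
  refine ⟨K + g, fun M => ?_⟩
  obtain ⟨a, ha⟩ := hK M
  refine ⟨a, fun c h1 h2 => ?_⟩
  obtain ⟨i, hi, h3⟩ := ha c h1 h2
  refine ⟨i + g, by omega, ?_⟩
  have h4 : c + i + g ∈ A := h3
  rwa [← add_assoc]

theorem ps_return {A : Set ℕ} (h : PS A) : ∃ g, 1 ≤ g ∧ PS {a | a ∈ A ∧ a + g ∈ A} := by
  obtain ⟨K, hK⟩ := h
  have h1 : PS (⋃ g ∈ Finset.range (K + 1), {a | a ∈ A ∧ a + (g + 1) ∈ A}) := by
    refine ⟨K, fun M => ?_⟩
    obtain ⟨a, ha⟩ := hK (M + K + 1)
    refine ⟨a, fun c h2 h3 => ?_⟩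
    obtain ⟨i, hi, h4⟩ := ha c h2 (by omega)
    obtain ⟨i', hi', h5⟩ := ha (c + i + 1) (by omega) (by omega)
    refine ⟨i, hi, Set.mem_biUnion (x := i') (Finset.mem_coe.2 (Finset.mem_range.2 (by omega)))
      ⟨h4, ?_⟩⟩
    rwa [show c + i + (i' + 1) = c + i + 1 + i' by omega]
  obtain ⟨g, -, h2⟩ := ps_biUnion _ _ h1
  exact ⟨g + 1, by omega, h2⟩

theorem ps_univ : PS Set.univ := ⟨0, fun _ => ⟨0, fun _ _ _ => ⟨0, le_rfl, trivial⟩⟩⟩

theorem ps_window {A : Set ℕ} (h : ¬ PS A) (B : ℕ) : PS {a | ∀ i ≤ B, a + i ∉ A} := by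
  by_contra hcon
  have h1 : PS ({a | ∀ i ≤ B, a + i ∉ A} ∪ ⋃ i ∈ Finset.range (B + 1), {a | a + i ∈ A}) :=
    ps_univ.mono fun a _ => by
      by_cases h2 : ∀ i ≤ B, a + i ∉ A
      · exact Or.inl h2
      · push Not at h2
        obtain ⟨i, hi, h3⟩ := h2
        exact Or.inr (Set.mem_biUnion (x := i) (Finset.mem_coe.2 (Finset.mem_range.2 (by omega))) h3)
  rcases ps_union h1 with h2 | h2
  · exact hcon h2
  · obtain ⟨i, -, h3⟩ := ps_biUnion _ _ h2
    exact h (ps_shift h3)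

section orbit

variable {n : ℕ} {L : Type} [Field L] {p : Ideal (MvPolynomial (Fin (n + 1)) L)}
  {F : Fin (n + 1) → MvPolynomial (Fin (n + 1)) L} {x : ℕ → Fin (n + 1) → L}

theorem step_pow (h : DenseOrbit p F x) (a : ℕ) : ∃ c : L,
    ((∃ j, eval (x a) (F j) ≠ 0) → c ≠ 0) ∧ ∀ (e : ℕ) (H : MvPolynomial (Fin (n + 1)) L),
      H.IsHomogeneous e → eval (x a) (aeval F H) = c ^ e * eval (x (a + 1)) H := by
  obtain ⟨j, hj⟩ := Function.ne_iff.1 (h.ne_zero (a + 1))
  rw [Pi.zero_apply] at hj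
  have h1 : (fun i => eval (x a) (F i)) =
      fun i => (eval (x a) (F j) / x (a + 1) j) * x (a + 1) i := by
    funext i
    rw [div_mul_eq_mul_div, eq_div_iff hj]
    exact h.orbit a i j
  refine ⟨eval (x a) (F j) / x (a + 1) j, fun ⟨i, hi⟩ h0 => hi ?_, fun e H hH => ?_⟩
  · have h2 := congrFun h1 i
    simp only [h0, zero_mul] at h2
    exact h2
  · rw [eval_aeval_F, h1, eval_scale hH]

/-- the scalars -/
theorem iter_pow (h : DenseOrbit p F x) {d : ℕ} (hF : ∀ j, (F j).IsHomogeneous d) (m : ℕ) :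
    ∀ (a e : ℕ), ∃ c : L, ((∀ b, ∃ j, eval (x b) (F j) ≠ 0) → c ≠ 0) ∧
      ∀ H : MvPolynomial (Fin (n + 1)) L, H.IsHomogeneous e →
        eval (x a) ((aeval F)^[m] H) = c * eval (x (a + m)) H := by
  induction m with
  | zero => exact fun a e => ⟨1, fun _ => one_ne_zero, fun H _ => by simp⟩
  | succ m ih =>
    intro a e
    obtain ⟨c, hc, h1⟩ := ih a (d * e)
    obtain ⟨c', hc', h2⟩ := step_pow h (a + m)
    refine ⟨c * c' ^ e, fun hnz => mul_ne_zero (hc hnz) (pow_ne_zero _ (hc' (hnz _))),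
      fun H hH => ?_⟩
    rw [Function.iterate_succ_apply, h1 _ (hH.aeval F hF), h2 e H hH, mul_assoc, add_assoc]

theorem iter_hom' {d : ℕ} (hF : ∀ j, (F j).IsHomogeneous d) (m : ℕ) {e : ℕ}
    {H : MvPolynomial (Fin (n + 1)) L} (hH : H.IsHomogeneous e) :
    ((aeval F)^[m] H).IsHomogeneous (d ^ m * e) := by
  induction m with
  | zero => simpa using hH
  | succ m ih =>
    rw [Function.iterate_succ_apply']
    have h1 := ih.aeval F hF
    rwa [← mul_assoc, ← pow_succ'] at h1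

theorem iter_mem (h : DenseOrbit p F x) {d : ℕ} (hF : ∀ j, (F j).IsHomogeneous d) (m : ℕ) {e : ℕ}
    {H : MvPolynomial (Fin (n + 1)) L} (hH : H.IsHomogeneous e) :
    (aeval F)^[m] H ∈ p ↔ H ∈ p := by
  induction m with
  | zero => rfl
  | succ m ih =>
    rw [Function.iterate_succ_apply', h.dominant _ _ (iter_hom' hF m hH), ih]

/-- no arithmetic progression of returns -/
theorem no_prog (h : DenseOrbit p F x) {a0 g : ℕ} (hg : 1 ≤ g)
    {G : MvPolynomial (Fin (n + 1)) L} {e : ℕ} (hG : G.IsHomogeneous e) (hGp : G ∉ p)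
    (h0 : ∀ k, eval (x (a0 + k * g)) G = 0) : False := by
  classical
  obtain ⟨d, hF⟩ := h.forms
  have hT : ∀ j, j ≤ g → ∃ (e' : ℕ) (G' : MvPolynomial (Fin (n + 1)) L), G'.IsHomogeneous e' ∧
      G' ∉ p ∧ ∀ k, eval (x (a0 + (g - j) + k * g)) G' = 0 := by
    intro j
    induction j with
    | zero =>
      intro _
      refine ⟨e, G, hG, hGp, fun k => ?_⟩
      have h1 := h0 (k + 1)
      rwa [show a0 + (k + 1) * g = a0 + (g - 0) + k * g by
        rw [Nat.sub_zero]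
        ring] at h1
    | succ j ih =>
      intro hj
      obtain ⟨e', G', h1, h2, h3⟩ := ih (by omega)
      refine ⟨d * e', aeval F G', h1.aeval F hF, fun h4 => h2 ((h.dominant e' G' h1).1 h4),
        fun k => ?_⟩
      obtain ⟨c, -, hc⟩ := step_pow h (a0 + (g - (j + 1)) + k * g)
      rw [hc e' G' h1, show a0 + (g - (j + 1)) + k * g + 1 = a0 + (g - j) + k * g by omega, h3,
        mul_zero]
  have hT' : ∀ i : ℕ, ∃ (e' : ℕ) (G' : MvPolynomial (Fin (n + 1)) L), G'.IsHomogeneous e' ∧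
      G' ∉ p ∧ (i < g → ∀ k, eval (x (a0 + i + k * g)) G' = 0) := by
    intro i
    by_cases hi : i < g
    · obtain ⟨e', G', h1, h2, h3⟩ := hT (g - i) (by omega)
      refine ⟨e', G', h1, h2, fun _ k => ?_⟩
      have h4 := h3 k
      rwa [show g - (g - i) = i by omega] at h4
    · exact ⟨e, G, hG, hGp, fun h1 => absurd h1 hi⟩
  choose e' G' h1 h2 h3 using hT'
  have h4 : ∏ i ∈ Finset.range g, G' i ∈ p := by
    refine tail_dense h a0 (∑ i ∈ Finset.range g, e' i) _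
      (IsHomogeneous.prod _ _ _ fun i _ => h1 i) fun m hm => ?_
    rw [map_prod]
    have h5 : (m - a0) % g < g := Nat.mod_lt _ hg
    refine Finset.prod_eq_zero (Finset.mem_range.2 h5) ?_
    have h6 := h3 _ h5 ((m - a0) / g)
    have h7 : a0 + (m - a0) % g + (m - a0) / g * g = m := by
      have h8 := Nat.mod_add_div' (m - a0) g
      omega
    rwa [h7] at h6
  obtain ⟨i, -, h5⟩ := (h.prime.prod_mem_iff).1 h4
  exact h2 i h5

/-- the composition of the maps of a word -/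
noncomputable def W {ι : Type} (F : ι → Fin (n + 1) → MvPolynomial (Fin (n + 1)) L) :
    List ι → MvPolynomial (Fin (n + 1)) L → MvPolynomial (Fin (n + 1)) L
  | [], H => H
  | i :: w, H => aeval (F i) (W F w H)

theorem W_hom {ι : Type} {F : ι → Fin (n + 1) → MvPolynomial (Fin (n + 1)) L}
    (h : ∀ i, DenseOrbit p (F i) x) (w : List ι) (e : ℕ) :
    ∃ e', ∀ H : MvPolynomial (Fin (n + 1)) L, H.IsHomogeneous e → (W F w H).IsHomogeneous e' := by
  induction w with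
  | nil => exact ⟨e, fun H hH => hH⟩
  | cons i w ih =>
    obtain ⟨e', he'⟩ := ih
    obtain ⟨d, hd⟩ := (h i).forms
    exact ⟨d * e', fun H hH => (he' H hH).aeval (F i) hd⟩

theorem W_eval {ι : Type} {F : ι → Fin (n + 1) → MvPolynomial (Fin (n + 1)) L}
    (h : ∀ i, DenseOrbit p (F i) x) (w : List ι) : ∀ a e : ℕ, ∃ c : L,
      ∀ H : MvPolynomial (Fin (n + 1)) L, H.IsHomogeneous e →
        eval (x a) (W F w H) = c * eval (x (a + w.length)) H := by
  induction w with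
  | nil => exact fun a e => ⟨1, fun H _ => by simp [W]⟩
  | cons i w ih =>
    intro a e
    obtain ⟨e', he'⟩ := W_hom h w e
    obtain ⟨c, hc⟩ := ih (a + 1) e
    obtain ⟨c', -, hc'⟩ := step_pow (h i) a
    refine ⟨c' ^ e' * c, fun H hH => ?_⟩
    change eval (x a) (aeval (F i) (W F w H)) = _
    rw [hc' e' _ (he' H hH), hc H hH, mul_assoc, List.length_cons,
      show a + (w.length + 1) = a + 1 + w.length by omega]

theorem W_ex {ι : Type} {F : ι → Fin (n + 1) → MvPolynomial (Fin (n + 1)) L}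
    (h : ∀ i, DenseOrbit p (F i) x) (hnz : ∀ m, ∃ i j, eval (x m) (F i j) ≠ 0) (m : ℕ) :
    ∀ a e : ℕ, ∃ w : List ι, w.length = m ∧ ∃ c : L, c ≠ 0 ∧
      ∀ H : MvPolynomial (Fin (n + 1)) L, H.IsHomogeneous e →
        eval (x a) (W F w H) = c * eval (x (a + m)) H := by
  induction m with
  | zero => exact fun a e => ⟨[], rfl, 1, one_ne_zero, fun H _ => by simp [W]⟩
  | succ m ih =>
    intro a e
    obtain ⟨w, hw, c, hc0, hc⟩ := ih (a + 1) e
    obtain ⟨e', he'⟩ := W_hom h w e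
    obtain ⟨i, j, hij⟩ := hnz a
    obtain ⟨c', hc'0, hc'⟩ := step_pow (h i) a
    refine ⟨i :: w, by rw [List.length_cons, hw], c' ^ e' * c,
      mul_ne_zero (pow_ne_zero _ (hc'0 ⟨j, hij⟩)) hc0, fun H hH => ?_⟩
    change eval (x a) (aeval (F i) (W F w H)) = _
    rw [hc' e' _ (he' H hH), hc H hH, mul_assoc, show a + (m + 1) = a + 1 + m by omega]

/-- **The returns to a proper closed subset are rare.** -/
theorem ret_small {ι : Type} {F : ι → Fin (n + 1) → MvPolynomial (Fin (n + 1)) L}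
    (h : ∀ i, DenseOrbit p (F i) x) (hnz : ∀ m, ∃ i j, eval (x m) (F i j) ≠ 0)
    {G : MvPolynomial (Fin (n + 1)) L} {e : ℕ} (hG : G.IsHomogeneous e) (hGp : G ∉ p) :
    ¬ PS {m | eval (x m) G = 0} := by
  classical
  intro hps
  let JJ : Set (Ideal (MvPolynomial (Fin (n + 1)) L)) := {J |
    J ≤ Ideal.span {H | H ∈ J ∧ ∃ e, H.IsHomogeneous e} ∧ G ∈ J ∧
      PS {m | ∀ H ∈ J, eval (x m) H = 0}}
  have hne : JJ.Nonempty := by
    have hGs : G ∈ Ideal.span {G} := Ideal.subset_span rfl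
    refine ⟨Ideal.span {G}, ?_, hGs, hps.mono fun m hm => ?_⟩
    · rw [Ideal.span_le]
      rintro _ rfl
      exact Ideal.subset_span ⟨hGs, e, hG⟩
    · have h1 : Ideal.span {G} ≤ RingHom.ker (eval (x m)) := by
        rw [Ideal.span_le]
        rintro _ rfl
        exact hm
      exact fun H hH => h1 hH
  obtain ⟨J, ⟨hJ1, hJ2, hJ3⟩, hmax⟩ := wellFounded_gt.has_min JJ hne
  obtain ⟨g, hg, hgps⟩ := ps_return hJ3
  have hadd : ∀ (H : MvPolynomial (Fin (n + 1)) L) (e : ℕ), H ∈ J → H.IsHomogeneous e →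
      ∀ w : List ι, w.length = g → W F w H ∈ J := by
    let T : Set (MvPolynomial (Fin (n + 1)) L) := {H' | ∃ H ∈ J, (∃ e, H.IsHomogeneous e) ∧
      ∃ w : List ι, w.length = g ∧ H' = W F w H}
    have hJJ : J ⊔ Ideal.span T ∈ JJ := by
      refine ⟨sup_le ?_ ?_, (le_sup_left : J ≤ J ⊔ Ideal.span T) hJ2, hgps.mono fun m hm => ?_⟩
      · refine hJ1.trans (Ideal.span_mono ?_)
        rintro H ⟨h1, h2⟩
        exact ⟨(le_sup_left : J ≤ J ⊔ Ideal.span T) h1, h2⟩
      · refine Ideal.span_mono fun H' hH' => ⟨(le_sup_right : Ideal.span T ≤ J ⊔ Ideal.span T)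
          (Ideal.subset_span hH'), ?_⟩
        obtain ⟨H, -, ⟨e, he⟩, w, -, rfl⟩ := hH'
        obtain ⟨e', he'⟩ := W_hom h w e
        exact ⟨_, he' H he⟩
      · have h1 : J ⊔ Ideal.span T ≤ RingHom.ker (eval (x m)) := by
          refine sup_le (fun H hH => hm.1 H hH) ?_
          rw [Ideal.span_le]
          rintro _ ⟨H, hH, ⟨e, he⟩, w, hw, rfl⟩
          obtain ⟨c, hc⟩ := W_eval h w m e
          change eval (x m) _ = 0
          rw [hc H he, hw, hm.2 H hH, mul_zero]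
        exact fun H hH => h1 hH
    have hle : J ⊔ Ideal.span T ≤ J := by
      by_contra hcon
      exact hmax _ hJJ (lt_of_le_not_ge le_sup_left hcon)
    intro H e hH he w hw
    exact hle ((le_sup_right : Ideal.span T ≤ J ⊔ Ideal.span T)
      (Ideal.subset_span ⟨H, hH, ⟨e, he⟩, w, hw, rfl⟩))
  obtain ⟨a0, ha0⟩ := hJ3.nonempty
  have hprog : ∀ k, ∀ H ∈ J, eval (x (a0 + k * g)) H = 0 := by
    intro k
    induction k with
    | zero => simpa using ha0
    | succ k ih =>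
      have h1 : J ≤ RingHom.ker (eval (x (a0 + (k + 1) * g))) := by
        refine hJ1.trans ?_
        rw [Ideal.span_le]
        rintro H ⟨hH, e, he⟩
        obtain ⟨w, hw, c, hc0, hc⟩ := W_ex h hnz g (a0 + k * g) e
        have h2 := ih _ (hadd H e hH he w hw)
        rw [hc H he] at h2
        have h3 := (mul_eq_zero.1 h2).resolve_left hc0
        change eval (x (a0 + (k + 1) * g)) H = 0
        rwa [show a0 + (k + 1) * g = a0 + k * g + g by ring]
      exact fun H hH => h1 hH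
  obtain ⟨i0, -, -⟩ := hnz 0
  exact no_prog (h i0) hg hG hGp fun k => hprog k G hJ2

end orbit

end Pool.Agent.Q309.OFF
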