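import Pool.Agent.Q309.OFF.Dense
import Pool.Agent.Q309.OFF.Ps
import Pool.Agent.Q309.OFF.Clos

/-!
Images of a variety with a dense recurrent orbit under rational maps: they are points or covered by
rational curves.
-/

set_option autoImplicit false

namespace Pool.Agent.Q309.OFF

open MvPolynomial
open Pool.Agent.Q309.PO (OSeq ORec)
open Pool.Agent.Q171.RC (OnRat)
open Pool.Agent.Results.MP_0e7dfd_ag.RecursiveOrbits (DenseOrbit Rec)
open Pool.Agent.Q309.KS (tail_dense)

variable {n s : ℕ} {L : Type} [Field L]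

/-- The homogeneous ideal of the closure `Z` of the image of the variety of `p` under the rational map
with the coordinates `Φ`. -/
noncomputable def ImIdeal (p : Ideal (MvPolynomial (Fin (n + 1)) L))
    (Φ : Fin (s + 1) → MvPolynomial (Fin (n + 1)) L) : Ideal (MvPolynomial (Fin (s + 1)) L) :=
  Ideal.span {G | (∃ e, G.IsHomogeneous e) ∧ aeval Φ G ∈ p}

theorem ev_aev (Φ : Fin (s + 1) → MvPolynomial (Fin (n + 1)) L)
    (G : MvPolynomial (Fin (s + 1)) L) (v : Fin (n + 1) → L) :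
    eval v (aeval Φ G) = eval (fun u => eval v (Φ u)) G := by
  have h := MvPolynomial.comp_aeval_apply (f := Φ)
    (aeval v : MvPolynomial (Fin (n + 1)) L →ₐ[L] L) G
  simpa [MvPolynomial.aeval_eq_eval] using h

/-- windows of recurrent sequences -/
theorem oseq_window {t : ℕ → L} (ht : Function.Injective t) {ρ : Polynomial L}
    (hρ : ∀ m, t (m + 1) = ρ.eval (t m)) {z : ℕ → Fin (s + 1) → L}
    (h : ∀ u, Rec t fun m => z m u) : ∃ r e : ℕ, ∀ a B, (∀ m ≤ B, z (a + m) ≠ 0) →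
      OSeq r e ρ.natDegree B fun m => z (a + m) := by
  classical
  choose r P h1 h2 using h
  let R : ℕ := Finset.univ.sup r
  let E : ℕ := Finset.univ.sup fun u => (Finset.range (r u + 1)).sup fun i => (P u i).natDegree
  have hR : ∀ u, r u ≤ R := fun u => Finset.le_sup (f := r) (Finset.mem_univ u)
  have hE : ∀ u i, i ≤ r u → (P u i).natDegree ≤ E := fun u i hi =>
    (Finset.le_sup (f := fun i => (P u i).natDegree) (Finset.mem_range.2 (by omega))).trans
      (Finset.le_sup (f := fun u => (Finset.range (r u + 1)).sup fun i => (P u i).natDegree)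
        (Finset.mem_univ u))
  refine ⟨R, E, fun a B hne => ⟨hne, fun m => t (a + m), ρ, le_rfl, fun m => hρ (a + m),
    fun i j hij _ h0 => ?_, fun u => ?_⟩⟩
  · have := ht h0
    omega
  · obtain ⟨i0, hi0, hPi0⟩ := h1 u
    refine ⟨fun k => if k ≤ r u then P u k else 0, ⟨i0, hi0.trans (hR u), ?_⟩, fun k => ?_,
      fun m _ => ?_⟩
    · simp only [if_pos hi0]
      exact hPi0
    · by_cases hk : k ≤ r u
      · simp only [if_pos hk]
        exact hE u k hk
      · simp only [if_neg hk]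
        simp
    · rw [← h2 u (a + m)]
      refine (Finset.sum_subset (Finset.range_mono (Nat.succ_le_succ (hR u)))
        fun k _ hk => ?_).symm.trans (Finset.sum_congr rfl fun k hk => ?_)
      · have h3 : ¬ k ≤ r u := fun h4 => hk (Finset.mem_range.2 (by omega))
        simp only [if_neg h3, Polynomial.eval_zero, zero_mul]
      · have h3 : k ≤ r u := by
          have := Finset.mem_range.1 hk
          omega
        simp only [if_pos h3, add_assoc]

/-- **Images.** -/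
theorem image_rat [CharZero L] [IsAlgClosed L] {p : Ideal (MvPolynomial (Fin (n + 1)) L)}
    {ι : Type} {FF : ι → Fin (n + 1) → MvPolynomial (Fin (n + 1)) L} {x : ℕ → Fin (n + 1) → L}
    (hh : ∀ i, DenseOrbit p (FF i) x) (hnz : ∀ m, ∃ i j, eval (x m) (FF i j) ≠ 0)
    {t : ℕ → L} (ht : Function.Injective t) {ρ : Polynomial L}
    (hρ : ∀ m, t (m + 1) = ρ.eval (t m)) (hrec : ∀ j, Rec t fun m => x m j)
    {b : ℕ} {Φ : Fin (s + 1) → MvPolynomial (Fin (n + 1)) L} (hΦ : ∀ u, (Φ u).IsHomogeneous b)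
    (hΦp : ∃ u, Φ u ∉ p) :
    (∃ c : Fin (s + 1) → L, c ≠ 0 ∧ ∀ u v, C (c u) * Φ v - C (c v) * Φ u ∈ p) ∨
      ∃ B, ∀ y, OnV (ImIdeal p Φ) y → OnCurve (ImIdeal p Φ) B y := by
  classical
  obtain ⟨ι0, -, -⟩ := hnz 0
  obtain ⟨F, hFdef⟩ : ∃ F, F = FF ι0 := ⟨_, rfl⟩
  have h : DenseOrbit p F x := hFdef ▸ hh ι0
  obtain ⟨d, hF⟩ := h.forms
  obtain ⟨u0, hu0⟩ := hΦp
  let z : ℕ → Fin (s + 1) → L := fun m u => eval (x m) (Φ u)
  have hfg : (ImIdeal p Φ).FG := IsNoetherian.noetherian _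
  obtain ⟨S1, hS1, hS2⟩ := (Submodule.fg_span_iff_fg_span_finset_subset _).1 hfg
  have hS3 : Ideal.span (S1 : Set (MvPolynomial (Fin (s + 1)) L)) = ImIdeal p Φ := hS2.symm
  let D : ℕ := S1.sup fun G => G.totalDegree
  have hD : ∀ G ∈ S1, ∃ e, e ≤ D ∧ G.IsHomogeneous e := by
    intro G hG
    obtain ⟨⟨e, he⟩, -⟩ := hS1 hG
    by_cases h0 : G = 0
    · exact ⟨0, Nat.zero_le _, h0 ▸ isHomogeneous_zero _ _ _⟩
    · refine ⟨e, ?_, he⟩
      rw [← he.totalDegree h0]
      exact Finset.le_sup (f := fun G : MvPolynomial (Fin (s + 1)) L => G.totalDegree) hG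
  obtain ⟨r, e, hre⟩ := oseq_window ht hρ (z := z) fun u => rec_form ht hρ hrec (Φ u)
  obtain ⟨N, hN⟩ := off_alg s D r e ρ.natDegree
  obtain ⟨Gs, hGs1, hGs2⟩ := onRat_locus (S := (S1 : Set (MvPolynomial (Fin (s + 1)) L)))
    (fun G hG => (hS1 hG).1) N
  by_cases hall : ∀ G ∈ Gs, aeval Φ G ∈ p
  · right
    exact ⟨N, fun y hy => onCurve_of hS3.ge ((hGs2 y hy.1).1 fun G hG =>
      hy.2 G (Ideal.subset_span ⟨hGs1 G hG, hall G hG⟩))⟩
  left
  push Not at hall
  obtain ⟨G0, hG0, hG0p⟩ := hall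
  obtain ⟨e0, he0⟩ := hGs1 G0 hG0
  have hG0h : (aeval Φ G0).IsHomogeneous (b * e0) := he0.aeval Φ hΦ
  -- windows
  have hwin : ∀ a, (∀ i ≤ N, z (a + i) ≠ 0) → (∃ i ≤ N, eval (z (a + i)) G0 = 0) ∨
      ∃ i j, i < j ∧ j ≤ N ∧ Par (z (a + i)) (z (a + j)) := by
    intro a ha
    by_contra hcon
    push Not at hcon
    obtain ⟨hc1, hc2⟩ := hcon
    obtain ⟨I, hI, hI2⟩ := hN L (S1 : Set (MvPolynomial (Fin (s + 1)) L)) hD N
      (fun m => z (a + m)) (hre a N ha) fun m _ G hG => by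
        obtain ⟨⟨e', he'⟩, hGp⟩ := hS1 hG
        have h1 := (h.dense _ _ (he'.aeval Φ hΦ)).2 hGp (a + m)
        rwa [ev_aev] at h1
    have hg : ∀ i ∈ Finset.range (N + 1), ∃ i' ∈ I, i' ≤ N ∧ Par (z (a + i')) (z (a + i)) := by
      intro i hi
      have hi' : i ≤ N := by
        have := Finset.mem_range.1 hi
        omega
      exact hI2 i hi' fun hon => hc1 i hi' ((hGs2 _ (ha i hi')).2 hon G0 hG0)
    choose! g hg using hg
    obtain ⟨v, hv, w, hw, hvw, hgvw⟩ := Finset.exists_ne_map_eq_of_card_lt_of_maps_to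
      (s := Finset.range (N + 1)) (t := I) (by rw [Finset.card_range]; omega) (f := g)
      (fun v hv => (hg v hv).1)
    have e1 := (hg v hv).2.2
    have e2 := (hg w hw).2.2
    rw [← hgvw] at e2
    have e3 : Par (z (a + v)) (z (a + w)) := e1.symm.trans (ha _ (hg v hv).2.1) e2
    have hv' : v ≤ N := by
      have := Finset.mem_range.1 hv
      omega
    have hw' : w ≤ N := by
      have := Finset.mem_range.1 hw
      omega
    rcases lt_or_gt_of_ne hvw with h1 | h1
    · exact hc2 v w h1 hw' e3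
    · exact hc2 w v h1 hv' e3.symm
  -- the equations
  have hEhom : ∀ (i j : ℕ) (u v : Fin (s + 1)), ((aeval F)^[i] (Φ u) * (aeval F)^[j] (Φ v) -
      (aeval F)^[i] (Φ v) * (aeval F)^[j] (Φ u)).IsHomogeneous (d ^ i * b + d ^ j * b) :=
    fun i j u v => ((iter_hom' hF i (hΦ u)).mul (iter_hom' hF j (hΦ v))).sub
      ((iter_hom' hF i (hΦ v)).mul (iter_hom' hF j (hΦ u)))
  have hE : ∃ i j, i < j ∧ j ≤ N ∧ ∀ u v, (aeval F)^[i] (Φ u) * (aeval F)^[j] (Φ v) -
      (aeval F)^[i] (Φ v) * (aeval F)^[j] (Φ u) ∈ p := by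
    by_contra hcon
    push Not at hcon
    have hcon' : ∀ i j : ℕ, ∃ u v, i < j → j ≤ N → (aeval F)^[i] (Φ u) * (aeval F)^[j] (Φ v) -
        (aeval F)^[i] (Φ v) * (aeval F)^[j] (Φ u) ∉ p := by
      intro i j
      by_cases hij : i < j ∧ j ≤ N
      · obtain ⟨u, v, huv⟩ := hcon i j hij.1 hij.2
        exact ⟨u, v, fun _ _ => huv⟩
      · exact ⟨u0, u0, fun h1 h2 => absurd ⟨h1, h2⟩ hij⟩
    choose u v huv using hcon'
    have hH : ((∏ i ∈ Finset.range (N + 1), (aeval F)^[i] (aeval Φ G0)) *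
        ∏ j ∈ Finset.range (N + 1), ∏ i ∈ Finset.range j,
          ((aeval F)^[i] (Φ (u i j)) * (aeval F)^[j] (Φ (v i j)) -
            (aeval F)^[i] (Φ (v i j)) * (aeval F)^[j] (Φ (u i j)))).IsHomogeneous
        ((∑ i ∈ Finset.range (N + 1), d ^ i * (b * e0)) +
          ∑ j ∈ Finset.range (N + 1), ∑ i ∈ Finset.range j, (d ^ i * b + d ^ j * b)) :=
      (IsHomogeneous.prod _ _ _ fun i _ => iter_hom' hF i hG0h).mul
        (IsHomogeneous.prod _ _ _ fun j _ => IsHomogeneous.prod _ _ _ fun i _ => hEhom i j _ _)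
    refine ret_small hh hnz hH (fun hmem => ?_) ((ps_window (A := {m | z m = 0}) ?_ N).mono
      fun a ha => ?_)
    · rcases h.prime.mem_or_mem hmem with h1 | h1
      · obtain ⟨i, -, h2⟩ := (h.prime.prod_mem_iff).1 h1
        exact hG0p ((iter_mem h hF i hG0h).1 h2)
      · obtain ⟨j, hj, h2⟩ := (h.prime.prod_mem_iff).1 h1
        obtain ⟨i, hi, h3⟩ := (h.prime.prod_mem_iff).1 h2
        exact huv i j (Finset.mem_range.1 hi) (by have := Finset.mem_range.1 hj; omega) h3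
    · exact fun hps => ret_small hh hnz (hΦ u0) hu0 (hps.mono fun m hm => congrFun hm u0)
    · change eval (x a) _ = 0
      rw [map_mul, map_prod, map_prod]
      rcases hwin a ha with ⟨i, hi, h1⟩ | ⟨i, j, hij, hj, h1⟩
      · rw [Finset.prod_eq_zero (Finset.mem_range.2 (by omega : i < N + 1)), zero_mul]
        obtain ⟨c, -, hc⟩ := iter_pow h hF i a (b * e0)
        rw [hc _ hG0h, ev_aev]
        exact mul_eq_zero_of_right _ h1
      · rw [mul_comm, Finset.prod_eq_zero (Finset.mem_range.2 (by omega : j < N + 1)), zero_mul]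
        rw [map_prod, Finset.prod_eq_zero (Finset.mem_range.2 hij)]
        obtain ⟨c, -, hc⟩ := iter_pow h hF i a b
        obtain ⟨c', -, hc'⟩ := iter_pow h hF j a b
        rw [map_sub, map_mul, map_mul, hc _ (hΦ _), hc _ (hΦ _), hc' _ (hΦ _), hc' _ (hΦ _)]
        have h2 := h1 (u i j) (v i j)
        change eval (x (a + i)) (Φ (u i j)) * eval (x (a + j)) (Φ (v i j)) =
          eval (x (a + i)) (Φ (v i j)) * eval (x (a + j)) (Φ (u i j)) at h2
        linear_combination c * c' * h2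
  obtain ⟨i, j, hij, hj, hE⟩ := hE
  obtain ⟨g, rfl⟩ := Nat.exists_eq_add_of_lt hij
  have hEg : ∀ u v, Φ u * (aeval F)^[g + 1] (Φ v) - Φ v * (aeval F)^[g + 1] (Φ u) ∈ p := by
    intro u v
    have h1 := hE u v
    have h2 : ∀ w, (aeval F)^[i + g + 1] (Φ w) = (aeval F)^[i] ((aeval F)^[g + 1] (Φ w)) := by
      intro w
      rw [add_assoc, Function.iterate_add_apply]
    rw [h2, h2, ← iterate_map_mul, ← iterate_map_mul, ← iterate_map_sub] at h1
    exact (iter_mem h hF i (hEhom 0 (g + 1) u v)).1 h1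
  set g' := g + 1 with hg'
  have hEk : ∀ k u v, Φ u * (aeval F)^[k * g'] (Φ v) - Φ v * (aeval F)^[k * g'] (Φ u) ∈ p := by
    intro k
    induction k with
    | zero =>
      intro u v
      have h1 : Φ u * (aeval F)^[0 * g'] (Φ v) - Φ v * (aeval F)^[0 * g'] (Φ u) = 0 := by
        rw [zero_mul, Function.iterate_zero, id_eq, id_eq]
        ring
      rw [h1]
      exact p.zero_mem
    | succ k ih =>
      intro u v
      have e2 : (aeval F)^[k * g'] (Φ u) * (aeval F)^[k * g'] ((aeval F)^[g'] (Φ v)) -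
          (aeval F)^[k * g'] (Φ v) * (aeval F)^[k * g'] ((aeval F)^[g'] (Φ u)) ∈ p := by
        have h1 := (iter_mem h hF (k * g') (hEhom 0 g' u v)).2 (hEg u v)
        rwa [iterate_map_sub, iterate_map_mul, iterate_map_mul] at h1
      have nb : (aeval F)^[k * g'] (Φ u0) ∉ p := fun h1 => hu0 ((iter_mem h hF _ (hΦ u0)).1 h1)
      have e1 := ih u u0
      have e3 := ih u0 v
      have h9 : ∀ w, (aeval F)^[(k + 1) * g'] (Φ w) =
          (aeval F)^[k * g'] ((aeval F)^[g'] (Φ w)) := by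
        intro w
        rw [← Function.iterate_add_apply (aeval F) (k * g') g', add_mul, one_mul]
      rw [h9, h9]
      have h2 : (Φ u * (aeval F)^[k * g'] ((aeval F)^[g'] (Φ v)) -
          Φ v * (aeval F)^[k * g'] ((aeval F)^[g'] (Φ u))) * (aeval F)^[k * g'] (Φ u0) ∈ p := by
        have h3 := p.add_mem (p.add_mem
          (p.mul_mem_left ((aeval F)^[k * g'] ((aeval F)^[g'] (Φ v))) e1)
          (p.mul_mem_left (Φ u0) e2))
          (p.mul_mem_left ((aeval F)^[k * g'] ((aeval F)^[g'] (Φ u))) e3)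
        refine (congrArg (fun f => f ∈ p) ?_).mp h3
        ring
      exact (h.prime.mem_or_mem h2).resolve_right nb
  have hEw : ∀ (k : ℕ) (w : List ι), w.length = k * g' → ∀ u v,
      Φ u * W FF w (Φ v) - Φ v * W FF w (Φ u) ∈ p := by
    intro k w hw u v
    obtain ⟨e', he'⟩ := W_hom hh w b
    have e2 : (aeval F)^[k * g'] (Φ u) * W FF w (Φ v) -
        (aeval F)^[k * g'] (Φ v) * W FF w (Φ u) ∈ p := by
      refine (h.dense (d ^ (k * g') * b + e') _ (((iter_hom' hF _ (hΦ u)).mul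
        (he' _ (hΦ v))).sub ((iter_hom' hF _ (hΦ v)).mul (he' _ (hΦ u))))).1 fun m => ?_
      obtain ⟨c, -, hc⟩ := iter_pow h hF (k * g') m b
      obtain ⟨c', hc'⟩ := W_eval hh w m b
      rw [map_sub, map_mul, map_mul, hc _ (hΦ _), hc _ (hΦ _), hc' _ (hΦ _), hc' _ (hΦ _), hw]
      ring
    have nb : (aeval F)^[k * g'] (Φ u0) ∉ p := fun h1 => hu0 ((iter_mem h hF _ (hΦ u0)).1 h1)
    have e1 := hEk k u u0
    have e3 := hEk k u0 v
    have h2 : (Φ u * W FF w (Φ v) - Φ v * W FF w (Φ u)) * (aeval F)^[k * g'] (Φ u0) ∈ p := by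
      have h3 := p.add_mem (p.add_mem (p.mul_mem_left (W FF w (Φ v)) e1)
        (p.mul_mem_left (Φ u0) e2)) (p.mul_mem_left (W FF w (Φ u)) e3)
      refine (congrArg (fun f => f ∈ p) ?_).mp h3
      ring
    exact (h.prime.mem_or_mem h2).resolve_right nb
  have hpar : ∀ k m, Par (z m) (z (m + k * g')) := by
    intro k m u v
    obtain ⟨w, hw, c, hc0, hc⟩ := W_ex hh hnz (k * g') m b
    obtain ⟨e', he'⟩ := W_hom hh w b
    have h1 := (h.dense (b + e') _ (((hΦ u).mul (he' _ (hΦ v))).sub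
      ((hΦ v).mul (he' _ (hΦ u))))).2 (hEw k w hw u v) m
    rw [map_sub, map_mul, map_mul, hc _ (hΦ _), hc _ (hΦ _)] at h1
    have h2 : c * (eval (x m) (Φ u) * eval (x (m + k * g')) (Φ v) -
        eval (x m) (Φ v) * eval (x (m + k * g')) (Φ u)) = 0 := by
      linear_combination h1
    exact sub_eq_zero.1 ((mul_eq_zero.1 h2).resolve_left hc0)
  have hrep : ∀ b' : ℕ, ∃ m0, ∀ m, m0 ≤ m → m % g' = b' % g' → Par (z m0) (z m) ∧
      (z m0 = 0 → z m = 0) := by
    intro b'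
    by_cases hex : ∃ m0, m0 % g' = b' % g' ∧ z m0 ≠ 0
    · obtain ⟨m0, h1, h2⟩ := hex
      refine ⟨m0, fun m h3 h4 => ⟨?_, fun h5 => absurd h5 h2⟩⟩
      have h5 : g' ∣ m - m0 := (Nat.modEq_iff_dvd' h3).1 (h1.trans h4.symm)
      obtain ⟨k, hk⟩ := h5
      have h6 : m = m0 + k * g' := by
        rw [mul_comm k, ← hk]
        omega
      rw [h6]
      exact hpar k m0
    · push Not at hex
      refine ⟨0, fun m _ h4 => ?_⟩
      rw [hex m h4]
      exact ⟨fun u v => by simp, fun _ => rfl⟩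
  choose M0 hM0 using hrep
  by_contra hcon
  push Not at hcon
  have hf : ∀ b', ∃ f : MvPolynomial (Fin (n + 1)) L, f.IsHomogeneous b ∧ f ∉ p ∧
      ∀ m, M0 b' ≤ m → m % g' = b' % g' → eval (x m) f = 0 := by
    intro b'
    by_cases h0 : z (M0 b') = 0
    · exact ⟨Φ u0, hΦ u0, hu0, fun m h1 h2 => congrFun ((hM0 b' m h1 h2).2 h0) u0⟩
    · obtain ⟨u, v, huv⟩ := hcon _ h0
      refine ⟨_, ?_, huv, fun m h1 h2 => ?_⟩
      · refine IsHomogeneous.sub ?_ ?_
        · have h3 := (isHomogeneous_C (Fin (n + 1)) (z (M0 b') u)).mul (hΦ v)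
          rwa [zero_add] at h3
        · have h3 := (isHomogeneous_C (Fin (n + 1)) (z (M0 b') v)).mul (hΦ u)
          rwa [zero_add] at h3
      · rw [map_sub, map_mul, map_mul, eval_C, eval_C, sub_eq_zero]
        exact (hM0 b' m h1 h2).1 u v
  choose f hf1 hf2 hf3 using hf
  have h4 : ∏ b' ∈ Finset.range g', f b' ∈ p := by
    refine tail_dense h ((Finset.range g').sup M0) (∑ b' ∈ Finset.range g', b) _
      (IsHomogeneous.prod _ _ _ fun b' _ => hf1 b') fun m hm => ?_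
    rw [map_prod]
    have h5 : m % g' ∈ Finset.range g' := Finset.mem_range.2 (Nat.mod_lt _ (by omega))
    refine Finset.prod_eq_zero h5 (hf3 _ m ((Finset.le_sup (f := M0) h5).trans hm) ?_)
    rw [Nat.mod_mod]
  obtain ⟨b', -, h5⟩ := (h.prime.prod_mem_iff).1 h4
  exact hf2 b' h5

end Pool.Agent.Q309.OFF
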