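import Pool.Agent.Q309.OFF.Dense
import Pool.Agent.Q309.OFF.Img
import Pool.Agent.Q309.OFF.DClos

/-!
Points over difference fields given by linear difference equations: the images of their loci are
covered by rational curves or the image point is periodic.
-/

set_option autoImplicit false

namespace Pool.Agent.Q309.OFF

open MvPolynomial
open Pool.Agent.Q1.SL (poly_eval)
open Pool.Agent.Q309.PO (OSeq)
open Pool.Agent.Q171.RC (OnRat NC)

variable {n s : ℕ} {K E : Type} [Field K] [Field E] [Algebra K E]

/-- The ideal of the locus over `K` of the point `h` over `E`: the polynomials over `K` which vanish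
at `h`. -/
noncomputable def ptIdeal (K : Type) {E : Type} [Field K] [Field E] [Algebra K E]
    (h : Fin (n + 1) → E) : Ideal (MvPolynomial (Fin (n + 1)) K) :=
  RingHom.ker (aeval h : MvPolynomial (Fin (n + 1)) K →ₐ[K] E)

/-- curves in the closed set of the points on rational curves -/
theorem curve_in_locus {L : Type} [Field L] [CharZero L] {S : Set (MvPolynomial (Fin (s + 1)) L)}
    {N : ℕ} {G : MvPolynomial (Fin (s + 1)) L}
    (hG : ∀ x : Fin (s + 1) → L, x ≠ 0 → OnRat S N x → eval x G = 0)
    {c : Fin (s + 1) → Polynomial L} (hc : NC c) (hcN : ∀ j, (c j).natDegree ≤ N)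
    (hcS : ∀ F ∈ S, aeval c F = 0) : aeval c G = 0 := by
  classical
  obtain ⟨a, b, i, j, hab⟩ := hc
  obtain ⟨l, hl⟩ : ∃ l, c l ≠ 0 := by
    by_contra hcon
    push Not at hcon
    apply hab
    rw [hcon i, hcon j, Polynomial.eval_zero, Polynomial.eval_zero]
  -- the values at all points outside of the zeros of `c l`
  have hval : ∀ e : L, (c l).eval e ≠ 0 → (aeval c G : Polynomial L).eval e = 0 := by
    intro e he
    rw [poly_eval]
    refine hG _ (fun h0 => he (congrFun h0 l)) ?_
    have hce : ∀ (j : Fin (s + 1)) (w : L),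
        ((c j).comp (Polynomial.X + Polynomial.C e)).eval w = (c j).eval (w + e) := by
      intro j w
      rw [Polynomial.eval_comp, Polynomial.eval_add, Polynomial.eval_X, Polynomial.eval_C]
    refine ⟨fun j => (c j).comp (Polynomial.X + Polynomial.C e), ⟨a - e, b - e, i, j, ?_⟩,
      fun j => ?_, fun F hF => ?_, fun j => ?_⟩
    · rw [hce, hce, hce, hce, sub_add_cancel, sub_add_cancel]
      exact hab
    · refine Polynomial.natDegree_comp_le.trans ?_
      rw [Polynomial.natDegree_X_add_C, mul_one]
      exact hcN j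
    · have h1 : aeval (fun j => (c j).comp (Polynomial.X + Polynomial.C e)) F =
          (Polynomial.aeval (Polynomial.X + Polynomial.C e) : Polynomial L →ₐ[L] Polynomial L)
            (aeval c F) := by
        rw [MvPolynomial.comp_aeval_apply]
        rfl
      rw [h1, hcS F hF, map_zero]
    · rw [hce, zero_add]
  refine (mul_eq_zero.1 (Polynomial.funext fun e => ?_ : c l * aeval c G = 0)).resolve_left hl
  rw [Polynomial.eval_mul, Polynomial.eval_zero]
  by_cases he : (c l).eval e = 0
  · rw [he, zero_mul]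
  · rw [hval e he, mul_zero]

/-- **Images of points over difference fields.** -/
theorem diff_image [CharZero K] [IsAlgClosed K] {σ : E →ₐ[K] E} {t : E} {ρ : Polynomial K}
    (hρ : σ t = Polynomial.aeval t ρ) (hinj : Function.Injective fun m : ℕ => σ^[m] t)
    {h : Fin (n + 1) → E} (hh : ∀ j, DRec σ t (h j))
    {Φ : Fin (s + 1) → MvPolynomial (Fin (n + 1)) K} (hΦp : ∃ u, Φ u ∉ ptIdeal K h) :
    (∃ g : ℕ, 1 ≤ g ∧ Par (fun u => aeval h (Φ u)) fun u => σ^[g] (aeval h (Φ u))) ∨
      ∃ B, ∀ y, OnV (ImIdeal (ptIdeal K h) Φ) y → OnCurve (ImIdeal (ptIdeal K h) Φ) B y := by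
  classical
  obtain ⟨u0, hu0⟩ := hΦp
  have ht : Transcendental K t := by
    intro halg
    have h1 : t ∈ (algebraMap K E).range := by
      refine minpoly.mem_range_of_degree_eq_one K t ?_
      exact IsAlgClosed.degree_eq_one_of_irreducible K (minpoly.irreducible halg.isIntegral)
    obtain ⟨a, ha⟩ := h1
    have h2 : σ^[0] t = σ^[1] t := by
      rw [Function.iterate_zero, id_eq, Function.iterate_one, ← ha, AlgHom.commutes]
    exact absurd (hinj h2) (by norm_num)
  let z : Fin (s + 1) → E := fun u => aeval h (Φ u)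
  have hz0 : z u0 ≠ 0 := fun h0 => hu0 h0
  have hmem : ∀ G : MvPolynomial (Fin (s + 1)) K, aeval Φ G ∈ ptIdeal K h ↔ aeval z G = 0 := by
    intro G
    have h1 : aeval z G = aeval h (aeval Φ G) := by
      rw [MvPolynomial.comp_aeval_apply]
    rw [h1]
    exact Iff.rfl
  have hfg : (ImIdeal (ptIdeal K h) Φ).FG := IsNoetherian.noetherian _
  obtain ⟨S1, hS1, hS2⟩ := (Submodule.fg_span_iff_fg_span_finset_subset _).1 hfg
  have hS3 : Ideal.span (S1 : Set (MvPolynomial (Fin (s + 1)) K)) = ImIdeal (ptIdeal K h) Φ :=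
    hS2.symm
  let D : ℕ := S1.sup fun G => G.totalDegree
  have hD : ∀ G ∈ (S1 : Set (MvPolynomial (Fin (s + 1)) K)), ∃ e, e ≤ D ∧ G.IsHomogeneous e := by
    intro G hG
    obtain ⟨⟨e, he⟩, -⟩ := hS1 hG
    by_cases h0 : G = 0
    · exact ⟨0, Nat.zero_le _, h0 ▸ isHomogeneous_zero _ _ _⟩
    · refine ⟨e, ?_, he⟩
      rw [← he.totalDegree h0]
      exact Finset.le_sup (f := fun G : MvPolynomial (Fin (s + 1)) K => G.totalDegree) hG
  -- the recurrences
  have hrec : ∀ u, DRec σ t (z u) := fun u => drec_form ht hρ hh (Φ u)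
  choose r P h1 h2 using hrec
  let R : ℕ := Finset.univ.sup r
  let E' : ℕ := Finset.univ.sup fun u => (Finset.range (r u + 1)).sup fun i => (P u i).natDegree
  have hR : ∀ u, r u ≤ R := fun u => Finset.le_sup (f := r) (Finset.mem_univ u)
  have hE : ∀ u i, i ≤ r u → (P u i).natDegree ≤ E' := fun u i hi =>
    (Finset.le_sup (f := fun i => (P u i).natDegree) (Finset.mem_range.2 (by omega))).trans
      (Finset.le_sup (f := fun u => (Finset.range (r u + 1)).sup fun i => (P u i).natDegree)
        (Finset.mem_univ u))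
  obtain ⟨N, hN⟩ := off_alg s D R E' ρ.natDegree
  obtain ⟨Gs, hGs1, hGs2⟩ := onRat_locus (S := (S1 : Set (MvPolynomial (Fin (s + 1)) K)))
    (fun G hG => (hS1 hG).1) N
  by_cases hall : ∀ G ∈ Gs, aeval z G = 0
  · right
    exact ⟨N, fun y hy => onCurve_of hS3.ge ((hGs2 y hy.1).1 fun G hG =>
      hy.2 G (Ideal.subset_span ⟨hGs1 G hG, (hmem G).2 (hall G hG)⟩))⟩
  left
  push Not at hall
  obtain ⟨G0, hG0, hG0z⟩ := hall
  have hσinj : ∀ m, Function.Injective (σ^[m] : E → E) := fun m => σ.toRingHom.injective.iterate m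
  have hit : ∀ (m : ℕ) (P : Polynomial K), σ^[m] (Polynomial.aeval t P) =
      Polynomial.aeval (σ^[m] t) P := by
    intro m P
    induction m with
    | zero => rfl
    | succ m ih =>
      rw [Function.iterate_succ_apply', ih, ← Polynomial.aeval_algHom_apply,
        Function.iterate_succ_apply']
  have hitG : ∀ (m : ℕ) (G : MvPolynomial (Fin (s + 1)) K),
      σ^[m] (aeval z G) = aeval (fun u => σ^[m] (z u)) G := by
    intro m G
    induction m with
    | zero => rfl
    | succ m ih =>
      rw [Function.iterate_succ_apply', ih, MvPolynomial.comp_aeval_apply]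
      congr 2
      funext u
      rw [Function.iterate_succ_apply']
  have hfew := few_ext (n := s) hN hD (G := G0) (fun c hc hcN hcS =>
    curve_in_locus (fun x hx hon => (hGs2 x hx).2 hon G0 hG0) hc hcN hcS) E N
    (fun m u => σ^[m] (z u)) ⟨fun m _ h0 => ?_, fun m => σ^[m] t, ρ.map (algebraMap K E),
      Polynomial.natDegree_map_le, fun m => ?_, fun i j hij _ h0 => ?_, fun u => ?_⟩
    (fun m _ F hF => ?_)
  · obtain ⟨I, hI, hI2⟩ := hfew
    have hg : ∀ i ∈ Finset.range (N + 1), ∃ i' ∈ I, i' ≤ N ∧
        Par (fun u => σ^[i'] (z u)) fun u => σ^[i] (z u) := by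
      intro i hi
      refine hI2 i (by have := Finset.mem_range.1 hi; omega) ?_
      rw [eval_map]
      change aeval (fun u => σ^[i] (z u)) G0 ≠ 0
      rw [← hitG]
      intro h0
      apply hG0z
      apply hσinj i
      rw [h0, iterate_map_zero]
    choose! g hg using hg
    obtain ⟨v, hv, w, hw, hvw, hgvw⟩ := Finset.exists_ne_map_eq_of_card_lt_of_maps_to
      (s := Finset.range (N + 1)) (t := I) (by rw [Finset.card_range]; omega) (f := g)
      (fun v hv => (hg v hv).1)
    have hne : ∀ m, (fun u => σ^[m] (z u)) ≠ 0 := by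
      intro m h0
      apply hz0
      apply hσinj m
      rw [iterate_map_zero]
      exact congrFun h0 u0
    have e1 := (hg v hv).2.2
    have e2 := (hg w hw).2.2
    rw [← hgvw] at e2
    have e3 := e1.symm.trans (hne _) e2
    have hfin : ∀ a b : ℕ, a < b → Par (fun u => σ^[a] (z u)) (fun u => σ^[b] (z u)) →
        ∃ g : ℕ, 1 ≤ g ∧ Par z fun u => σ^[g] (z u) := by
      intro a b hab hpar
      obtain ⟨g, rfl⟩ := Nat.exists_eq_add_of_lt hab
      refine ⟨g + 1, by omega, fun u v => ?_⟩
      apply hσinj a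
      have h3 := hpar u v
      beta_reduce at h3
      have h4 : ∀ w, σ^[a + g + 1] (z w) = σ^[a] (σ^[g + 1] (z w)) := by
        intro w
        rw [add_assoc, Function.iterate_add_apply]
      rw [h4, h4] at h3
      rw [iterate_map_mul, iterate_map_mul]
      exact h3
    rcases lt_or_gt_of_ne hvw with h3 | h3
    · exact hfin v w h3 e3
    · exact hfin w v h3 e3.symm
  · apply hz0
    apply hσinj m
    rw [iterate_map_zero]
    exact congrFun h0 u0
  · change σ^[m + 1] t = (ρ.map (algebraMap K E)).eval (σ^[m] t)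
    rw [Function.iterate_succ_apply, hρ, hit, Polynomial.eval_map_algebraMap]
  · exact absurd (hinj h0) hij.ne
  · obtain ⟨i0, hi0, hPi0⟩ := h1 u
    refine ⟨fun k => if k ≤ r u then (P u k).map (algebraMap K E) else 0,
      ⟨i0, hi0.trans (hR u), ?_⟩, fun k => ?_, fun m _ => ?_⟩
    · simp only [if_pos hi0]
      rwa [Ne, Polynomial.map_eq_zero]
    · by_cases hk : k ≤ r u
      · simp only [if_pos hk]
        exact Polynomial.natDegree_map_le.trans (hE u k hk)
      · simp only [if_neg hk]
        simp
    · have h3 := congrArg (σ^[m] : E → E) (h2 u)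
      have h4 : ∀ (T : Finset ℕ) (f : ℕ → E), σ^[m] (∑ i ∈ T, f i) = ∑ i ∈ T, σ^[m] (f i) := by
        intro T f
        induction T using Finset.induction_on with
        | empty => rw [Finset.sum_empty, Finset.sum_empty, iterate_map_zero]
        | insert i T hi ih2 => rw [Finset.sum_insert hi, Finset.sum_insert hi, iterate_map_add, ih2]
      rw [iterate_map_zero, h4] at h3
      rw [← h3]
      refine (Finset.sum_subset (Finset.range_mono (Nat.succ_le_succ (hR u)))
        fun k _ hk => ?_).symm.trans (Finset.sum_congr rfl fun k hk => ?_)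
      · have h5 : ¬ k ≤ r u := fun h6 => hk (Finset.mem_range.2 (by omega))
        simp only [if_neg h5, Polynomial.eval_zero, zero_mul]
      · have h5 : k ≤ r u := by
          have := Finset.mem_range.1 hk
          omega
        simp only [if_pos h5]
        rw [iterate_map_mul, hit, Polynomial.eval_map_algebraMap, ← Function.iterate_add_apply]
  · rw [eval_map]
    change aeval (fun u => σ^[m] (z u)) F = 0
    rw [← hitG, (hmem F).1 (hS1 hF).2, iterate_map_zero]

end Pool.Agent.Q309.OFF
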