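import Pool.Agent.Q309.OFF.Alg

/-!
Dense sequences of points which satisfy linear recurrences: the variety is covered by rational curves
of bounded degree.
-/

set_option autoImplicit false

namespace Pool.Agent.Q309.OFF

open MvPolynomial
open Pool.Agent.Q309.DU
open Pool.Agent.Q309.PO
open Pool.Agent.Q171.RC (OnRat NC HasPt ev)

variable {n : ℕ}

/-- The vectors `x` and `y` are proportional: for nonzero vectors, they are homogeneous coordinates of
the same point. -/
def Par {L : Type} [Field L] (x y : Fin (n + 1) → L) : Prop := ∀ u v, x u * y v = x v * y u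

theorem Par.symm {L : Type} [Field L] {x y : Fin (n + 1) → L} (h : Par x y) : Par y x := by
  intro u v
  rw [mul_comm (y u), mul_comm (y v)]
  exact h v u

theorem Par.trans {L : Type} [Field L] {x y z : Fin (n + 1) → L} (hy : y ≠ 0) (h1 : Par x y)
    (h2 : Par y z) : Par x z := by
  obtain ⟨l, hl⟩ := Function.ne_iff.1 hy
  rw [Pi.zero_apply] at hl
  intro u v
  apply mul_left_cancel₀ hl
  have e1 := h1 u l
  have e2 := h2 u v
  have e3 := h1 l v
  linear_combination z v * e1 + x l * e2 + z u * e3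

/-- **One finite set of points.** -/
theorem few_all {L : Type} [Field L] {x : ℕ → Fin (n + 1) → L} (hx : ∀ m, x m ≠ 0) {B : ℕ}
    {P : ℕ → Prop}
    (h : ∀ M, ∃ I : Finset ℕ, I.card ≤ B ∧ ∀ m ≤ M, P m → ∃ i ∈ I, i ≤ M ∧ Par (x i) (x m)) :
    ∃ I : Finset ℕ, I.card ≤ B ∧ ∀ m, P m → ∃ i ∈ I, Par (x i) (x m) := by
  classical
  let Q : ℕ → Prop := fun c => ∃ J : Finset ℕ, J.card = c ∧ (∀ i ∈ J, P i) ∧
    ∀ i ∈ J, ∀ j ∈ J, i ≠ j → ¬ Par (x i) (x j)
  have hQ : ∀ c, Q c → c ≤ B := by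
    rintro c ⟨J, hJ, hJP, hJs⟩
    by_contra hcon
    obtain ⟨I, hI, hI2⟩ := h (J.sup id)
    have hg : ∀ v ∈ J, ∃ i ∈ I, Par (x i) (x v) := by
      intro v hv
      obtain ⟨i, hi, -, hs⟩ := hI2 v (Finset.le_sup (f := id) hv) (hJP v hv)
      exact ⟨i, hi, hs⟩
    choose! g hg using hg
    obtain ⟨v, hv, w, hw, hvw, hgvw⟩ := Finset.exists_ne_map_eq_of_card_lt_of_maps_to
      (s := J) (t := I) (by omega) (f := g) (fun v hv => (hg v hv).1)
    refine hJs v hv w hw hvw ?_
    have e1 := (hg v hv).2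
    have e2 := (hg w hw).2
    rw [← hgvw] at e2
    exact e1.symm.trans (hx _) e2
  have h0 : Q 0 := ⟨∅, rfl, by simp, by simp⟩
  have hmax := Nat.findGreatest_spec (P := Q) (Nat.zero_le B) h0
  obtain ⟨J, hJ, hJP, hJs⟩ := hmax
  refine ⟨J, hJ.le.trans (Nat.findGreatest_le B), fun m hm => ?_⟩
  by_contra hcon
  push Not at hcon
  have hmJ : m ∉ J := fun hmJ => hcon m hmJ fun u v => mul_comm _ _
  have hQ1 : Q (J.card + 1) := by
    refine ⟨insert m J, Finset.card_insert_of_notMem hmJ, fun i hi => ?_, fun i hi j hj hij => ?_⟩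
    · rcases Finset.mem_insert.1 hi with rfl | hi
      · exact hm
      · exact hJP i hi
    · rcases Finset.mem_insert.1 hi with hi' | hi'
      · rcases Finset.mem_insert.1 hj with hj' | hj'
        · exact absurd (hi'.trans hj'.symm) hij
        · rw [hi']
          exact fun h1 => hcon j hj' h1.symm
      · rcases Finset.mem_insert.1 hj with hj' | hj'
        · rw [hj']
          exact hcon i hi'
        · exact hJs i hi' j hj' hij
  refine Nat.findGreatest_is_greatest (P := Q) (n := B) (k := J.card + 1) ?_ (hQ _ hQ1) hQ1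
  rw [hJ]
  exact Nat.lt_succ_self _

/-- **The points on rational curves of bounded degree form a closed set.** -/
theorem onRat_locus {L : Type} [Field L] [IsAlgClosed L] {S : Set (MvPolynomial (Fin (n + 1)) L)}
    (hS : ∀ F ∈ S, ∃ e, F.IsHomogeneous e) (N : ℕ) :
    ∃ Gs : Finset (MvPolynomial (Fin (n + 1)) L), (∀ G ∈ Gs, ∃ d, G.IsHomogeneous d) ∧
      ∀ x : Fin (n + 1) → L, x ≠ 0 → ((∀ G ∈ Gs, eval x G = 0) ↔ OnRat S N x) := by
  classical
  obtain ⟨Gs, hGs1, hGs2⟩ := Pool.Agent.Q171.RC.locus (k := L) (σ := Fin 0) (N := n + 1) L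
    ((map (C : L →+* MvPolynomial (Fin 0) L)) '' S) (by
      rintro _ ⟨F, hF, rfl⟩
      obtain ⟨e, he⟩ := hS F hF
      exact ⟨e, he.map _⟩) N
  let t0 : Fin 0 → L := Fin.elim0
  have hev : (ev t0 : MvPolynomial (Fin 0) L →+* L).comp C = RingHom.id L := by
    ext a
    change aeval t0 (C a) = _
    rw [aeval_C]
    rfl
  have hmap : ∀ F : MvPolynomial (Fin (n + 1)) L,
      map (ev t0 : MvPolynomial (Fin 0) L →+* L) (map C F) = F := by
    intro F
    rw [MvPolynomial.map_map, hev, MvPolynomial.map_id]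
  have h1 : (constantCoeff : MvPolynomial (Fin 0) L →+* L) =
      (ev t0 : MvPolynomial (Fin 0) L →+* L) := by
    refine MvPolynomial.ringHom_ext (fun a => ?_) fun i => i.elim0
    change constantCoeff (C a) = aeval t0 (C a)
    rw [constantCoeff_C, aeval_C]
    rfl
  have hpt : ∀ x : Fin (n + 1) → L, OnRat S N x ↔
      HasPt (ev t0 : MvPolynomial (Fin 0) L →+* L)
        ((map (C : L →+* MvPolynomial (Fin 0) L)) '' S) N x := by
    intro x
    constructor
    · rintro ⟨p, h1, h2, h3, h4⟩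
      refine ⟨p, h1, h2, ?_, h4⟩
      rintro _ ⟨F, hF, rfl⟩
      rw [hmap]
      exact h3 _ hF
    · rintro ⟨p, h1, h2, h3, h4⟩
      refine ⟨p, h1, h2, fun F hF => ?_, h4⟩
      have h5 := h3 _ ⟨F, hF, rfl⟩
      rwa [hmap] at h5
  refine ⟨Gs.image (map constantCoeff), fun G hG => ?_, fun x hx => ?_⟩
  · obtain ⟨G', hG', rfl⟩ := Finset.mem_image.1 hG
    obtain ⟨d, hd⟩ := hGs1 G' hG'
    exact ⟨d, hd.map _⟩
  · rw [hpt, ← hGs2 t0 x hx]
    constructor
    · intro h G hG
      have h2 := h _ (Finset.mem_image_of_mem _ hG)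
      rwa [h1] at h2
    · intro h G hG
      obtain ⟨G', hG', rfl⟩ := Finset.mem_image.1 hG
      rw [h1]
      exact h G' hG'

/-- `V` is cut out by forms of degree at most `D`: the homogeneous ideal `I` is generated by forms of
degree at most `D`. -/
def CutBy {L : Type} [Field L] (I : Ideal (MvPolynomial (Fin (n + 1)) L)) (D : ℕ) : Prop :=
  I ≤ Ideal.span {F | F ∈ I ∧ ∃ e, e ≤ D ∧ F.IsHomogeneous e}

/-- `y` is the vector of homogeneous coordinates of a point of `V(I)`. -/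
def OnV {L : Type} [Field L] (I : Ideal (MvPolynomial (Fin (n + 1)) L)) (y : Fin (n + 1) → L) :
    Prop :=
  y ≠ 0 ∧ ∀ F ∈ I, eval y F = 0

/-- The point `y` lies on a nonconstant rational curve of degree at most `B` in `V(I)`. -/
def OnCurve {L : Type} [Field L] (I : Ideal (MvPolynomial (Fin (n + 1)) L)) (B : ℕ)
    (y : Fin (n + 1) → L) : Prop :=
  ∃ c : Fin (n + 1) → Polynomial L, (∃ s t, ¬ Par (fun j => (c j).eval s) fun j => (c j).eval t) ∧
    (∀ j, (c j).natDegree ≤ B) ∧ (∀ F ∈ I, aeval c F = 0) ∧ ∀ j, (c j).eval 0 = y j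

theorem onCurve_of {L : Type} [Field L] {I : Ideal (MvPolynomial (Fin (n + 1)) L)}
    {S : Set (MvPolynomial (Fin (n + 1)) L)} (hI : I ≤ Ideal.span S) {B : ℕ} {y : Fin (n + 1) → L}
    (h : OnRat S B y) : OnCurve I B y := by
  obtain ⟨c, ⟨s, t, i, j, hst⟩, h2, h3, h4⟩ := h
  refine ⟨c, ⟨s, t, fun h => hst (h i j)⟩, h2, fun F hF => ?_, h4⟩
  have h5 : I ≤ RingHom.ker (aeval c : MvPolynomial (Fin (n + 1)) L →ₐ[L] Polynomial L) := by
    refine hI.trans ?_
    rw [Ideal.span_le]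
    intro F' hF'
    exact h3 F' hF'
  exact h5 hF

/-- the linear forms through a point -/
theorem lin_eval {L : Type} [Field L] (x y : Fin (n + 1) → L) (u v : Fin (n + 1)) :
    eval y (C (x u) * X v - C (x v) * X u) = x u * y v - x v * y u := by
  simp

theorem lin_hom {L : Type} [Field L] (x : Fin (n + 1) → L) (u v : Fin (n + 1)) :
    (C (x u) * X v - C (x v) * X u : MvPolynomial (Fin (n + 1)) L).IsHomogeneous 1 := by
  refine IsHomogeneous.sub ?_ ?_
  · have h1 := (isHomogeneous_C (Fin (n + 1)) (x u)).mul (isHomogeneous_X L v)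
    rwa [zero_add] at h1
  · have h1 := (isHomogeneous_C (Fin (n + 1)) (x v)).mul (isHomogeneous_X L u)
    rwa [zero_add] at h1

/-- **Sequences of points of bounded complexity.** -/
theorem dense_rat (n D r e q : ℕ) : ∃ B : ℕ, ∀ (L : Type) [Field L] [CharZero L] [IsAlgClosed L]
    (I : Ideal (MvPolynomial (Fin (n + 1)) L)), CutBy I D →
    ∀ x : ℕ → Fin (n + 1) → L, ORec r e q x → (∀ m, OnV I (x m)) →
      (∃ J : Finset ℕ, J.card ≤ B ∧ ∀ m, ¬ OnCurve I B (x m) → ∃ i ∈ J, Par (x i) (x m)) ∧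
      (I.IsPrime → (∀ F : MvPolynomial (Fin (n + 1)) L, (∃ d, F.IsHomogeneous d) →
          (∀ m, eval (x m) F = 0) → F ∈ I) →
        (∃ y z, OnV I y ∧ OnV I z ∧ ¬ Par y z) → ∀ y, OnV I y → OnCurve I B y) ∧
      ((∀ F : MvPolynomial (Fin (n + 1)) L, (∃ d, F.IsHomogeneous d) →
          (∃ M, ∀ m, M ≤ m → eval (x m) F = 0) → ∀ y, OnV I y → eval y F = 0) →
        (∀ i, {m | Par (x i) (x m)}.Finite) → ∀ y, OnV I y → OnCurve I B y) := by
  classical
  obtain ⟨B, hB⟩ := off_alg n D r e q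
  refine ⟨B, fun L _ _ _ I hI x hx hX => ?_⟩
  set S : Set (MvPolynomial (Fin (n + 1)) L) := {F | F ∈ I ∧ ∃ e, e ≤ D ∧ F.IsHomogeneous e} with hS
  have hx0 : ∀ m, x m ≠ 0 := fun m => (hX m).1
  have hoff := few_all hx0 (P := fun m => ¬ OnRat S B (x m)) (B := B) fun M =>
    hB L S (fun F hF => hF.2) M x (hx.oseq hx0 M) fun m _ F hF => (hX m).2 F hF.1
  obtain ⟨J, hJ, hJ2⟩ := hoff
  obtain ⟨Gs, hGs1, hGs2⟩ := onRat_locus (S := S) (fun F hF => by
    obtain ⟨e, -, he⟩ := hF.2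
    exact ⟨e, he⟩) B
  refine ⟨⟨J, hJ, fun m hm => hJ2 m fun h => hm (onCurve_of hI h)⟩, fun hp hd hyz => ?_,
    fun hd hfin => ?_⟩
  · obtain ⟨y, z, hy, hz, hyz⟩ := hyz
    have hlin : ∀ i, ∃ u v, (C (x i u) * X v - C (x i v) * X u : MvPolynomial (Fin (n + 1)) L) ∉ I := by
      intro i
      by_contra hcon
      push Not at hcon
      apply hyz
      have h1 : ∀ w, OnV I w → Par (x i) w := by
        intro w hw u v
        have h2 := hw.2 _ (hcon u v)
        rw [lin_eval] at h2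
        exact sub_eq_zero.1 h2
      exact (h1 y hy).symm.trans (hx0 i) (h1 z hz)
    choose u v huv using hlin
    have hG : ∀ G ∈ Gs, G ∈ I := by
      intro G hG
      have h1 : G * ∏ i ∈ J, (C (x i (u i)) * X (v i) - C (x i (v i)) * X (u i)) ∈ I := by
        obtain ⟨d, hGd⟩ := hGs1 G hG
        refine hd _ ⟨d + ∑ i ∈ J, 1, hGd.mul (IsHomogeneous.prod J _ _ fun i _ => lin_hom _ _ _)⟩
          fun m => ?_
        rw [map_mul, map_prod]
        by_cases hm : OnRat S B (x m)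
        · rw [(hGs2 _ (hx0 m)).2 hm G hG, zero_mul]
        · obtain ⟨i, hi, hs⟩ := hJ2 m hm
          rw [Finset.prod_eq_zero hi, mul_zero]
          rw [lin_eval, sub_eq_zero]
          exact hs _ _
      rcases hp.mem_or_mem h1 with h2 | h2
      · exact h2
      · obtain ⟨i, -, h3⟩ := (hp.prod_mem_iff).1 h2
        exact absurd h3 (huv i)
    exact fun w hw => onCurve_of hI ((hGs2 w hw.1).1 fun G hG' => hw.2 G (hG G hG'))
  · intro w hw
    refine onCurve_of hI ((hGs2 w hw.1).1 fun G hG => hd G (hGs1 G hG) ?_ w hw)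
    have hfin2 : (⋃ i ∈ J, {m | Par (x i) (x m)}).Finite :=
      Set.Finite.biUnion J.finite_toSet fun i _ => hfin i
    obtain ⟨M, hM⟩ := hfin2.bddAbove
    refine ⟨M + 1, fun m hm => ?_⟩
    by_contra hG0
    have h1 : ¬ OnRat S B (x m) := fun h => hG0 ((hGs2 _ (hx0 m)).2 h G hG)
    obtain ⟨i, hi, hs⟩ := hJ2 m h1
    have h2 := hM (Set.mem_biUnion (x := i) hi hs)
    omega

end Pool.Agent.Q309.OFF
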