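import Pool.Agent.Q309.OFF.Main
import Pool.Agent.Q1.SL.MordK
import Pool.Agent.Q171.RC.GenHyp

/-!
The number of points off the rational curves, over algebraically closed fields of characteristic zero.
-/

set_option autoImplicit false

namespace Pool.Agent.Q309.OFF

open MvPolynomial Filter
open Pool.Agent.Q309.DU
open Pool.Agent.Q309.PO
open Pool.Agent.Q309.TP (Same)
open Pool.Agent.Q309.DF (exists_sub rel_embed)
open Pool.Agent.Q1.SL
open Pool.Agent.H533R3.SL (Uniruled)
open Pool.Agent.Y377.ST (ptsOff)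
open Pool.Agent.Q171.RC (OnRat RatInG bde NC HasPt ev)

variable {n : ℕ}

/-- There are at most `N` different points among the points `x 0, ..., x M` outside of `G = 0`. -/
def FewOff {L : Type} [Field L] (N M : ℕ) (G : MvPolynomial (Fin (n + 1)) L)
    (x : ℕ → Fin (n + 1) → L) : Prop :=
  ∃ I : Finset ℕ, I.card ≤ N ∧ ∀ m ≤ M, eval (x m) G ≠ 0 →
    ∃ i ∈ I, i ≤ M ∧ ∀ u v, x i u * x m v = x i v * x m u

/-- **A form over the field of definition.** -/
theorem exists_off {k1 : Type} [Field k1] [Countable k1] [Algebra k1 ℂ]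
    (FF : Set (MvPolynomial (Fin (n + 1)) k1)) (hhom : ∀ F ∈ FF, ∃ e, F.IsHomogeneous e)
    (hprime : (Ideal.span FF).IsPrime) (hnu : ¬ Uniruled (Ideal.span FF)) (N : ℕ) :
    ∃ G : MvPolynomial (Fin (n + 1)) k1, (∃ e, G.IsHomogeneous e) ∧ G ∉ Ideal.span FF ∧
      ∀ x : Fin (n + 1) → ℂ, x ≠ 0 →
        OnRat ((map (algebraMap k1 ℂ)) '' FF) N x → eval x (map (algebraMap k1 ℂ) G) = 0 := by
  classical
  obtain ⟨Gs, hGs1, hGs2⟩ := Pool.Agent.Q171.RC.locus (k := k1) (σ := Fin 0) (N := n + 1) ℂ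
    ((map (C : k1 →+* MvPolynomial (Fin 0) k1)) '' FF) (by
      rintro _ ⟨F, hF, rfl⟩
      obtain ⟨e, he⟩ := hhom F hF
      exact ⟨e, he.map _⟩) N
  let t0 : Fin 0 → ℂ := Fin.elim0
  have hev : (ev t0 : MvPolynomial (Fin 0) k1 →+* ℂ).comp C = algebraMap k1 ℂ := by
    ext a
    change aeval t0 (C a) = _
    rw [aeval_C]
  have hmap : ∀ F : MvPolynomial (Fin (n + 1)) k1,
      map (ev t0 : MvPolynomial (Fin 0) k1 →+* ℂ) (map C F) = map (algebraMap k1 ℂ) F := by
    intro F
    rw [MvPolynomial.map_map, hev]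
  have hCc : ∀ g : MvPolynomial (Fin 0) k1, C (constantCoeff g) = g := by
    intro g
    exact (eq_C_of_isEmpty g).symm
  have hmapG : ∀ G : MvPolynomial (Fin (n + 1)) (MvPolynomial (Fin 0) k1),
      map (algebraMap k1 ℂ) (map constantCoeff G) =
        map (ev t0 : MvPolynomial (Fin 0) k1 →+* ℂ) G := by
    intro G
    have h1 : (algebraMap k1 ℂ).comp (constantCoeff : MvPolynomial (Fin 0) k1 →+* k1) =
        (ev t0 : MvPolynomial (Fin 0) k1 →+* ℂ) := by
      refine MvPolynomial.ringHom_ext (fun a => ?_) fun i => i.elim0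
      change algebraMap k1 ℂ (constantCoeff (C a)) = aeval t0 (C a)
      rw [constantCoeff_C, aeval_C]
    rw [MvPolynomial.map_map, h1]
  have hpt : ∀ x : Fin (n + 1) → ℂ, OnRat ((map (algebraMap k1 ℂ)) '' FF) N x ↔
      HasPt (ev t0 : MvPolynomial (Fin 0) k1 →+* ℂ)
        ((map (C : k1 →+* MvPolynomial (Fin 0) k1)) '' FF) N x := by
    intro x
    constructor
    · rintro ⟨p, h1, h2, h3, h4⟩
      refine ⟨p, h1, h2, ?_, h4⟩
      rintro _ ⟨F, hF, rfl⟩
      rw [hmap]
      exact h3 _ ⟨F, hF, rfl⟩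
    · rintro ⟨p, h1, h2, h3, h4⟩
      refine ⟨p, h1, h2, ?_, h4⟩
      rintro _ ⟨F, hF, rfl⟩
      rw [← hmap]
      exact h3 _ ⟨F, hF, rfl⟩
  have hloc : ∀ x : Fin (n + 1) → ℂ, x ≠ 0 →
      ((∀ G ∈ Gs, eval x (map (algebraMap k1 ℂ) (map constantCoeff G)) = 0) ↔
        OnRat ((map (algebraMap k1 ℂ)) '' FF) N x) := by
    intro x hx
    rw [hpt, ← hGs2 t0 x hx]
    constructor
    · intro h G hG
      rw [← hmapG]
      exact h G hG
    · intro h G hG
      rw [hmapG]
      exact h G hG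
  -- the generic point
  have hdom : IsDomain (MvPolynomial (Fin (n + 1)) k1 ⧸ Ideal.span FF) :=
    Ideal.Quotient.isDomain _
  have hcT : Countable (MvPolynomial (Fin (n + 1)) k1) := by
    have h1 : Cardinal.mk (MvPolynomial (Fin (n + 1)) k1) ≤ Cardinal.aleph0 := by
      refine MvPolynomial.cardinalMk_le_max.trans ?_
      refine max_le (max_le ?_ ?_) le_rfl
      · exact Cardinal.mk_le_aleph0
      · exact Cardinal.mk_le_aleph0
    exact Cardinal.mk_le_aleph0_iff.1 h1
  have hcQ : Countable (MvPolynomial (Fin (n + 1)) k1 ⧸ Ideal.span FF) :=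
    Ideal.Quotient.mk_surjective.countable
  have hcL : Countable (FractionRing (MvPolynomial (Fin (n + 1)) k1 ⧸ Ideal.span FF)) := by
    have h1 : Function.Surjective fun w : (MvPolynomial (Fin (n + 1)) k1 ⧸ Ideal.span FF) ×
        (nonZeroDivisors (MvPolynomial (Fin (n + 1)) k1 ⧸ Ideal.span FF)) =>
        IsLocalization.mk' (FractionRing (MvPolynomial (Fin (n + 1)) k1 ⧸ Ideal.span FF))
          w.1 w.2 := by
      intro z
      obtain ⟨a, s, h⟩ := IsLocalization.exists_mk'_eq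
        (nonZeroDivisors (MvPolynomial (Fin (n + 1)) k1 ⧸ Ideal.span FF)) z
      exact ⟨(a, s), h⟩
    exact h1.countable
  obtain ⟨ψ⟩ := rel_embed k1 (FractionRing (MvPolynomial (Fin (n + 1)) k1 ⧸ Ideal.span FF))
  let E : MvPolynomial (Fin (n + 1)) k1 →ₐ[k1] ℂ := ψ.comp ((IsScalarTower.toAlgHom k1
    (MvPolynomial (Fin (n + 1)) k1 ⧸ Ideal.span FF)
    (FractionRing (MvPolynomial (Fin (n + 1)) k1 ⧸ Ideal.span FF))).comp
    (Ideal.Quotient.mkₐ k1 (Ideal.span FF)))
  have hE : ∀ f, E f = 0 ↔ f ∈ Ideal.span FF := by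
    intro f
    change ψ (algebraMap (MvPolynomial (Fin (n + 1)) k1 ⧸ Ideal.span FF)
      (FractionRing (MvPolynomial (Fin (n + 1)) k1 ⧸ Ideal.span FF))
        (Ideal.Quotient.mk (Ideal.span FF) f)) = 0 ↔ _
    rw [map_eq_zero_iff ψ ψ.toRingHom.injective,
      map_eq_zero_iff _ (IsFractionRing.injective (MvPolynomial (Fin (n + 1)) k1 ⧸ Ideal.span FF)
        (FractionRing (MvPolynomial (Fin (n + 1)) k1 ⧸ Ideal.span FF))),
      Ideal.Quotient.eq_zero_iff_mem]
  let x : Fin (n + 1) → ℂ := fun j => E (X j)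
  have hxE : ∀ f : MvPolynomial (Fin (n + 1)) k1, aeval x f = E f := by
    intro f
    have h1 : (aeval x : MvPolynomial (Fin (n + 1)) k1 →ₐ[k1] ℂ) = E := by
      refine MvPolynomial.algHom_ext fun j => ?_
      rw [aeval_X]
    rw [h1]
  have hxe : ∀ f : MvPolynomial (Fin (n + 1)) k1, eval x (map (algebraMap k1 ℂ) f) = E f := by
    intro f
    rw [← hxE, eval_map]
    rfl
  by_cases hx0 : x = 0
  · refine ⟨1, ⟨0, isHomogeneous_one _ _⟩,
      fun h => hprime.ne_top ((Ideal.eq_top_iff_one _).2 h), fun y _ hy => ?_⟩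
    exfalso
    obtain ⟨p, ⟨s, t, i, j, hst⟩, h2, h3, h4⟩ := hy
    have h5 : ∀ f ∈ Ideal.span FF, aeval p (map (algebraMap k1 ℂ) f) = 0 := by
      intro f hf
      have h6 : Ideal.span FF ≤ RingHom.ker
          ((aeval p : MvPolynomial (Fin (n + 1)) ℂ →ₐ[ℂ] Polynomial ℂ).toRingHom.comp
            (map (algebraMap k1 ℂ))) := by
        rw [Ideal.span_le]
        intro F hF
        exact h3 _ ⟨F, hF, rfl⟩
      exact h6 hf
    have h6 : ∀ j, p j = 0 := by
      intro j
      have h7 := h5 (X j) ((hE _).1 (congrFun hx0 j))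
      rwa [map_X, aeval_X] at h7
    apply hst
    rw [h6 i, h6 j, Polynomial.eval_zero, Polynomial.eval_zero]
  by_contra hcon
  push Not at hcon
  have hall : ∀ G ∈ Gs, map constantCoeff G ∈ Ideal.span FF := by
    intro G hG
    by_contra hGI
    obtain ⟨d, hd⟩ := hGs1 G hG
    obtain ⟨y, hy0, hy1, hy2⟩ := hcon (map constantCoeff G) ⟨d, hd.map _⟩ hGI
    exact hy2 ((hloc y hy0).2 hy1 G hG)
  obtain ⟨p, ⟨s, t, i, j, hst⟩, h2, h3, h4⟩ := (hloc x hx0).1 fun G hG => by
    rw [hxe, hE]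
    exact hall G hG
  apply hnu
  let q : Fin (n + 1) → Polynomial ℂ := fun j => (p j).comp (Polynomial.X - Polynomial.C 1)
  have hqe : ∀ j a, (q j).eval a = (p j).eval (a - 1) := by
    intro j a
    rw [Polynomial.eval_comp, Polynomial.eval_sub, Polynomial.eval_X, Polynomial.eval_C]
  have hq1 : ∀ j, (q j).eval 1 = x j := by
    intro j
    rw [hqe, sub_self, h4]
  refine ⟨ℂ, inferInstance, inferInstance, q, fun F hF => ?_, fun G hG hGI => ?_, ?_⟩
  · have h6 : Ideal.span FF ≤ RingHom.ker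
        (aeval q : MvPolynomial (Fin (n + 1)) k1 →ₐ[k1] Polynomial ℂ) := by
      rw [Ideal.span_le]
      intro F hF
      have h7 := h3 _ ⟨F, hF, rfl⟩
      rw [aeval_map_algebraMap] at h7
      have h8 : q = fun j => Polynomial.compRingHom (Polynomial.X - Polynomial.C 1) (p j) := rfl
      change aeval q F = 0
      have h9 : aeval q F = (Polynomial.aeval (Polynomial.X - Polynomial.C (1 : ℂ)) :
          Polynomial ℂ →ₐ[ℂ] Polynomial ℂ).restrictScalars k1 (aeval p F) := by
        rw [MvPolynomial.comp_aeval_apply]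
        rfl
      rw [h9, h7, map_zero]
    exact h6 hF
  · have h6 : (fun i => (q i).eval 1) = x := funext hq1
    rw [h6, hxE]
    exact fun h0 => hGI ((hE _).1 h0)
  · by_contra hno
    push Not at hno
    obtain ⟨l, hl⟩ := Function.ne_iff.1 hx0
    rw [Pi.zero_apply] at hl
    have h6 : ∀ i a, (p i).eval a * x l = (p l).eval a * x i := by
      intro i a
      have h7 := congrArg (Polynomial.eval (a + 1)) (hno i l)
      rw [Polynomial.eval_mul, Polynomial.eval_mul, Polynomial.eval_C, Polynomial.eval_C, hq1,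
        hq1, hqe, hqe, add_sub_cancel_right] at h7
      exact h7
    apply hst
    have h7 : ((p i).eval s * (p j).eval t - (p j).eval s * (p i).eval t) * (x l * x l) = 0 := by
      have e1 := h6 i s
      have e2 := h6 j t
      have e3 := h6 j s
      have e4 := h6 i t
      linear_combination (p j).eval t * x l * e1 + (p l).eval s * x i * e2 -
        (p i).eval t * x l * e3 - (p l).eval s * x j * e4
    rcases mul_eq_zero.1 h7 with h8 | h8
    · exact sub_eq_zero.1 h8
    · exact absurd (mul_self_eq_zero.1 h8) hl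

end Pool.Agent.Q309.OFF
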