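import Pool.Agent.Q309.OFF.Img

/-!
Germs of analytic curves over normed fields given by linear functional equations: the images of their
Zariski closures are points or covered by rational curves.
-/

set_option autoImplicit false

namespace Pool.Agent.Q309.OFF

open MvPolynomial Filter Topology
open Pool.Agent.Q309.PO (OSeq)
open Pool.Agent.Q171.RC (OnRat)
open Pool.Agent.Results.MP_0e7dfd_ag.RecursiveOrbits (Rec)

variable {n s : ℕ} {K : Type} [NontriviallyNormedField K]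

/-- The ideal of the Zariski closure of the germ of curve `h` at `0`: the polynomials which vanish
at `h z` for all `z` near `0`. -/
noncomputable def germIdeal (h : K → Fin (n + 1) → K) : Ideal (MvPolynomial (Fin (n + 1)) K) where
  carrier := {F | ∀ᶠ z in 𝓝 (0 : K), eval (h z) F = 0}
  zero_mem' := by simp
  add_mem' := fun {F G} hF hG => by
    have hF' : ∀ᶠ z in 𝓝 (0 : K), eval (h z) F = 0 := hF
    have hG' : ∀ᶠ z in 𝓝 (0 : K), eval (h z) G = 0 := hG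
    change ∀ᶠ z in 𝓝 (0 : K), eval (h z) (F + G) = 0
    filter_upwards [hF', hG'] with z h1 h2
    rw [map_add, h1, h2, add_zero]
  smul_mem' := fun c F hF => by
    have hF' : ∀ᶠ z in 𝓝 (0 : K), eval (h z) F = 0 := hF
    change ∀ᶠ z in 𝓝 (0 : K), eval (h z) (c • F) = 0
    filter_upwards [hF'] with z h1
    rw [smul_eq_mul, map_mul, h1, mul_zero]

theorem germ_an {h : K → Fin (n + 1) → K} (hh : ∀ j, AnalyticAt K (fun z => h z j) 0)
    (F : MvPolynomial (Fin (n + 1)) K) : AnalyticAt K (fun z => eval (h z) F) 0 :=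
  AnalyticAt.aeval_mvPolynomial (f := fun z => h z) hh F

theorem germ_freq {h : K → Fin (n + 1) → K} (hh : ∀ j, AnalyticAt K (fun z => h z j) 0)
    {w : ℕ → K} (hw : Tendsto w atTop (𝓝[≠] 0)) {F : MvPolynomial (Fin (n + 1)) K}
    (hF : F ∉ germIdeal h) : ∀ᶠ m in atTop, eval (h (w m)) F ≠ 0 := by
  rcases (germ_an hh F).eventually_eq_zero_or_eventually_ne_zero with h1 | h1
  · exact absurd h1 hF
  · exact hw.eventually h1

theorem germ_mem {h : K → Fin (n + 1) → K} {w : ℕ → K} (hw : Tendsto w atTop (𝓝[≠] 0))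
    {F : MvPolynomial (Fin (n + 1)) K} (hF : F ∈ germIdeal h) :
    ∀ᶠ m in atTop, eval (h (w m)) F = 0 := by
  have hF' : ∀ᶠ z in 𝓝 (0 : K), eval (h z) F = 0 := hF
  exact (hw.mono_right nhdsWithin_le_nhds).eventually hF'

/-- **Germs of curves.** -/
theorem germ_image [CharZero K] [IsAlgClosed K] {h : K → Fin (n + 1) → K}
    (hh : ∀ j, AnalyticAt K (fun z => h z j) 0) {σ t : K → K} {c : ℝ} (hc : c < 1)
    {ρ : Polynomial K} (hσ : ∀ᶠ z in 𝓝[≠] (0 : K), σ z ≠ 0 ∧ ‖σ z‖ ≤ c * ‖z‖ ∧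
      t (σ z) = ρ.eval (t z)) (ht : ∃ U ∈ 𝓝[≠] (0 : K), Set.InjOn t U)
    (hrec : ∀ j, ∃ (r : ℕ) (P : ℕ → Polynomial K), (∃ i ≤ r, P i ≠ 0) ∧
      ∀ᶠ z in 𝓝[≠] (0 : K), ∑ i ∈ Finset.range (r + 1), (P i).eval (t z) * h (σ^[i] z) j = 0)
    {Φ : Fin (s + 1) → MvPolynomial (Fin (n + 1)) K} (hΦp : ∃ u, Φ u ∉ germIdeal h) :
    (∃ a : Fin (s + 1) → K, a ≠ 0 ∧ ∀ u v, C (a u) * Φ v - C (a v) * Φ u ∈ germIdeal h) ∨
      ∃ B, ∀ y, OnV (ImIdeal (germIdeal h) Φ) y → OnCurve (ImIdeal (germIdeal h) Φ) B y := by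
  classical
  obtain ⟨u0, hu0⟩ := hΦp
  obtain ⟨U, hU, hUi⟩ := ht
  choose r P hP hrec using hrec
  have hev : ∀ᶠ z in 𝓝[≠] (0 : K), (σ z ≠ 0 ∧ ‖σ z‖ ≤ c * ‖z‖ ∧ t (σ z) = ρ.eval (t z)) ∧
      z ∈ U ∧ ∀ j, ∑ i ∈ Finset.range (r j + 1), (P j i).eval (t z) * h (σ^[i] z) j = 0 :=
    hσ.and ((eventually_mem_set.2 hU).and (eventually_all.2 hrec))
  obtain ⟨δ, hδ, hball⟩ := (Metric.nhdsWithin_basis_ball (x := (0 : K))).mem_iff.1 hev
  have hb : ∀ z : K, z ≠ 0 → ‖z‖ < δ → (σ z ≠ 0 ∧ ‖σ z‖ ≤ c * ‖z‖ ∧ t (σ z) = ρ.eval (t z)) ∧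
      z ∈ U ∧ ∀ j, ∑ i ∈ Finset.range (r j + 1), (P j i).eval (t z) * h (σ^[i] z) j = 0 :=
    fun z h1 h2 => hball ⟨by simpa using h2, h1⟩
  obtain ⟨z0, hz0, hz0δ⟩ := NormedField.exists_norm_lt K hδ
  have hc0 : 0 < c := by
    have h1 := (hb z0 (norm_pos_iff.1 hz0) hz0δ).1
    have h2 := norm_pos_iff.2 h1.1
    by_contra hcon
    nlinarith [h1.2.1]
  let w : ℕ → K := fun m => σ^[m] z0
  have hws : ∀ m, w (m + 1) = σ (w m) := fun m => Function.iterate_succ_apply' σ m z0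
  have hw : ∀ m, w m ≠ 0 ∧ ‖w m‖ ≤ c ^ m * ‖z0‖ := by
    intro m
    induction m with
    | zero => exact ⟨norm_pos_iff.1 hz0, by simp [w]⟩
    | succ m ih =>
      have h1 : ‖w m‖ < δ := by
        refine lt_of_le_of_lt (ih.2.trans ?_) hz0δ
        exact mul_le_of_le_one_left (norm_nonneg _) (pow_le_one₀ hc0.le hc.le)
      have h2 := (hb _ ih.1 h1).1
      rw [hws]
      refine ⟨h2.1, h2.2.1.trans ?_⟩
      rw [pow_succ']
      rw [mul_assoc]
      exact mul_le_mul_of_nonneg_left ih.2 hc0.le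
  have hwδ : ∀ m, ‖w m‖ < δ := by
    intro m
    refine lt_of_le_of_lt ((hw m).2.trans ?_) hz0δ
    exact mul_le_of_le_one_left (norm_nonneg _) (pow_le_one₀ hc0.le hc.le)
  have hcond := fun m => hb (w m) (hw m).1 (hwδ m)
  have hlim : Tendsto w atTop (𝓝[≠] 0) := by
    refine tendsto_nhdsWithin_iff.2 ⟨?_, Eventually.of_forall fun m => (hw m).1⟩
    rw [tendsto_zero_iff_norm_tendsto_zero]
    refine squeeze_zero (fun m => norm_nonneg _) (fun m => (hw m).2) ?_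
    have h1 := (tendsto_pow_atTop_nhds_zero_of_lt_one hc0.le hc).mul_const ‖z0‖
    rwa [zero_mul] at h1
  have hanti : StrictAnti fun m => ‖w m‖ := by
    refine strictAnti_nat_of_succ_lt fun m => ?_
    rw [hws]
    refine lt_of_le_of_lt (hcond m).1.2.1 ?_
    have := norm_pos_iff.2 (hw m).1
    nlinarith
  have hwinj : Function.Injective w := fun a b hab => hanti.injective (congrArg norm hab)
  let τ : ℕ → K := fun m => t (w m)
  have hτ : Function.Injective τ := fun a b hab =>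
    hwinj (hUi (hcond a).2.1 (hcond b).2.1 hab)
  have hρ : ∀ m, τ (m + 1) = ρ.eval (τ m) := by
    intro m
    change t (w (m + 1)) = _
    rw [hws]
    exact (hcond m).1.2.2
  let x : ℕ → Fin (n + 1) → K := fun m => h (w m)
  have hxrec : ∀ j, Rec τ fun m => x m j := by
    intro j
    refine ⟨r j, P j, hP j, fun m => ?_⟩
    rw [← (hcond m).2.2 j]
    refine Finset.sum_congr rfl fun i _ => ?_
    change (P j i).eval (t (w m)) * h (w (m + i)) j = (P j i).eval (t (w m)) * h (σ^[i] (w m)) j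
    have h1 : w (m + i) = σ^[i] (w m) := by
      change σ^[m + i] z0 = σ^[i] (σ^[m] z0)
      rw [← Function.iterate_add_apply, add_comm]
    rw [h1]
  -- the image
  have hfg : (ImIdeal (germIdeal h) Φ).FG := IsNoetherian.noetherian _
  obtain ⟨S1, hS1, hS2⟩ := (Submodule.fg_span_iff_fg_span_finset_subset _).1 hfg
  have hS3 : Ideal.span (S1 : Set (MvPolynomial (Fin (s + 1)) K)) = ImIdeal (germIdeal h) Φ :=
    hS2.symm
  let D : ℕ := S1.sup fun G => G.totalDegree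
  have hD : ∀ G ∈ S1, ∃ e, e ≤ D ∧ G.IsHomogeneous e := by
    intro G hG
    obtain ⟨⟨e, he⟩, -⟩ := hS1 hG
    by_cases h0 : G = 0
    · exact ⟨0, Nat.zero_le _, h0 ▸ isHomogeneous_zero _ _ _⟩
    · refine ⟨e, ?_, he⟩
      rw [← he.totalDegree h0]
      exact Finset.le_sup (f := fun G : MvPolynomial (Fin (s + 1)) K => G.totalDegree) hG
  let z : ℕ → Fin (s + 1) → K := fun m u => eval (x m) (Φ u)
  obtain ⟨r', e', hre⟩ := oseq_window hτ hρ (z := z) fun u => rec_form hτ hρ hxrec (Φ u)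
  obtain ⟨N, hN⟩ := off_alg s D r' e' ρ.natDegree
  obtain ⟨Gs, hGs1, hGs2⟩ := onRat_locus (S := (S1 : Set (MvPolynomial (Fin (s + 1)) K)))
    (fun G hG => (hS1 hG).1) N
  by_cases hall : ∀ G ∈ Gs, aeval Φ G ∈ germIdeal h
  · right
    exact ⟨N, fun y hy => onCurve_of hS3.ge ((hGs2 y hy.1).1 fun G hG =>
      hy.2 G (Ideal.subset_span ⟨hGs1 G hG, hall G hG⟩))⟩
  left
  push Not at hall
  obtain ⟨G0, hG0, hG0p⟩ := hall
  obtain ⟨m1, hm1⟩ := eventually_atTop.1 ((germ_freq hh hlim hu0).and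
    ((germ_freq hh hlim hG0p).and ((Finset.eventually_all S1).2 fun G hG =>
      germ_mem hlim (hS1 hG).2)))
  have hz0 : ∀ m, z (m1 + m) ≠ 0 := fun m h0 => (hm1 _ (Nat.le_add_right m1 m)).1 (congrFun h0 u0)
  obtain ⟨J, -, hJ2⟩ := few_all (x := fun m => z (m1 + m)) hz0
    (P := fun m => ¬ OnRat (S1 : Set (MvPolynomial (Fin (s + 1)) K)) N (z (m1 + m))) (B := N)
    fun M => hN K (S1 : Set (MvPolynomial (Fin (s + 1)) K)) hD M (fun m => z (m1 + m))
      (hre m1 M fun m _ => hz0 m) fun m _ G hG => by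
        have h1 := (hm1 _ (Nat.le_add_right m1 m)).2.2 G hG
        rwa [ev_aev] at h1
  have hex : ∀ m, ∃ i ∈ J, Par (z (m1 + i)) (z (m1 + m)) := by
    intro m
    refine hJ2 m fun hon => ?_
    have h1 := (hm1 _ (Nat.le_add_right m1 m)).2.1
    rw [ev_aev] at h1
    exact h1 ((hGs2 _ (hz0 m)).2 hon G0 hG0)
  obtain ⟨i, hi, hfr⟩ : ∃ i ∈ J, ∃ᶠ m in atTop, Par (z (m1 + i)) (z (m1 + m)) := by
    by_contra hcon
    push Not at hcon
    have h1 : ∀ᶠ m : ℕ in atTop, ∀ i ∈ J, ¬ Par (z (m1 + i)) (z (m1 + m)) :=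
      (Finset.eventually_all J).2 fun i hi => hcon i hi
    obtain ⟨m, hm⟩ := h1.exists
    obtain ⟨i, hi, h2⟩ := hex m
    exact hm i hi h2
  refine ⟨z (m1 + i), hz0 i, fun u v => ?_⟩
  by_contra hcon
  have h1 := germ_freq hh hlim hcon
  have h2 : ∀ᶠ m : ℕ in atTop, eval (h (w (m1 + m)))
      (C (z (m1 + i) u) * Φ v - C (z (m1 + i) v) * Φ u) ≠ 0 :=
    (tendsto_add_atTop_nat m1).eventually h1 |>.mono fun m hm => by rwa [add_comm m1 m]
  obtain ⟨m, hm, hm'⟩ := (hfr.and_eventually h2).exists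
  apply hm'
  rw [map_sub, map_mul, map_mul, eval_C, eval_C, sub_eq_zero]
  exact hm u v

end Pool.Agent.Q309.OFF
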