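import Mathlib

/-!
Semilinear endomorphisms of polynomial rings: relations which hold along the tail of an orbit hold
along the whole orbit.
-/

set_option autoImplicit false

namespace Pool.Agent.Q309.OFF

open MvPolynomial

/-- Coefficientwise maps preserve linear independence. -/
theorem li_map' {F F' κ : Type} [Field F] [Field F'] [Algebra F F'] {s : ℕ}
    {v : Fin s → MvPolynomial κ F} (hv : LinearIndependent F v) :
    LinearIndependent F' fun i => MvPolynomial.map (algebraMap F F') (v i) := by
  classical
  let T : Finset (κ →₀ ℕ) := Finset.univ.biUnion fun i => (v i).support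
  have hT : ∀ i m, m ∉ T → (v i).coeff m = 0 := by
    intro i m hm
    by_contra h0
    exact hm (Finset.mem_biUnion.2 ⟨i, Finset.mem_univ _, mem_support_iff.2 h0⟩)
  have h1 : LinearIndependent F fun (i : Fin s) (m : T) => (v i).coeff m := by
    rw [Fintype.linearIndependent_iff] at hv ⊢
    intro g hg
    refine hv g ?_
    ext m
    rw [coeff_sum, coeff_zero]
    by_cases hm : m ∈ T
    · have h2 := congrFun hg ⟨m, hm⟩
      rw [Finset.sum_apply, Pi.zero_apply] at h2
      rw [← h2]
      exact Finset.sum_congr rfl fun i _ => by rw [coeff_smul, Pi.smul_apply]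
    · exact Finset.sum_eq_zero fun i _ => by rw [coeff_smul, hT i m hm, smul_zero]
  have h2 := (linearIndependent_algebraMap_comp_iff (R := F) (S := F')
    (v := fun (i : Fin s) (m : T) => (v i).coeff m)).2 h1
  rw [Fintype.linearIndependent_iff] at h2 ⊢
  intro g hg
  refine h2 g ?_
  funext m
  have h3 := congrArg (coeff (m : κ →₀ ℕ)) hg
  rw [coeff_sum, coeff_zero] at h3
  rw [Finset.sum_apply, Pi.zero_apply, ← h3]
  refine Finset.sum_congr rfl fun i _ => ?_
  rw [coeff_smul, coeff_map, Pi.smul_apply]
  rfl

theorem li_map {F κ : Type} [Field F] (σ : F →+* F) {s : ℕ}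
    {v : Fin s → MvPolynomial κ F} (hv : LinearIndependent F v) :
    LinearIndependent F fun i => MvPolynomial.map σ (v i) :=
  @li_map' F F κ _ _ σ.toAlgebra s v hv

theorem deg_map {F κ : Type} [Field F] (σ : F →+* F)
    {α : MvPolynomial κ F →ₐ[F] MvPolynomial κ F} (hα : ∀ k, (α (X k)).IsHomogeneous 1)
    {D : ℕ} {f : MvPolynomial κ F} (hf : f.totalDegree ≤ D) :
    (α (MvPolynomial.map σ f)).totalDegree ≤ D := by
  have hα' : α = aeval fun k => α (X k) := by
    refine MvPolynomial.algHom_ext fun k => ?_
    rw [aeval_X]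
  have h1 : α (MvPolynomial.map σ f) = ∑ d ∈ Finset.range (f.totalDegree + 1),
      α (MvPolynomial.map σ (homogeneousComponent d f)) := by
    rw [← map_sum, ← map_sum, sum_homogeneousComponent]
  rw [h1]
  refine (totalDegree_finsetSum _ _).trans (Finset.sup_le fun d hd => ?_)
  have h2 : (homogeneousComponent d f).IsHomogeneous d := homogeneousComponent_isHomogeneous d f
  have h3 : (MvPolynomial.map σ (homogeneousComponent d f)).IsHomogeneous d := h2.map σ
  have h4 : (α (MvPolynomial.map σ (homogeneousComponent d f))).IsHomogeneous (1 * d) := by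
    rw [hα']
    exact h3.aeval _ hα
  rw [one_mul] at h4
  exact h4.totalDegree_le.trans (by
    have := Finset.mem_range.1 hd
    omega)

/-- **Relations along the tail.** -/
theorem tail_rel {F κ A : Type} [Field F] [Finite κ] [CommRing A] (σ : F →+* F)
    {α β : MvPolynomial κ F →ₐ[F] MvPolynomial κ F} (hβ : ∀ f, β (α f) = f)
    (hα : ∀ k, (α (X k)).IsHomogeneous 1) (ev : ℕ → MvPolynomial κ F →+* A)
    (hev : ∀ j f, ev (j + 1) f = ev j (α (MvPolynomial.map σ f))) (f : MvPolynomial κ F)
    (hf : ∀ j, ev (j + 1) f = 0) : ev 0 f = 0 := by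
  classical
  let V := restrictTotalDegree κ F f.totalDegree
  let W : Submodule F (MvPolynomial κ F) :=
    { carrier := {g | g ∈ V ∧ ∀ j, ev (j + 1) g = 0}
      add_mem' := fun ha hb => ⟨V.add_mem ha.1 hb.1, fun j => by
        rw [map_add, ha.2, hb.2, add_zero]⟩
      zero_mem' := ⟨V.zero_mem, fun j => map_zero _⟩
      smul_mem' := fun c g hg => ⟨V.smul_mem c hg.1, fun j => by
        rw [smul_eq_C_mul, map_mul, hg.2, mul_zero]⟩ }
  let W0 : Submodule F (MvPolynomial κ F) :=
    { carrier := {g | g ∈ V ∧ ∀ j, ev j g = 0}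
      add_mem' := fun ha hb => ⟨V.add_mem ha.1 hb.1, fun j => by
        rw [map_add, ha.2, hb.2, add_zero]⟩
      zero_mem' := ⟨V.zero_mem, fun j => map_zero _⟩
      smul_mem' := fun c g hg => ⟨V.smul_mem c hg.1, fun j => by
        rw [smul_eq_C_mul, map_mul, hg.2, mul_zero]⟩ }
  have hWV : W ≤ V := fun g hg => hg.1
  have hW0W : W0 ≤ W := fun g hg => ⟨hg.1, fun j => hg.2 (j + 1)⟩
  have hfinV : Module.Finite F V := inferInstanceAs (Module.Finite F (restrictTotalDegree κ F _))
  have hfW : Module.Finite F W := Module.Finite.of_injective (Submodule.inclusion hWV)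
    (Submodule.inclusion_injective hWV)
  have hfW0 : Module.Finite F W0 := Module.Finite.of_injective (Submodule.inclusion hW0W)
    (Submodule.inclusion_injective hW0W)
  have hαinj : Function.Injective α := Function.LeftInverse.injective hβ
  let b := Module.finBasis F W
  have h1 : LinearIndependent F fun i => (b i : MvPolynomial κ F) :=
    b.linearIndependent.map' W.subtype (Submodule.ker_subtype W)
  have h2 := (li_map σ h1).map' α.toLinearMap (LinearMap.ker_eq_bot.2 hαinj)
  have hmem : ∀ i, α (MvPolynomial.map σ (b i : MvPolynomial κ F)) ∈ W0 := by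
    intro i
    refine ⟨?_, fun j => ?_⟩
    · rw [mem_restrictTotalDegree]
      exact deg_map σ hα ((mem_restrictTotalDegree _ _ _).1 (b i).2.1)
    · rw [← hev]
      exact (b i).2.2 j
  have h3 : LinearIndependent F fun i =>
      (⟨α (MvPolynomial.map σ (b i : MvPolynomial κ F)), hmem i⟩ : W0) :=
    LinearIndependent.of_comp W0.subtype h2
  have h4 := h3.fintype_card_le_finrank
  rw [Fintype.card_fin] at h4
  have h5 : W0 = W := Submodule.eq_of_le_of_finrank_le hW0W h4
  have h6 : f ∈ W := ⟨(mem_restrictTotalDegree _ _ _).2 le_rfl, hf⟩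
  rw [← h5] at h6
  exact h6.2 0

end Pool.Agent.Q309.OFF
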