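import Pool.Agent.Q309.OFF.Sel
import Pool.Agent.Q309.PO.Str
import Pool.Agent.Q309.PO.Fld

/-!
The number of points which do not lie on rational curves of bounded degree, in sequences given by
linear recurrences along orbits of polynomials.
-/

set_option autoImplicit false

namespace Pool.Agent.Q309.OFF

open MvPolynomial Filter
open Pool.Agent.Q309.DU
open Pool.Agent.Q309.PO
open Pool.Agent.Q309.TP (Same)
open Pool.Agent.Q1.SL
open Pool.Agent.Q171.RC (OnRat RatInG bde OnRat.zero)

variable {n : ℕ}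

theorem same_smul {v w : Fin (n + 1) → ℂ} (h : Same v w) (hv : v ≠ 0) (hw : w ≠ 0) :
    ∃ c : ℂ, c ≠ 0 ∧ v = fun i => c * w i := by
  obtain ⟨j, hj⟩ := Function.ne_iff.1 hw
  rw [Pi.zero_apply] at hj
  refine ⟨v j / w j, fun h0 => hv ?_, ?_⟩
  · have h1 : v j = 0 := by
      rcases div_eq_zero_iff.1 h0 with h2 | h2
      · exact h2
      · exact absurd h2 hj
    funext i
    have h2 := h i j
    rw [h1, zero_mul] at h2
    exact (mul_eq_zero.1 h2).resolve_right hj
  · funext i
    have h2 := h i j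
    field_simp
    linear_combination h2

theorem onRat_same {S : Set (MvPolynomial (Fin (n + 1)) ℂ)} (hS : ∀ F ∈ S, ∃ e, F.IsHomogeneous e)
    {d : ℕ} {v w : Fin (n + 1) → ℂ} (h : Same v w) (hv : v ≠ 0) (hw : w ≠ 0)
    (h1 : OnRat S d w) : OnRat S d v := by
  obtain ⟨c, hc, rfl⟩ := same_smul h hv hw
  exact h1.smul hS hc

/-- the last points -/
theorem last_points {M : ℕ} {x : ℕ → Fin (n + 1) → ℂ} (hne : ∀ m ≤ M, x m ≠ 0)
    {Pr : (Fin (n + 1) → ℂ) → Prop}
    (hPr : ∀ m m', m ≤ M → m' ≤ M → Same (x m') (x m) → Pr (x m) → Pr (x m')) :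
    ∃ A : Finset ℕ, (∀ w ∈ A, w ≤ M ∧ Pr (x w)) ∧
      (∀ w ∈ A, ∀ k, 0 < k → w + k ≤ M → ¬ Same (x (w + k)) (x w)) ∧
      ∀ m ≤ M, Pr (x m) → ∃ i ∈ A, Same (x i) (x m) := by
  classical
  refine ⟨(Finset.range (M + 1)).filter fun m => Pr (x m) ∧ ∀ k, 0 < k → m + k ≤ M →
    ¬ Same (x (m + k)) (x m), fun w hw => ?_, fun w hw => ?_, fun m hm hm1 => ?_⟩
  · obtain ⟨h1, h2⟩ := Finset.mem_filter.1 hw
    exact ⟨by have := Finset.mem_range.1 h1; omega, h2.1⟩
  · exact (Finset.mem_filter.1 hw).2.2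
  · let T : Finset ℕ := (Finset.range (M + 1)).filter fun i => Same (x i) (x m)
    have hT : T.Nonempty := ⟨m, Finset.mem_filter.2 ⟨Finset.mem_range.2 (by omega),
      fun i j => mul_comm _ _⟩⟩
    obtain ⟨h1, h2⟩ := Finset.mem_filter.1 (T.max'_mem hT)
    have h3 := Finset.mem_range.1 h1
    refine ⟨T.max' hT, Finset.mem_filter.2 ⟨h1, hPr m _ hm (by omega) h2 hm1,
      fun k hk hkM hs => ?_⟩, h2⟩
    have h4 : T.max' hT + k ≤ T.max' hT := Finset.le_max' _ _
      (Finset.mem_filter.2 ⟨Finset.mem_range.2 (by omega),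
        hs.trans (hne _ (by omega)) h2⟩)
    omega

/-- spanning families -/
theorem exists_family (S : Set (MvPolynomial (Fin (n + 1)) ℂ)) (d e : ℕ) :
    ∃ g : ℕ → MvPolynomial (Fin (n + 1)) ℂ, (∀ l, (g l).IsHomogeneous e ∧ RatInG S d (g l)) ∧
      ∀ G', G'.IsHomogeneous e → RatInG S d G' → ∀ x : Fin (n + 1) → ℂ,
        (∀ l < Module.finrank ℂ (restrictTotalDegree (Fin (n + 1)) ℂ e), eval x (g l) = 0) →
          eval x G' = 0 := by
  classical
  let W : Submodule ℂ (MvPolynomial (Fin (n + 1)) ℂ) :=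
    { carrier := {G' | G'.IsHomogeneous e ∧ RatInG S d G'}
      add_mem' := fun ha hb => ⟨ha.1.add hb.1, fun p h1 h2 h3 => by
        rw [map_add, ha.2 p h1 h2 h3, hb.2 p h1 h2 h3, add_zero]⟩
      zero_mem' := ⟨isHomogeneous_zero _ _ _, fun p _ _ _ => map_zero _⟩
      smul_mem' := fun c g hg => ⟨by
        rw [smul_eq_C_mul]
        have h1 := (isHomogeneous_C (Fin (n + 1)) c).mul hg.1
        rwa [zero_add] at h1, fun p h1 h2 h3 => by
        rw [map_smul, hg.2 p h1 h2 h3, smul_zero]⟩ }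
  have hWV : W ≤ restrictTotalDegree (Fin (n + 1)) ℂ e := fun g hg =>
    (mem_restrictTotalDegree _ _ _).2 hg.1.totalDegree_le
  have hfW : Module.Finite ℂ W := Module.Finite.of_injective (Submodule.inclusion hWV)
    (Submodule.inclusion_injective hWV)
  have hrk : Module.finrank ℂ W ≤ Module.finrank ℂ (restrictTotalDegree (Fin (n + 1)) ℂ e) :=
    Submodule.finrank_mono hWV
  let b := Module.finBasis ℂ W
  refine ⟨fun l => if h : l < Module.finrank ℂ W then (b ⟨l, h⟩ : MvPolynomial (Fin (n + 1)) ℂ)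
    else 0, fun l => ?_, fun G' h1 h2 x hx => ?_⟩
  · beta_reduce
    by_cases h : l < Module.finrank ℂ W
    · rw [dif_pos h]
      exact (b ⟨l, h⟩).2
    · rw [dif_neg h]
      exact W.zero_mem
  · have h3 := congrArg Subtype.val (b.sum_repr ⟨G', h1, h2⟩)
    rw [Submodule.coe_sum] at h3
    change _ = G' at h3
    rw [← h3, map_sum]
    refine Finset.sum_eq_zero fun l _ => ?_
    have h4 := hx l (l.2.trans_le hrk)
    beta_reduce at h4
    rw [dif_pos l.2] at h4
    rw [Submodule.coe_smul, smul_eq_C_mul, map_mul, h4, mul_zero]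

/-- **The number of points off the rational curves.** For all varieties given by forms of degree at
most `D` and all sequences of complexity `(r, e, q)` all but `N` of the points of the sequence lie on
rational curves of degree at most `N` in the variety. -/
theorem off_strong (n D r e q : ℕ) : ∃ N : ℕ, ∀ S : Set (MvPolynomial (Fin (n + 1)) ℂ),
    (∀ F ∈ S, ∃ e, e ≤ D ∧ F.IsHomogeneous e) → ∀ (M : ℕ) (t : ℕ → ℂ)
        (x : ℕ → Fin (n + 1) → ℂ), WSeq r e q S M t x →
          ∃ I : Finset ℕ, I.card ≤ N ∧ ∀ m ≤ M, ¬ OnRat S N (x m) →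
            ∃ i ∈ I, i ≤ M ∧ Same (x i) (x m) := by
  classical
  by_contra hcon
  push Not at hcon
  choose S hS M t x hx hI using hcon
  have hS' : ∀ i, ∀ F ∈ S i, ∃ e, F.IsHomogeneous e := fun i F hF => by
    obtain ⟨e, -, he⟩ := hS i F hF
    exact ⟨e, he⟩
  choose A hA1 hA2 hA3 using fun i => last_points (hx i).ne
    (Pr := fun v => ¬ OnRat (S i) i v) (fun m m' hm hm' hs h1 h2 => h1
      (onRat_same (hS' i) hs.symm ((hx i).ne m hm) ((hx i).ne m' hm') h2))
  have hA : ∀ i, i < (A i).card := by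
    intro i
    by_contra hle
    obtain ⟨m, hm, h1, h2⟩ := hI i (A i) (not_lt.1 hle)
    obtain ⟨i', hi', h3⟩ := hA3 i m hm h1
    exact h2 i' hi' (hA1 i i' hi').1 h3
  choose e0 he0 using fun d => bde (n + 1) D d
  choose g hg1 hg2 using fun i d e' => exists_family (S i) d e'
  let V : ℕ → ℕ := fun d => ∑ a ∈ Finset.range (e0 d + 1),
    Module.finrank ℂ (restrictTotalDegree (Fin (n + 1)) ℂ a) + 1
  obtain ⟨i, w, hw, k, hk, hkM, hs⟩ := ultra_off hS hx hA (fun i w hw => (hA1 i w hw).1)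
    (N := fun d => (e0 d + 1) * V d) (ed := fun d l => l / V d)
    (G := fun d l i => g i d (l / V d) (l % V d))
    (fun d l _ => Eventually.of_forall fun i => (hg1 i d _ _).1)
    (fun d l _ => Eventually.of_forall fun i p h1 h2 h3 => (hg1 i d _ _).2 p h3 h1 h2)
    (fun d => by
      filter_upwards [hyper_ge d] with i hi w hw
      obtain ⟨hwM, hno⟩ := hA1 i w hw
      obtain ⟨G', ⟨a, ha, ha'⟩, h2, h3⟩ := he0 d (S i) (hS i) (x i w) ((hx i).ne w hwM)
        fun h => hno (h.mono' hi)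
      obtain ⟨l, hl, hl2⟩ : ∃ l < Module.finrank ℂ (restrictTotalDegree (Fin (n + 1)) ℂ a),
          eval (x i w) (g i d a l) ≠ 0 := by
        by_contra hcon
        push Not at hcon
        exact h3 (hg2 i d a G' ha' h2 (x i w) hcon)
      have hlV : l < V d := by
        have h4 : Module.finrank ℂ (restrictTotalDegree (Fin (n + 1)) ℂ a) ≤
            ∑ a ∈ Finset.range (e0 d + 1),
              Module.finrank ℂ (restrictTotalDegree (Fin (n + 1)) ℂ a) :=
          Finset.single_le_sum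
            (f := fun a => Module.finrank ℂ (restrictTotalDegree (Fin (n + 1)) ℂ a))
            (fun _ _ => Nat.zero_le _) (Finset.mem_range.2 (by omega))
        change l < _ + 1
        omega
      refine ⟨a * V d + l, ?_, ?_⟩
      · calc a * V d + l < a * V d + V d := by omega
          _ = (a + 1) * V d := by ring
          _ ≤ (e0 d + 1) * V d := Nat.mul_le_mul_right _ (by omega)
      · have h4 : (a * V d + l) / V d = a := by
          rw [mul_comm, Nat.mul_add_div (by omega), Nat.div_eq_of_lt hlV, add_zero]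
        have h5 : (a * V d + l) % V d = l := by
          rw [mul_comm, Nat.mul_add_mod, Nat.mod_eq_of_lt hlV]
        rw [h4, h5]
        exact hl2)
  exact hA2 i w hw k hk hkM hs

end Pool.Agent.Q309.OFF
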