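import Pool.Agent.Q309.OFF.Core

/-!
Normalisation of recurrences: nonzero first and last coefficients, and a common order.
-/

set_option autoImplicit false

namespace Pool.Agent.Q309.OFF

open MvPolynomial Filter
open Pool.Agent.Q309.PO

variable {n : ℕ}

section

variable {k0 : Type} [Field k0] [Algebra k0 ℂ] {ρ : Polynomial k0} {τ : ℕ → ℂ}

theorem iter_c (hρ : 1 ≤ ρ.natDegree) (hτ : ∀ j, τ (j + 1) = Polynomial.aeval (τ j) ρ) (c : ℕ) :
    ∃ ρ' : Polynomial k0, 1 ≤ ρ'.natDegree ∧ ∀ j, τ (j + c) = Polynomial.aeval (τ j) ρ' := by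
  induction c with
  | zero =>
    refine ⟨Polynomial.X, ?_, fun j => ?_⟩
    · rw [Polynomial.natDegree_X]
    · rw [Polynomial.aeval_X, add_zero]
  | succ c ih =>
    obtain ⟨ρ', h1, h2⟩ := ih
    refine ⟨ρ.comp ρ', ?_, fun j => ?_⟩
    · rw [Polynomial.natDegree_comp]
      exact Nat.mul_pos hρ h1
    · rw [← add_assoc, hτ, h2, Polynomial.aeval_comp]

theorem trim (hρ : 1 ≤ ρ.natDegree) (hτ : ∀ j, τ (j + 1) = Polynomial.aeval (τ j) ρ) {r : ℕ}
    {P : ℕ → Polynomial k0} (hP : ∃ k ≤ r, P k ≠ 0) {f : ℕ → ℂ}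
    (hrec : ∀ j, ∑ k ∈ Finset.range (r + 1), Polynomial.aeval (τ j) (P k) * f (j + k) = 0) :
    ∃ s ≤ r, ∃ Q : ℕ → Polynomial k0, Q 0 ≠ 0 ∧ Q s ≠ 0 ∧
      ∀ j, ∑ k ∈ Finset.range (s + 1), Polynomial.aeval (τ j) (Q k) * f (r + j + k) = 0 := by
  classical
  obtain ⟨k1, hk1, hPk1⟩ := hP
  let A : Finset ℕ := (Finset.range (r + 1)).filter fun k => P k ≠ 0
  have hne : A.Nonempty := ⟨k1, Finset.mem_filter.2 ⟨Finset.mem_range.2 (by omega), hPk1⟩⟩
  obtain ⟨a, ha, ha1⟩ : ∃ a, a = A.min' hne ∧ a ∈ A := ⟨_, rfl, Finset.min'_mem _ _⟩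
  obtain ⟨b, hb, hb1⟩ : ∃ b, b = A.max' hne ∧ b ∈ A := ⟨_, rfl, Finset.max'_mem _ _⟩
  have hab : a ≤ b := by
    rw [ha]
    exact Finset.min'_le _ _ hb1
  have har := Finset.mem_range.1 (Finset.mem_filter.1 ha1).1
  have hbr := Finset.mem_range.1 (Finset.mem_filter.1 hb1).1
  have hlow : ∀ k, k < a → P k = 0 := by
    intro k hk
    by_contra h0
    have h1 : A.min' hne ≤ k := Finset.min'_le _ _
      (Finset.mem_filter.2 ⟨Finset.mem_range.2 (by omega), h0⟩)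
    omega
  have hhigh : ∀ k, b < k → k ≤ r → P k = 0 := by
    intro k hk hkr
    by_contra h0
    have h1 : k ≤ A.max' hne := Finset.le_max' _ _
      (Finset.mem_filter.2 ⟨Finset.mem_range.2 (by omega), h0⟩)
    omega
  obtain ⟨ρ', hρ'1, hρ'2⟩ := iter_c hρ hτ (r - a)
  refine ⟨b - a, by omega, fun k => (P (a + k)).comp ρ', ?_, ?_, fun j => ?_⟩
  · exact comp_ne hρ'1 (by rw [add_zero]; exact (Finset.mem_filter.1 ha1).2)
  · exact comp_ne hρ'1 (by rw [show a + (b - a) = b by omega]; exact (Finset.mem_filter.1 hb1).2)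
  · have h1 := hrec (j + (r - a))
    rw [← h1]
    have h2 : r + 1 = a + ((b - a + 1) + (r - b)) := by omega
    have h3 : ∑ k ∈ Finset.range (r + 1), Polynomial.aeval (τ (j + (r - a))) (P k) *
        f (j + (r - a) + k) = ∑ k ∈ Finset.range (b - a + 1),
          Polynomial.aeval (τ (j + (r - a))) (P (a + k)) * f (j + (r - a) + (a + k)) := by
      rw [h2, Finset.sum_range_add, Finset.sum_eq_zero, zero_add, Finset.sum_range_add]
      · rw [add_eq_left]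
        refine Finset.sum_eq_zero fun k hk => ?_
        have hk' := Finset.mem_range.1 hk
        rw [hhigh (a + (b - a + 1 + k)) (by omega) (by omega), map_zero, zero_mul]
      · intro k hk
        rw [hlow k (Finset.mem_range.1 hk), map_zero, zero_mul]
    rw [h3]
    refine Finset.sum_congr rfl fun k _ => ?_
    rw [Polynomial.aeval_comp, ← hρ'2, show j + (r - a) + (a + k) = r + j + k by omega]

theorem pad1 (hρ : 1 ≤ ρ.natDegree) (hτ : ∀ j, τ (j + 1) = Polynomial.aeval (τ j) ρ) {s : ℕ}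
    {Q : ℕ → Polynomial k0} (hQ0 : Q 0 ≠ 0) (hQs : Q s ≠ 0) {f : ℕ → ℂ}
    (hrec : ∀ j, ∑ k ∈ Finset.range (s + 1), Polynomial.aeval (τ j) (Q k) * f (j + k) = 0) :
    ∃ Q' : ℕ → Polynomial k0, Q' 0 ≠ 0 ∧ Q' (s + 1) ≠ 0 ∧
      ∀ j, ∑ k ∈ Finset.range (s + 2), Polynomial.aeval (τ j) (Q' k) * f (j + k) = 0 := by
  refine ⟨fun k => (if k = 0 then 0 else (Q (k - 1)).comp ρ) - if k ≤ s then Q k else 0, ?_, ?_,
    fun j => ?_⟩
  · beta_reduce
    rw [if_pos rfl, if_pos (Nat.zero_le _), zero_sub]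
    exact neg_ne_zero.2 hQ0
  · beta_reduce
    rw [if_neg (Nat.succ_ne_zero s), if_neg (by omega), sub_zero, Nat.add_sub_cancel]
    exact comp_ne hρ hQs
  · simp only [map_sub, sub_mul, Finset.sum_sub_distrib]
    have h1 : ∑ k ∈ Finset.range (s + 2), Polynomial.aeval (τ j)
        (if k = 0 then 0 else (Q (k - 1)).comp ρ) * f (j + k) = 0 := by
      rw [Finset.sum_range_succ', if_pos rfl, map_zero, zero_mul, add_zero, ← hrec (j + 1)]
      refine Finset.sum_congr rfl fun k _ => ?_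
      rw [if_neg (Nat.succ_ne_zero k), Nat.add_sub_cancel, Polynomial.aeval_comp, ← hτ,
        show j + (k + 1) = j + 1 + k by omega]
    have h2 : ∑ k ∈ Finset.range (s + 2), Polynomial.aeval (τ j)
        (if k ≤ s then Q k else 0) * f (j + k) = 0 := by
      rw [Finset.sum_range_succ, if_neg (by omega), map_zero, zero_mul, add_zero, ← hrec j]
      refine Finset.sum_congr rfl fun k hk => ?_
      rw [if_pos (by have := Finset.mem_range.1 hk; omega)]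
    rw [h1, h2, sub_zero]

theorem pad (hρ : 1 ≤ ρ.natDegree) (hτ : ∀ j, τ (j + 1) = Polynomial.aeval (τ j) ρ) {s : ℕ}
    {Q : ℕ → Polynomial k0} (hQ0 : Q 0 ≠ 0) (hQs : Q s ≠ 0) {f : ℕ → ℂ}
    (hrec : ∀ j, ∑ k ∈ Finset.range (s + 1), Polynomial.aeval (τ j) (Q k) * f (j + k) = 0)
    (c : ℕ) : ∃ Q' : ℕ → Polynomial k0, Q' 0 ≠ 0 ∧ Q' (s + c) ≠ 0 ∧
      ∀ j, ∑ k ∈ Finset.range (s + c + 1), Polynomial.aeval (τ j) (Q' k) * f (j + k) = 0 := by
  induction c with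
  | zero => exact ⟨Q, hQ0, hQs, hrec⟩
  | succ c ih =>
    obtain ⟨Q', h1, h2, h3⟩ := ih
    exact pad1 hρ hτ h1 h2 h3

end

/-- **The core.** -/
theorem core0 {k0 : Type} [Field k0] [Countable k0] [Algebra k0 ℂ] {r : ℕ} {ρ : Polynomial k0}
    (hρ : 1 ≤ ρ.natDegree) {τ : ℕ → ℂ} (hτ : ∀ j, τ (j + 1) = Polynomial.aeval (τ j) ρ)
    (hinj : Function.Injective τ) (htr : Transcendental k0 (τ 0))
    {P : Fin (n + 1) → ℕ → Polynomial k0} (hP : ∀ u, ∃ k ≤ r, P u k ≠ 0)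
    {x : ℕ → Fin (n + 1) → ℂ}
    (hrec : ∀ u j, ∑ k ∈ Finset.range (r + 1), Polynomial.aeval (τ j) (P u k) * x (j + k) u = 0)
    (hx0 : x r ≠ 0)
    (S : Set (MvPolynomial (Fin (n + 1)) k0)) (hS : ∀ F ∈ S, ∃ e, F.IsHomogeneous e)
    (hX : ∀ F ∈ S, ∀ j, aeval (x j) F = 0)
    (hrat : ∀ d : ℕ, ∃ G : MvPolynomial (Fin (n + 1)) k0, aeval (x r) G ≠ 0 ∧
      ∀ q : Fin (n + 1) → Polynomial ℂ, (∀ j, (q j).natDegree ≤ d) →
        (∀ F ∈ S, aeval q (map (algebraMap k0 ℂ) F) = 0) →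
        (∃ a b i j, (q i).eval a * (q j).eval b ≠ (q j).eval a * (q i).eval b) →
          aeval q (map (algebraMap k0 ℂ) G) = 0) :
    ∃ k, 0 < k ∧ ∀ u v, x (r + k) u * x r v = x (r + k) v * x r u := by
  classical
  have h1 : ∀ u, ∃ Q : ℕ → Polynomial k0, Q 0 ≠ 0 ∧ Q (r + 1) ≠ 0 ∧
      ∀ j, ∑ k ∈ Finset.range (r + 2), Polynomial.aeval (τ j) (Q k) * x (r + j + k) u = 0 := by
    intro u
    obtain ⟨s, hs, Q, h1, h2, h3⟩ := trim hρ hτ (hP u) (f := fun m => x m u) (hrec u)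
    obtain ⟨Q', h4, h5, h6⟩ := pad hρ hτ h1 h2 (f := fun m => x (r + m) u) (fun j => by
      rw [← h3 j]
      exact Finset.sum_congr rfl fun k _ => by rw [add_assoc]) (r + 1 - s)
    rw [show s + (r + 1 - s) = r + 1 by omega] at h5 h6
    refine ⟨Q', h4, h5, fun j => ?_⟩
    rw [← h6 j]
    exact Finset.sum_congr rfl fun k _ => by rw [add_assoc]
  choose Q hQ0 hQ1 hQ using h1
  obtain ⟨k, hk, h⟩ := core1 (R := r) hρ hτ hinj htr hQ0 hQ1 (x := fun j => x (r + j))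
    (fun u j => by
      rw [← hQ u j]
      exact Finset.sum_congr rfl fun k _ => by rw [add_assoc]) hx0 S hS
    (fun F hF j => hX F hF (r + j)) hrat
  exact ⟨k, hk, h⟩

end Pool.Agent.Q309.OFF
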