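import Pool.Agent.Q309.PO.Dich
import Pool.Agent.Q309.DF.Main
import Pool.Agent.Q309.OFF.Lin

/-!
A point off the rational curves in the orbit of a point of a difference ring is periodic.
-/

set_option autoImplicit false

namespace Pool.Agent.Q309.OFF

open MvPolynomial Filter
open Pool.Agent.Q309.PO
open Pool.Agent.Q309.DF (rel_embed)
open Pool.Agent.TH143.TW (Per)
open Pool.Agent.Y189.DD (RC)

/-- The minimal primes over a stable ideal are periodic. -/
theorem per_prime {T : Type} [CommRing T] [IsNoetherianRing T] (σ : T →+* T) {I : Ideal T}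
    (hI : I.comap σ = I) {p : Ideal T} (hp : p ∈ I.minimalPrimes) :
    ∃ b : ℕ, 0 < b ∧ p.comap (σ ^ b) = p := by
  classical
  have h1 : ∀ q : I.minimalPrimes, ∃ q' : I.minimalPrimes, (q' : Ideal T).comap σ = q := by
    intro q
    obtain ⟨q', h2, h3⟩ := Ideal.exists_minimalPrimes_comap_eq (I := I) σ q (by
      rw [hI]
      exact q.2)
    exact ⟨⟨q', h2⟩, h3⟩
  choose g hg using h1
  have hfin : Finite I.minimalPrimes := (Ideal.finite_minimalPrimes_of_isNoetherianRing T I).to_subtype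
  have hit : ∀ (i : ℕ) (q : I.minimalPrimes), ((g^[i] q : I.minimalPrimes) : Ideal T).comap (σ ^ i) =
      q := by
    intro i
    induction i with
    | zero =>
      intro q
      rw [pow_zero]
      exact Ideal.comap_id _
    | succ i ih =>
      intro q
      have h2 : (σ ^ (i + 1) : T →+* T) = (σ ^ i).comp σ := by
        rw [pow_succ]
        rfl
      rw [h2, ← Ideal.comap_comap, Function.iterate_succ_apply, ih, hg]
  obtain ⟨i, j, hij, h⟩ := Finite.exists_ne_map_eq_of_infinite fun i : ℕ => g^[i] ⟨p, hp⟩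
  have key : ∀ i j : ℕ, i < j → g^[i] (⟨p, hp⟩ : I.minimalPrimes) = g^[j] ⟨p, hp⟩ →
      ∃ b : ℕ, 0 < b ∧ p.comap (σ ^ b) = p := by
    intro i j hij h
    refine ⟨j - i, by omega, ?_⟩
    have h2 : g^[j] (⟨p, hp⟩ : I.minimalPrimes) = g^[i] (g^[j - i] ⟨p, hp⟩) := by
      rw [← Function.iterate_add_apply, show i + (j - i) = j by omega]
    have h3 := hit i ⟨p, hp⟩
    rw [h, h2, hit] at h3
    have h4 := hit (j - i) ⟨p, hp⟩
    rw [h3] at h4
    exact h4
  rcases lt_or_gt_of_ne hij with h1 | h1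
  · exact key i j h1 h
  · exact key j i h1 h.symm

variable {n : ℕ}

/-- **The core.** -/
theorem core2 {k0 T : Type} [Field k0] [Countable k0] [Algebra k0 ℂ] [CommRing T] [Algebra k0 T]
    [IsNoetherianRing T] [Countable T] (sg : T →ₐ[k0] T) (ev : ℕ → T →ₐ[k0] ℂ)
    (hev : ∀ j f, ev (j + 1) f = ev j (sg f))
    (htail : ∀ f, (∀ j, ev (j + 1) f = 0) → ev 0 f = 0) (tt : T) (y : Fin (n + 1) → T)
    (ρ : Polynomial k0) (hρ : sg tt = Polynomial.aeval tt ρ)
    (hinj : Function.Injective fun j => ev j tt) (N : ℕ)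
    (hdep : ∀ b : ℕ, ∀ u, ∃ Q : ℕ → Polynomial k0, (∃ k ≤ N, Q k ≠ 0) ∧
      ∑ k ∈ Finset.range (N + 1), Polynomial.aeval tt (Q k) * (sg ^ (b * k)) (y u) = 0)
    (S : Set (MvPolynomial (Fin (n + 1)) k0)) (hS : ∀ F ∈ S, ∃ e, F.IsHomogeneous e)
    (hX : ∀ F ∈ S, ∀ j, ev j (aeval y F) = 0) (hy : ∃ u, ev 0 (y u) ≠ 0)
    (hrat : ∀ d : ℕ, ∃ G : MvPolynomial (Fin (n + 1)) k0, ev 0 (aeval y G) ≠ 0 ∧
      ∀ q : Fin (n + 1) → Polynomial ℂ, (∀ j, (q j).natDegree ≤ d) →
        (∀ F ∈ S, aeval q (map (algebraMap k0 ℂ) F) = 0) →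
        (∃ a b i j, (q i).eval a * (q j).eval b ≠ (q j).eval a * (q i).eval b) →
          aeval q (map (algebraMap k0 ℂ) G) = 0) :
    ∃ k, 0 < k ∧ ∀ u v, ev k (y u) * ev 0 (y v) = ev k (y v) * ev 0 (y u) := by
  classical
  have hevp : ∀ (i : ℕ) (f : T), ev i f = ev 0 ((sg ^ i) f) := by
    intro i
    induction i with
    | zero =>
      intro f
      rw [pow_zero]
      rfl
    | succ i ih =>
      intro f
      rw [hev, ih, pow_succ, AlgHom.mul_apply]
  -- the ideal
  let I : Ideal T := ⨅ j, RingHom.ker (ev j : T →+* ℂ)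
  have hmem : ∀ f, f ∈ I ↔ ∀ j, ev j f = 0 := by
    intro f
    rw [Ideal.mem_iInf]
    exact forall_congr' fun j => RingHom.mem_ker
  have hI : I.comap (sg : T →+* T) = I := by
    ext f
    rw [Ideal.mem_comap, hmem, hmem]
    constructor
    · intro h j
      have h1 : ∀ j, ev (j + 1) f = 0 := fun j => (hev j f).trans (h j)
      cases j with
      | zero => exact htail f h1
      | succ j => exact h1 j
    · intro h j
      exact (hev j f).symm.trans (h (j + 1))
  have hprime : (RingHom.ker (ev 0 : T →+* ℂ)).IsPrime := RingHom.ker_isPrime _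
  obtain ⟨p, hp, hp0⟩ := Ideal.exists_minimalPrimes_le (I := I) (J := RingHom.ker (ev 0 : T →+* ℂ))
    (iInf_le _ 0)
  obtain ⟨b, hb, hpb⟩ := per_prime (sg : T →+* T) hI hp
  have hpp : p.IsPrime := hp.1.1
  have hIp : I ≤ p := hp.1.2
  have hpow : ∀ (i : ℕ) (f : T), ((sg : T →+* T) ^ i) f = (sg ^ i) f := by
    intro i
    induction i with
    | zero => intro f; rfl
    | succ i ih =>
      intro f
      rw [pow_succ, pow_succ, AlgHom.mul_apply, ← ih]
      rfl
  have hpb1 : ∀ f, (sg ^ b) f ∈ p ↔ f ∈ p := by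
    intro f
    rw [← hpow]
    change f ∈ p.comap ((sg : T →+* T) ^ b) ↔ f ∈ p
    rw [hpb]
  have hpbm : ∀ (m : ℕ) (f : T), (sg ^ (b * m)) f ∈ p ↔ f ∈ p := by
    intro m
    induction m with
    | zero =>
      intro f
      rw [mul_zero, pow_zero]
      rfl
    | succ m ih =>
      intro f
      rw [mul_add, mul_one, pow_add, AlgHom.mul_apply, ih, hpb1]
  have hIs : ∀ (m : ℕ) (f : T), f ∈ I → (sg ^ m) f ∈ I := by
    intro m
    induction m with
    | zero => intro f hf; exact hf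
    | succ m ih =>
      intro f hf
      rw [pow_succ, AlgHom.mul_apply]
      refine ih _ ?_
      rw [← hI] at hf
      exact hf
  -- the embedding
  have hdom : IsDomain (T ⧸ p) := Ideal.Quotient.isDomain p
  have hcQ : Countable (T ⧸ p) := Ideal.Quotient.mk_surjective.countable
  have hcL : Countable (FractionRing (T ⧸ p)) := by
    have h1 : Function.Surjective fun w : (T ⧸ p) × (nonZeroDivisors (T ⧸ p)) =>
        IsLocalization.mk' (FractionRing (T ⧸ p)) w.1 w.2 := by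
      intro z
      obtain ⟨a, s, h⟩ := IsLocalization.exists_mk'_eq (nonZeroDivisors (T ⧸ p)) z
      exact ⟨(a, s), h⟩
    exact h1.countable
  obtain ⟨ψ⟩ := rel_embed k0 (FractionRing (T ⧸ p))
  let E : T →ₐ[k0] ℂ := ψ.comp ((IsScalarTower.toAlgHom k0 (T ⧸ p) (FractionRing (T ⧸ p))).comp
    (Ideal.Quotient.mkₐ k0 p))
  have hE : ∀ f, E f = 0 ↔ f ∈ p := by
    intro f
    change ψ (algebraMap (T ⧸ p) (FractionRing (T ⧸ p)) (Ideal.Quotient.mk p f)) = 0 ↔ _
    rw [map_eq_zero_iff ψ ψ.toRingHom.injective,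
      map_eq_zero_iff _ (IsFractionRing.injective (T ⧸ p) (FractionRing (T ⧸ p))),
      Ideal.Quotient.eq_zero_iff_mem]
  -- the sequences
  let t' : ℕ → ℂ := fun m => E ((sg ^ m) tt)
  let Z : ℕ → Fin (n + 1) → ℂ := fun m u => E ((sg ^ m) (y u))
  have hpol : ∀ (m : ℕ) (g : Polynomial k0), E ((sg ^ m) (Polynomial.aeval tt g)) =
      (g.map (algebraMap k0 ℂ)).eval (t' m) := by
    intro m g
    rw [Polynomial.eval_map_algebraMap]
    change (E.comp (sg ^ m)) (Polynomial.aeval tt g) = Polynomial.aeval ((E.comp (sg ^ m)) tt) g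
    rw [Polynomial.aeval_algHom_apply]
  have ht' : ∀ m, t' (m + 1) = (ρ.map (algebraMap k0 ℂ)).eval (t' m) := by
    intro m
    rw [← hpol, ← hρ]
    change E ((sg ^ (m + 1)) tt) = _
    rw [pow_succ, AlgHom.mul_apply]
  have htinj : Function.Injective t' := by
    intro i j hij
    apply hinj
    have h1 : (sg ^ i) tt - (sg ^ j) tt ∈ p := by
      rw [← hE, map_sub]
      exact sub_eq_zero.2 hij
    have h2 : ev 0 ((sg ^ i) tt - (sg ^ j) tt) = 0 := hp0 h1
    rw [map_sub, ← hevp, ← hevp] at h2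
    exact sub_eq_zero.1 h2
  have hval : ∀ (m : ℕ) (F : MvPolynomial (Fin (n + 1)) k0),
      eval (Z m) (map (algebraMap k0 ℂ) F) = E ((sg ^ m) (aeval y F)) := by
    intro m F
    rw [eval_map]
    change aeval (Z m) F = (E.comp (sg ^ m)) (aeval y F)
    rw [MvPolynomial.comp_aeval_apply]
    rfl
  let s : Set (MvPolynomial (Fin (n + 1)) ℂ) := {F' | ∃ F ∈ S, F' = map (algebraMap k0 ℂ) F}
  have hs : ∀ F' ∈ s, ∃ d, F'.IsHomogeneous d := by
    rintro _ ⟨F, hF, rfl⟩
    obtain ⟨e, he⟩ := hS F hF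
    exact ⟨e, he.map _⟩
  have hZ0 : ∀ m, Z (b * m) ≠ 0 := by
    intro m h0
    obtain ⟨u, hu⟩ := hy
    have h1 := congrFun h0 u
    rw [Pi.zero_apply] at h1
    change E ((sg ^ (b * m)) (y u)) = 0 at h1
    rw [hE, hpbm] at h1
    exact hu (hp0 h1)
  choose Q hQ0 hQ using hdep b
  have hb' := iter_eval ht' b
  rcases pol_dich (ρ := ((ρ.map (algebraMap k0 ℂ)).comp)^[b] Polynomial.X)
    (t := fun m => t' (b * m)) (fun m => by
      rw [← hb', mul_add, mul_one]) (fun i j hij => by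
      exact Nat.eq_of_mul_eq_mul_left hb (htinj hij)) hs (x := fun m => Z (b * m)) hZ0 (r := N)
    (P := fun u k => (Q u k).map (algebraMap k0 ℂ)) (fun u => by
      obtain ⟨k, hk, hQk⟩ := hQ0 u
      refine ⟨k, hk, ?_⟩
      rwa [Ne, Polynomial.map_eq_zero_iff (algebraMap k0 ℂ).injective])
    (fun u m => by
      have h1 := congrArg (fun f => E ((sg ^ (b * m)) f)) (hQ u)
      simp only [map_sum, map_mul, map_zero] at h1
      rw [← h1]
      refine Finset.sum_congr rfl fun k _ => ?_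
      rw [hpol]
      congr 1
      change E ((sg ^ (b * (m + k))) (y u)) = _
      rw [mul_add, pow_add, AlgHom.mul_apply])
    (fun m F' hF' => by
      obtain ⟨F, hF, rfl⟩ := hF'
      rw [hval, hE]
      exact hIp (hIs _ _ ((hmem _).2 (hX F hF)))) with ⟨k, m0, hk, hper⟩ | ⟨m, q, hq1, hq2, hq3⟩
  · refine ⟨b * k, Nat.mul_pos hb hk, fun u v => ?_⟩
    have h1 := hper m0 le_rfl u v
    change E ((sg ^ (b * (m0 + k))) (y u)) * E ((sg ^ (b * m0)) (y v)) =
      E ((sg ^ (b * (m0 + k))) (y v)) * E ((sg ^ (b * m0)) (y u)) at h1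
    have h2 : (sg ^ (b * m0)) ((sg ^ (b * k)) (y u) * y v - (sg ^ (b * k)) (y v) * y u) ∈ p := by
      rw [← hE, map_sub, map_sub, map_mul, map_mul, map_mul, map_mul, ← AlgHom.mul_apply,
        ← AlgHom.mul_apply, ← pow_add, ← mul_add]
      exact sub_eq_zero.2 h1
    rw [hpbm] at h2
    have h3 : ev 0 ((sg ^ (b * k)) (y u) * y v - (sg ^ (b * k)) (y v) * y u) = 0 := hp0 h2
    rw [map_sub, map_mul, map_mul, ← hevp, ← hevp] at h3
    exact sub_eq_zero.1 h3
  · exfalso
    obtain ⟨i, j, a, c, hac⟩ := hq3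
    obtain ⟨G, hG, hrG⟩ := hrat (Finset.univ.sup fun j => (q j).natDegree)
    have h1 := hrG q (fun j => Finset.le_sup (f := fun j => (q j).natDegree) (Finset.mem_univ j))
      (fun F hF => hq1 _ ⟨F, hF, rfl⟩) ⟨a, c, i, j, hac⟩
    have hGm : eval (Z (b * m)) (map (algebraMap k0 ℂ) G) ≠ 0 := by
      intro h0
      rw [hval, hE, hpbm] at h0
      exact hG (hp0 h0)
    apply hGm
    have h2 := congrArg (Polynomial.eval 1) h1
    rw [Polynomial.eval_zero, Pool.Agent.Q1.SL.poly_eval] at h2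
    rw [hq2] at h2
    exact h2

end Pool.Agent.Q309.OFF
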