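import Pool.Agent.Q309.OFF.Norm
import Pool.Agent.Q309.PO.Win

/-!
The number of points off the rational curves in sequences given by linear recurrences along orbits of
polynomials: choice of a generic base point and the limit.
-/

set_option autoImplicit false

namespace Pool.Agent.Q309.OFF

open MvPolynomial Filter
open Pool.Agent.Q309.DU
open Pool.Agent.Q309.PO
open Pool.Agent.Q309.TP (Same)
open Pool.Agent.Y377.ST (theta_ne)
open Pool.Agent.Q1.SL

variable {n : ℕ}

/-- **The choice of a base point.** -/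
theorem select {r : ℕ} {A : ℕ → Finset ℕ} (hA : ∀ i, i < (A i).card) {B : ℕ → ℕ}
    (hAB : ∀ i, ∀ w ∈ A i, w ≤ B i) {t : ℕ → ℕ → ℂ}
    (ht : ∀ i a b, a < b → b ≤ B i → t i a ≠ t i b) (f : ℕ → ℕ → Polynomial ℂ) (dg : ℕ → ℕ)
    (hf : ∀ l i, (f l i).natDegree ≤ dg l) :
    ∃ w : ℕ → ℕ, (∀ i, w i ∈ A i) ∧ ∀ L, ∃ i0, ∀ i, i0 ≤ i → r ≤ w i ∧ w i + L ≤ B i ∧
      ∀ l < L, f l i ≠ 0 → (f l i).eval (t i (w i - r)) ≠ 0 := by
  classical
  let bd : ℕ → ℕ := fun L => r + L + ∑ l ∈ Finset.range L, dg l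
  have key : ∀ i L, bd L ≤ i → ∃ w ∈ A i, r ≤ w ∧ w + L ≤ B i ∧
      ∀ l < L, f l i ≠ 0 → (f l i).eval (t i (w - r)) ≠ 0 := by
    intro i L hL
    by_contra hcon
    push Not at hcon
    have hsub : A i ⊆ Finset.range r ∪ (Finset.Icc (B i + 1 - L) (B i) ∪
        (Finset.range L).biUnion fun l => (Finset.range (B i + 1)).filter fun w =>
          r ≤ w ∧ f l i ≠ 0 ∧ (f l i).eval (t i (w - r)) = 0) := by
      intro w hw
      have hwB := hAB i w hw
      rw [Finset.mem_union, Finset.mem_union, Finset.mem_range, Finset.mem_Icc,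
        Finset.mem_biUnion]
      by_cases h1 : r ≤ w
      · by_cases h2 : w + L ≤ B i
        · obtain ⟨l, hl, h3, h4⟩ := hcon w hw h1 h2
          exact Or.inr (Or.inr ⟨l, Finset.mem_range.2 hl, Finset.mem_filter.2
            ⟨Finset.mem_range.2 (by omega), h1, h3, h4⟩⟩)
        · exact Or.inr (Or.inl (by omega))
      · exact Or.inl (by omega)
    have h1 := (Finset.card_le_card hsub).trans (Finset.card_union_le _ _)
    have h2 := Finset.card_union_le (Finset.Icc (B i + 1 - L) (B i))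
      ((Finset.range L).biUnion fun l => (Finset.range (B i + 1)).filter fun w =>
          r ≤ w ∧ f l i ≠ 0 ∧ (f l i).eval (t i (w - r)) = 0)
    have h3 : ((Finset.range L).biUnion fun l => (Finset.range (B i + 1)).filter fun w =>
          r ≤ w ∧ f l i ≠ 0 ∧ (f l i).eval (t i (w - r)) = 0).card ≤
        ∑ l ∈ Finset.range L, dg l := by
      refine Finset.card_biUnion_le.trans (Finset.sum_le_sum fun l _ => ?_)
      by_cases h0 : f l i = 0
      · rw [Finset.card_eq_zero.2]
        · exact Nat.zero_le _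
        · refine Finset.filter_eq_empty_iff.2 fun w _ => ?_
          rintro ⟨-, h4, -⟩
          exact h4 h0
      · refine (Finset.card_le_card_of_injOn (t := (f l i).roots.toFinset)
          (fun w => t i (w - r)) (fun w hw => ?_) fun a ha b hb hab => ?_).trans ?_
        · rw [Finset.mem_coe, Multiset.mem_toFinset, Polynomial.mem_roots h0]
          exact (Finset.mem_filter.1 hw).2.2.2
        · obtain ⟨ha1, ha2, -⟩ := Finset.mem_filter.1 ha
          obtain ⟨hb1, hb2, -⟩ := Finset.mem_filter.1 hb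
          have ha3 := Finset.mem_range.1 ha1
          have hb3 := Finset.mem_range.1 hb1
          by_contra hne
          rcases lt_or_gt_of_ne hne with h4 | h4
          · exact ht i (a - r) (b - r) (by omega) (by omega) hab
          · exact ht i (b - r) (a - r) (by omega) (by omega) hab.symm
        · exact (Multiset.toFinset_card_le _).trans ((Polynomial.card_roots' _).trans (hf l i))
    rw [Nat.card_Icc] at h2
    rw [Finset.card_range] at h1
    have h4 := hA i
    have h5 : bd L = r + L + ∑ l ∈ Finset.range L, dg l := rfl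
    omega
  have hw : ∀ i, ∃ w ∈ A i, bd (Nat.findGreatest (fun L => bd L ≤ i) i) ≤ i →
      r ≤ w ∧ w + Nat.findGreatest (fun L => bd L ≤ i) i ≤ B i ∧
      ∀ l < Nat.findGreatest (fun L => bd L ≤ i) i, f l i ≠ 0 →
        (f l i).eval (t i (w - r)) ≠ 0 := by
    intro i
    by_cases h0 : bd (Nat.findGreatest (fun L => bd L ≤ i) i) ≤ i
    · obtain ⟨w, h1, h2⟩ := key i _ h0
      exact ⟨w, h1, fun _ => h2⟩
    · obtain ⟨w, hw⟩ := Finset.card_pos.1 ((Nat.zero_le i).trans_lt (hA i))
      exact ⟨w, hw, fun h1 => absurd h1 h0⟩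
  choose w hwA hw using hw
  refine ⟨w, hwA, fun L => ⟨bd L, fun i hi => ?_⟩⟩
  have hLi : L ≤ i := le_trans (by
    change L ≤ r + L + ∑ l ∈ Finset.range L, dg l
    omega) hi
  have h1 : bd (Nat.findGreatest (fun L => bd L ≤ i) i) ≤ i :=
    Nat.findGreatest_spec (P := fun L => bd L ≤ i) hLi hi
  have h2 : L ≤ Nat.findGreatest (fun L => bd L ≤ i) i := Nat.le_findGreatest hLi hi
  obtain ⟨h3, h4, h5⟩ := hw i h1
  exact ⟨h3, by omega, fun l hl => h5 l (by omega)⟩

/-- **The limit.** -/
theorem ultra_off {D r e q : ℕ} {S : ℕ → Set (MvPolynomial (Fin (n + 1)) ℂ)}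
    (hS : ∀ i, ∀ F ∈ S i, ∃ e, e ≤ D ∧ F.IsHomogeneous e) {B : ℕ → ℕ} {t : ℕ → ℕ → ℂ}
    {x : ℕ → ℕ → Fin (n + 1) → ℂ} (h : ∀ i, WSeq r e q (S i) (B i) (t i) (x i))
    {A : ℕ → Finset ℕ} (hA : ∀ i, i < (A i).card) (hAB : ∀ i, ∀ w ∈ A i, w ≤ B i)
    {N : ℕ → ℕ} {ed : ℕ → ℕ → ℕ} {G : ℕ → ℕ → ℕ → MvPolynomial (Fin (n + 1)) ℂ}
    (hGe : ∀ d l, l < N d → ∀ᶠ i in (hyperfilter ℕ : Filter ℕ), (G d l i).IsHomogeneous (ed d l))
    (hGr : ∀ d l, l < N d → ∀ᶠ i in (hyperfilter ℕ : Filter ℕ), RatIn (S i) (G d l i) d)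
    (hGx : ∀ d, ∀ᶠ i in (hyperfilter ℕ : Filter ℕ), ∀ w ∈ A i, ∃ l < N d,
      eval (x i w) (G d l i) ≠ 0) :
    ∃ i, ∃ w ∈ A i, ∃ k, 0 < k ∧ w + k ≤ B i ∧ Same (x i (w + k)) (x i w) := by
  classical
  choose ρ hρq hρ using fun i => (h i).pol
  choose P hP0 hPe hPx using fun i => (h i).eqn
  obtain ⟨θ, hsur, hk⟩ := exists_theta
  have hΘ : ∀ f : ℕ → ℂ, (∃ n, ∀ i, n ≤ i → f i = 0) → θ f = 0 := by
    rintro f ⟨N, hN⟩
    rw [hk]
    filter_upwards [hyper_ge N] with i hi
    exact hN i hi
  have hθne : ∀ f : ℕ → ℂ, (∀ᶠ i in (hyperfilter ℕ : Filter ℕ), f i ≠ 0) → θ f ≠ 0 := by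
    intro f hf h0
    rw [hk] at h0
    obtain ⟨i, h1, h2⟩ := (hf.and h0).exists
    exact h1 h2
  -- the limits of the equations
  let Ps : Fin (n + 1) → ℕ → Polynomial ℂ := fun j k =>
    ∑ a ∈ Finset.range (e + 1), Polynomial.C (θ fun i => (P i j k).coeff a) * Polynomial.X ^ a
  let ρs : Polynomial ℂ :=
    ∑ a ∈ Finset.range (q + 1), Polynomial.C (θ fun i => (ρ i).coeff a) * Polynomial.X ^ a
  let s : Set (MvPolynomial (Fin (n + 1)) ℂ) :=
    {F' | ∃ F : ℕ → MvPolynomial (Fin (n + 1)) ℂ,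
      (∀ᶠ i in (hyperfilter ℕ : Filter ℕ), F i ∈ S i) ∧ F' = limT θ (TD (n + 1) D) F}
  obtain ⟨S0, hS0, hS0'⟩ := exists_finite_forms s
  let Gs : ℕ → ℕ → MvPolynomial (Fin (n + 1)) ℂ := fun d l =>
    limT θ (TD (n + 1) (ed d l)) (G d l)
  -- the countable field
  obtain ⟨k0, _, _, hk0, -, hcoef⟩ := exists_ctbleK (k := ℂ)
    ((⋃ F ∈ S0, (F.coeffs : Set ℂ)) ∪ ((⋃ (d : ℕ) (l : ℕ), ((Gs d l).coeffs : Set ℂ)) ∪
      ((⋃ a : ℕ, {ρs.coeff a}) ∪ ⋃ (j : Fin (n + 1)) (k : ℕ) (a : ℕ), {(Ps j k).coeff a}))) (by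
      refine Set.Countable.union ?_ (Set.Countable.union ?_ (Set.Countable.union ?_ ?_))
      · exact Set.Countable.biUnion S0.countable_toSet fun F _ => F.coeffs.countable_toSet
      · exact Set.countable_iUnion fun d => Set.countable_iUnion fun l =>
          (Gs d l).coeffs.countable_toSet
      · exact Set.countable_iUnion fun a => Set.countable_singleton _
      · exact Set.countable_iUnion fun j => Set.countable_iUnion fun k =>
          Set.countable_iUnion fun a => Set.countable_singleton _)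
  have hk0' : Countable k0 := hk0
  have hliftF : ∀ F ∈ S0, ∃ F' : MvPolynomial (Fin (n + 1)) k0, map (algebraMap k0 ℂ) F' = F :=
    fun F hF => mem_range_map_iff_coeffs_subset.2
      fun c hc => hcoef c (Or.inl (Set.mem_biUnion (x := F) hF hc))
  have hliftG : ∀ d l, ∃ F' : MvPolynomial (Fin (n + 1)) k0, map (algebraMap k0 ℂ) F' = Gs d l :=
    fun d l => mem_range_map_iff_coeffs_subset.2
      fun c hc => hcoef c (Or.inr (Or.inl (Set.mem_iUnion.2 ⟨d, Set.mem_iUnion.2 ⟨l, hc⟩⟩)))
  have hliftp : ∀ g : Polynomial ℂ, (∀ a, ∃ b : k0, algebraMap k0 ℂ b = g.coeff a) →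
      ∃ g' : Polynomial k0, g'.map (algebraMap k0 ℂ) = g := by
    intro g hg
    rw [← Polynomial.mem_lifts, Polynomial.lifts_iff_coeff_lifts]
    intro a
    obtain ⟨b, hb⟩ := hg a
    exact ⟨b, hb⟩
  obtain ⟨ρ0, hρ0⟩ := hliftp ρs fun a => hcoef _ (Or.inr (Or.inr (Or.inl
    (Set.mem_iUnion.2 ⟨a, rfl⟩))))
  have hliftP : ∀ j k, ∃ g' : Polynomial k0, g'.map (algebraMap k0 ℂ) = Ps j k := fun j k =>
    hliftp (Ps j k) fun a => hcoef _ (Or.inr (Or.inr (Or.inr
      (Set.mem_iUnion.2 ⟨j, Set.mem_iUnion.2 ⟨k, Set.mem_iUnion.2 ⟨a, rfl⟩⟩⟩))))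
  choose P0 hP0' using hliftP
  choose G0 hG0 using hliftG
  -- the enumeration of the polynomials
  have hcp : Countable (Polynomial k0) := by
    have h1 : Cardinal.mk (Polynomial k0) ≤ Cardinal.aleph0 := by
      refine Polynomial.cardinalMk_le_max.trans (max_le ?_ le_rfl)
      exact Cardinal.mk_le_aleph0
    exact Cardinal.mk_le_aleph0_iff.1 h1
  obtain ⟨en, hen⟩ := exists_surjective_nat (Polynomial k0)
  choose lift hlift using hsur
  let f : ℕ → ℕ → Polynomial ℂ := fun l i =>
    ∑ a ∈ Finset.range ((en l).natDegree + 1),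
      Polynomial.C (lift (algebraMap k0 ℂ ((en l).coeff a)) i) * Polynomial.X ^ a
  have hfd : ∀ l i, (f l i).natDegree ≤ (en l).natDegree := by
    intro l i
    refine Polynomial.natDegree_sum_le_of_forall_le _ _ fun a ha => ?_
    refine (Polynomial.natDegree_C_mul_X_pow_le _ _).trans ?_
    have := Finset.mem_range.1 ha
    omega
  have hfc : ∀ l i a, a ≤ (en l).natDegree → (f l i).coeff a =
      lift (algebraMap k0 ℂ ((en l).coeff a)) i := by
    intro l i a ha
    simp only [f, Polynomial.finsetSum_coeff, Polynomial.coeff_C_mul_X_pow]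
    rw [Finset.sum_eq_single a]
    · rw [if_pos rfl]
    · intro b _ hb
      rw [if_neg (Ne.symm hb)]
    · intro h3
      exact absurd (Finset.mem_range.2 (by omega)) h3
  obtain ⟨w, hwA, hw⟩ := select (r := r) hA hAB (t := t) (fun i a b hab hb => (h i).inj a b hab hb)
    f (fun l => (en l).natDegree) hfd
  have hwe : ∀ L, ∀ᶠ i in (hyperfilter ℕ : Filter ℕ), r ≤ w i ∧ w i + L ≤ B i ∧
      ∀ l < L, f l i ≠ 0 → (f l i).eval (t i (w i - r)) ≠ 0 := by
    intro L
    obtain ⟨i0, hi0⟩ := hw L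
    filter_upwards [hyper_ge i0] with i hi
    exact hi0 i hi
  -- the limit sequences
  let ts : ℕ → ℂ := fun m => θ fun i => t i (w i - r + m)
  let xs : ℕ → Fin (n + 1) → ℂ := fun m j => θ fun i => x i (w i - r + m) j
  have hPs : ∀ j k m, (Ps j k).eval (ts m) = θ fun i => (P i j k).eval (t i (w i - r + m)) := by
    intro j k m
    have h1 : (fun i => (P i j k).eval (t i (w i - r + m))) =
        ∑ a ∈ Finset.range (e + 1), (fun i => (P i j k).coeff a) *
          (fun i => t i (w i - r + m)) ^ a := by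
      funext i
      rw [Polynomial.eval_eq_sum_range' (n := e + 1) (by have := hPe i j k; omega),
        Finset.sum_apply]
      rfl
    rw [h1, map_sum, Polynomial.eval_finsetSum]
    refine Finset.sum_congr rfl fun a _ => ?_
    rw [Polynomial.eval_mul, Polynomial.eval_C, Polynomial.eval_pow, Polynomial.eval_X, map_mul,
      map_pow]
  have hts : ∀ m, ts (m + 1) = ρs.eval (ts m) := by
    intro m
    change θ (fun i => t i (w i - r + (m + 1))) = _
    have h1 : (fun i => t i (w i - r + (m + 1))) =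
        ∑ a ∈ Finset.range (q + 1), (fun i => (ρ i).coeff a) *
          (fun i => t i (w i - r + m)) ^ a := by
      funext i
      rw [← add_assoc, hρ i, Polynomial.eval_eq_sum_range' (n := q + 1)
        (by have := hρq i; omega), Finset.sum_apply]
      rfl
    rw [h1, map_sum, Polynomial.eval_finsetSum]
    refine Finset.sum_congr rfl fun a _ => ?_
    rw [Polynomial.eval_mul, Polynomial.eval_C, Polynomial.eval_pow, Polynomial.eval_X, map_mul,
      map_pow]
  have htinj : Function.Injective ts := by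
    have h1 : ∀ a b : ℕ, a < b → ts a ≠ ts b := by
      intro a b hab h2
      have h3 : θ ((fun i => t i (w i - r + a)) - fun i => t i (w i - r + b)) = 0 := by
        rw [map_sub]
        exact sub_eq_zero.2 h2
      refine hθne _ ?_ h3
      filter_upwards [hwe b] with i hi h4
      exact (h i).inj (w i - r + a) (w i - r + b) (by omega) (by omega) (sub_eq_zero.1 h4)
    intro a b hab
    by_contra hne
    rcases lt_or_gt_of_ne hne with h2 | h2
    · exact h1 a b h2 hab
    · exact h1 b a h2 hab.symm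
  have hwr : ∀ᶠ i in (hyperfilter ℕ : Filter ℕ), w i - r + r = w i ∧ w i ≤ B i := by
    filter_upwards [hwe 0] with i hi
    omega
  have hxs0 : xs r ≠ 0 := by
    intro h0
    have h1 : ∀ j, ∀ᶠ i in (hyperfilter ℕ : Filter ℕ), x i (w i - r + r) j = 0 := by
      intro j
      rw [← hk]
      exact congrFun h0 j
    rw [← Filter.eventually_all] at h1
    obtain ⟨i, h2, h3⟩ := (h1.and hwr).exists
    rw [h3.1] at h2
    exact (h i).ne (w i) h3.2 (funext h2)
  have hP' : ∀ j, ∃ k ≤ r, P0 j k ≠ 0 := by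
    intro j
    obtain ⟨⟨k, a⟩, h1⟩ := theta_ne hΘ (fun (q : Fin (r + 1) × Fin (e + 1)) i =>
      (P i j q.1).coeff q.2) 0 (fun i _ => by
        obtain ⟨k, hkr, hk0⟩ := hP0 i j
        obtain ⟨a, ha⟩ : ∃ a, (P i j k).coeff a ≠ 0 := by
          by_contra hcon
          push Not at hcon
          exact hk0 (Polynomial.ext fun a => by rw [hcon a, Polynomial.coeff_zero])
        have hae : a ≤ e := (Polynomial.le_natDegree_of_ne_zero ha).trans (hPe i j k)
        exact ⟨(⟨k, by omega⟩, ⟨a, by omega⟩), ha⟩)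
    refine ⟨k, by omega, fun h0 => h1 ?_⟩
    have h00 : Ps j k = 0 := by
      rw [← hP0', h0, Polynomial.map_zero]
    have h2 := congrArg (fun q => Polynomial.coeff q (a : ℕ)) h00
    simp only [Ps, Polynomial.finsetSum_coeff, Polynomial.coeff_C_mul_X_pow,
      Polynomial.coeff_zero] at h2
    rw [Finset.sum_eq_single (a : ℕ)] at h2
    · rwa [if_pos rfl] at h2
    · intro b _ hb
      rw [if_neg (Ne.symm hb)]
    · intro h3
      exact absurd (Finset.mem_range.2 a.2) h3
  have hrec : ∀ j m, ∑ k ∈ Finset.range (r + 1), Polynomial.aeval (ts m) (P0 j k) *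
      xs (m + k) j = 0 := by
    intro j m
    have h1 : ∑ k ∈ Finset.range (r + 1), Polynomial.aeval (ts m) (P0 j k) * xs (m + k) j =
        θ (∑ k ∈ Finset.range (r + 1), (fun i => (P i j k).eval (t i (w i - r + m))) *
          fun i => x i (w i - r + m + k) j) := by
      rw [map_sum]
      refine Finset.sum_congr rfl fun k _ => ?_
      rw [map_mul, ← hPs, ← hP0', Polynomial.eval_map_algebraMap]
      congr 1
      change θ (fun i => x i (w i - r + (m + k)) j) = _
      congr 1
      funext i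
      rw [add_assoc]
    rw [h1, hk]
    filter_upwards [hwe m] with i hi
    rw [Finset.sum_apply]
    exact hPx i j (w i - r + m) (by omega)
  have hdeg : ∀ F : ℕ → MvPolynomial (Fin (n + 1)) ℂ,
      (∀ᶠ i in (hyperfilter ℕ : Filter ℕ), F i ∈ S i) → ∃ e', e' ≤ D ∧
        ∀ᶠ i in (hyperfilter ℕ : Filter ℕ), (F i).IsHomogeneous e' := fun F hF =>
    exists_deg (D := D) (by
      filter_upwards [hF] with i hi
      exact hS i _ hi)
  have hs : ∀ G ∈ s, ∃ d, G.IsHomogeneous d := by
    rintro _ ⟨F, hF, rfl⟩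
    obtain ⟨e', -, he'⟩ := hdeg F hF
    exact ⟨e', limT_homog hk he'⟩
  have hX : ∀ m, ∀ G ∈ s, eval (xs m) G = 0 := by
    rintro m _ ⟨F, hF, rfl⟩
    obtain ⟨e', he'D, he'⟩ := hdeg F hF
    have h1 := eval_limT hk (T := TD (n + 1) D) (F := F) (by
      filter_upwards [he'] with i hi
      exact support_hom hi he'D) fun i => x i (w i - r + m)
    change eval (fun j => θ fun i => x i (w i - r + m) j) _ = 0
    rw [h1, hk]
    filter_upwards [hF, hwe m] with i hi hmi
    exact (h i).on (w i - r + m) (by omega) _ hi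
  have htr : Transcendental k0 (ts 0) := by
    rintro ⟨g, hg, hg0⟩
    obtain ⟨l, rfl⟩ := hen g
    have h1 : Polynomial.aeval (ts 0) (en l) = θ fun i => (f l i).eval (t i (w i - r + 0)) := by
      have h2 : (fun i => (f l i).eval (t i (w i - r + 0))) =
          ∑ a ∈ Finset.range ((en l).natDegree + 1),
            (lift (algebraMap k0 ℂ ((en l).coeff a))) * (fun i => t i (w i - r + 0)) ^ a := by
        funext i
        simp only [f, Polynomial.eval_finsetSum, Polynomial.eval_mul, Polynomial.eval_C,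
          Polynomial.eval_pow, Polynomial.eval_X, Finset.sum_apply]
        rfl
      rw [h2, map_sum, Polynomial.aeval_eq_sum_range]
      refine Finset.sum_congr rfl fun a _ => ?_
      rw [map_mul, map_pow, hlift, Algebra.smul_def]
    rw [h1] at hg0
    refine hθne _ ?_ hg0
    have h3 : ∀ᶠ i in (hyperfilter ℕ : Filter ℕ), f l i ≠ 0 := by
      have h4 : ¬ ∀ᶠ i in (hyperfilter ℕ : Filter ℕ),
          lift (algebraMap k0 ℂ ((en l).coeff (en l).natDegree)) i = 0 := by
        rw [← hk, hlift, map_eq_zero]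
        exact Polynomial.leadingCoeff_ne_zero.2 hg
      rw [← Ultrafilter.eventually_not] at h4
      filter_upwards [h4] with i hi h5
      apply hi
      rw [← hfc l i _ le_rfl, h5, Polynomial.coeff_zero]
    filter_upwards [h3, hwe (l + 1)] with i h5 h6
    exact h6.2.2 l (Nat.lt_succ_self l) h5
  have hρ1 : 1 ≤ ρ0.natDegree := by
    by_contra hcon
    have h0 : ρ0.natDegree = 0 := by omega
    have h1 := hts 0
    have h2 := hts 1
    rw [← hρ0, Polynomial.eq_C_of_natDegree_eq_zero h0, Polynomial.map_C, Polynomial.eval_C]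
      at h1 h2
    have h3 := htinj (h1.trans h2.symm)
    omega
  obtain ⟨k, hk1, hk2⟩ := core0 (r := r) hρ1 (τ := ts) (fun m => by
      rw [hts, ← hρ0, Polynomial.eval_map_algebraMap]) htinj htr hP' hrec hxs0
    {F' | map (algebraMap k0 ℂ) F' ∈ S0} (fun F' hF' => by
      obtain ⟨d, hd⟩ := hs _ (hS0 _ hF')
      refine ⟨d, ?_⟩
      intro m hm
      refine hd (fun h0 => hm ?_)
      rw [coeff_map, map_eq_zero] at h0
      exact h0) (fun F' hF' m => by
      have h1 := hX m _ (hS0 _ hF')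
      rwa [eval_map] at h1) (fun d => by
      obtain ⟨l, hl, hl2⟩ : ∃ l < N d, ∀ᶠ i in (hyperfilter ℕ : Filter ℕ),
          eval (x i (w i)) (G d l i) ≠ 0 := by
        by_contra hcon
        push Not at hcon
        have h1 : ∀ᶠ i in (hyperfilter ℕ : Filter ℕ), ∀ l ∈ Finset.range (N d),
            eval (x i (w i)) (G d l i) = 0 := by
          rw [Filter.eventually_all_finset]
          intro l hl
          have h2 := hcon l (Finset.mem_range.1 hl)
          exact h2
        obtain ⟨i, h2, h3⟩ := (h1.and (hGx d)).exists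
        obtain ⟨l, hl, h4⟩ := h3 (w i) (hwA i)
        exact h4 (h2 l (Finset.mem_range.2 hl))
      refine ⟨G0 d l, ?_, fun q' hq1 hq2 hq3 => ?_⟩
      · have h1 := eval_limT hk (T := TD (n + 1) (ed d l)) (F := G d l) (by
          filter_upwards [hGe d l hl] with i hi
          exact support_hom hi le_rfl) fun i => x i (w i - r + r)
        have h2 : aeval (xs r) (G0 d l) = eval (xs r) (Gs d l) := by
          rw [← hG0, eval_map]
          rfl
        rw [h2]
        change eval (fun j => θ fun i => x i (w i - r + r) j) _ ≠ 0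
        rw [h1]
        refine hθne _ ?_
        filter_upwards [hl2, hwr] with i h3 h4
        rw [h4.1]
        exact h3
      · rw [hG0]
        by_contra hne
        obtain ⟨a, b, i1, j1, hab⟩ := hq3
        have hnc : NonC q' := ⟨a, b, i1, j1, hab⟩
        have hq2' : ∀ F ∈ s, aeval q' F = 0 := hS0' (Polynomial ℂ) q' fun F hF => by
          obtain ⟨F', rfl⟩ := hliftF F hF
          exact hq2 F' hF
        have h1 := los_curve (fun c => ⟨lift c, hlift c⟩) hk q' hq1 hnc
          (S := S) (T := TD (n + 1) D) (fun i F hF => by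
            obtain ⟨e1, he1, he1'⟩ := hS i F hF
            exact support_hom he1' he1)
          (fun F hF => hq2' _ ⟨F, hF, rfl⟩) (T' := TD (n + 1) (ed d l)) (G := G d l) (by
            filter_upwards [hGe d l hl] with i hi
            exact support_hom hi le_rfl) hne
        obtain ⟨i, ⟨q1, h2, h3, h4, h5, -⟩, h6⟩ := (h1.and (hGr d l hl)).exists
        exact h5 (h6 q1 h2 h3 h4))
  have h1 : ∀ u v, ∀ᶠ i in (hyperfilter ℕ : Filter ℕ),
      x i (w i - r + (r + k)) u * x i (w i - r + r) v =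
        x i (w i - r + (r + k)) v * x i (w i - r + r) u := by
    intro u v
    have h2 := hk2 u v
    have h3 : θ ((fun i => x i (w i - r + (r + k)) u) * (fun i => x i (w i - r + r) v) -
        (fun i => x i (w i - r + (r + k)) v) * fun i => x i (w i - r + r) u) = 0 := by
      rw [map_sub, map_mul, map_mul]
      exact sub_eq_zero.2 h2
    rw [hk] at h3
    filter_upwards [h3] with i hi
    exact sub_eq_zero.1 hi
  have h2 : ∀ᶠ i in (hyperfilter ℕ : Filter ℕ), ∀ u v,
      x i (w i - r + (r + k)) u * x i (w i - r + r) v =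
        x i (w i - r + (r + k)) v * x i (w i - r + r) u := by
    rw [Filter.eventually_all]
    intro u
    rw [Filter.eventually_all]
    exact h1 u
  obtain ⟨i, h3, h4, h5⟩ := (h2.and (hwr.and (hwe k))).exists
  refine ⟨i, w i, hwA i, k, hk1, h5.2.1, fun u v => ?_⟩
  have h6 := h3 u v
  rwa [← add_assoc, h4.1] at h6

end Pool.Agent.Q309.OFF
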