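import Pool.Agent.Q309.OFF.Gen
import Pool.Agent.Q309.DU.Run

/-!
Varieties which are not uniruled: one closed subset and one bound for all sequences of points given by
linear recurrences of bounded complexity along orbits of polynomials.
-/

set_option autoImplicit false

namespace Pool.Agent.Q309.OFF

open MvPolynomial
open Pool.Agent.Q309.DU
open Pool.Agent.Q309.PO
open Pool.Agent.Q309.TP (Same)
open Pool.Agent.Q309.DF (exists_sub rel_embed)
open Pool.Agent.Q1.SL
open Pool.Agent.H533R3.SL (Uniruled)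
open Pool.Agent.Y377.ST (ptsOff)
open Pool.Agent.Q171.RC (OnRat)

variable {n : ℕ}

/-- **Countable fields.** -/
theorem few_ctble {k1 : Type} [Field k1] [Countable k1] [Algebra k1 ℂ]
    (FF : Set (MvPolynomial (Fin (n + 1)) k1)) (hhom : ∀ F ∈ FF, ∃ e, F.IsHomogeneous e)
    (hprime : (Ideal.span FF).IsPrime) (hnu : ¬ Uniruled (Ideal.span FF)) (r e q : ℕ) :
    ∃ G : MvPolynomial (Fin (n + 1)) k1, (∃ e, G.IsHomogeneous e) ∧ G ∉ Ideal.span FF ∧
      ∃ B : ℕ, ∀ (L : Type) [Field L] [Countable L] [Algebra k1 L] (M : ℕ)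
        (x : ℕ → Fin (n + 1) → L), OSeq r e q M x →
          (∀ m ≤ M, ∀ F ∈ FF, eval (x m) (map (algebraMap k1 L) F) = 0) →
            FewOff B M (map (algebraMap k1 L) G) x := by
  classical
  have hfg : (Ideal.span FF).FG := IsNoetherian.noetherian _
  obtain ⟨S1, hS1, hS2⟩ := (Submodule.fg_span_iff_fg_span_finset_subset _).1 hfg
  have hS3 : Ideal.span (S1 : Set (MvPolynomial (Fin (n + 1)) k1)) = Ideal.span FF := hS2.symm
  let D : ℕ := S1.sup fun F => F.totalDegree
  have hD : ∀ F ∈ S1, ∃ e, e ≤ D ∧ F.IsHomogeneous e := by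
    intro F hF
    obtain ⟨e, he⟩ := hhom F (hS1 hF)
    by_cases h0 : F = 0
    · exact ⟨0, Nat.zero_le _, h0 ▸ isHomogeneous_zero _ _ _⟩
    · refine ⟨e, ?_, he⟩
      rw [← he.totalDegree h0]
      exact Finset.le_sup (f := fun F : MvPolynomial (Fin (n + 1)) k1 => F.totalDegree) hF
  obtain ⟨N, hN⟩ := off_strong n D r e q
  obtain ⟨G, hG1, hG2, hG3⟩ := exists_off (S1 : Set (MvPolynomial (Fin (n + 1)) k1))
    (fun F hF => hhom F (hS1 hF)) (by rw [hS3]; exact hprime) (by rw [hS3]; exact hnu) N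
  rw [hS3] at hG2
  refine ⟨G, hG1, hG2, N, fun L _ _ _ M x hx hX => ?_⟩
  obtain ⟨τ⟩ := rel_embed k1 L
  have hτ : ∀ (m : ℕ) (F : MvPolynomial (Fin (n + 1)) k1),
      eval (fun j => (τ : L →+* ℂ) (x m j)) (map (algebraMap k1 ℂ) F) =
        (τ : L →+* ℂ) (eval (x m) (map (algebraMap k1 L) F)) := by
    intro m F
    rw [eval_map, eval_map]
    change aeval (fun j => τ (x m j)) F = τ (aeval (x m) F)
    rw [MvPolynomial.comp_aeval_apply]
  obtain ⟨t, ht⟩ := wseq_of (S := (map (algebraMap k1 ℂ)) ''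
    (S1 : Set (MvPolynomial (Fin (n + 1)) k1))) hx (τ : L →+* ℂ) (by
      rintro m hm _ ⟨F, hF, rfl⟩
      rw [hτ, hX m hm F (hS1 hF), map_zero])
  obtain ⟨I, hI, hI2⟩ := hN _ (by
    rintro _ ⟨F, hF, rfl⟩
    obtain ⟨e, he, he2⟩ := hD F hF
    exact ⟨e, he, he2.map _⟩) M t _ ht
  refine ⟨I, hI, fun m hm hGm => ?_⟩
  obtain ⟨i, hi, hiM, hs⟩ := hI2 m hm fun hon => hGm (by
    have h1 := hG3 _ (ht.ne m hm) hon
    rw [hτ] at h1
    exact (map_eq_zero (τ : L →+* ℂ)).1 h1)
  refine ⟨i, hi, hiM, fun u v => (τ : L →+* ℂ).injective ?_⟩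
  rw [map_mul, map_mul]
  exact hs u v

/-- sequences are defined over countable fields -/
theorem oseq_desc {k1 L : Type} [Field k1] [Countable k1] [Field L] [Algebra k1 L] {r e q M : ℕ}
    {x : ℕ → Fin (n + 1) → L} (h : OSeq r e q M x) :
    ∃ (L0 : Type) (_ : Field L0) (_ : Algebra k1 L0) (_ : Countable L0) (ι : L0 →ₐ[k1] L)
      (x0 : ℕ → Fin (n + 1) → L0), OSeq r e q M x0 ∧ ∀ m j, ι (x0 m j) = x m j := by
  classical
  obtain ⟨t, ρ, hρd, hρ, htd, heq⟩ := h.eqn
  choose P hP0 hPd hP using heq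
  let C1 : Set L := (⋃ (m : ℕ) (j : Fin (n + 1)), {x m j}) ∪
    ((⋃ m : ℕ, {t m}) ∪ ((⋃ i : ℕ, {ρ.coeff i}) ∪
      ⋃ (j : Fin (n + 1)) (k : ℕ) (i : ℕ), {(P j k).coeff i}))
  have hC1 : C1.Countable := by
    refine Set.Countable.union ?_ (Set.Countable.union ?_ (Set.Countable.union ?_ ?_))
    · exact Set.countable_iUnion fun m => Set.countable_iUnion fun j => Set.countable_singleton _
    · exact Set.countable_iUnion fun m => Set.countable_singleton _
    · exact Set.countable_iUnion fun m => Set.countable_singleton _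
    · exact Set.countable_iUnion fun j => Set.countable_iUnion fun k =>
        Set.countable_iUnion fun i => Set.countable_singleton _
  obtain ⟨L0, _, _, _, ι, hι⟩ := exists_sub (k0 := k1) C1 hC1
  have hιinj : Function.Injective ι := ι.toRingHom.injective
  choose x0 hx0 using fun (m : ℕ) (j : Fin (n + 1)) => hι (x m j) (by
    refine Or.inl ?_
    simp only [Set.mem_iUnion]
    exact ⟨m, j, rfl⟩)
  choose t0 ht0 using fun m : ℕ => hι (t m) (by
    refine Or.inr (Or.inl ?_)
    simp only [Set.mem_iUnion]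
    exact ⟨m, rfl⟩)
  obtain ⟨ρ0, hρ0⟩ : ∃ Q : Polynomial L0, Q.map (ι : L0 →+* L) = ρ := by
    rw [← Polynomial.mem_lifts, Polynomial.lifts_iff_coeff_lifts]
    intro i
    obtain ⟨a, ha⟩ := hι (ρ.coeff i) (by
      refine Or.inr (Or.inr (Or.inl ?_))
      simp only [Set.mem_iUnion]
      exact ⟨i, rfl⟩)
    exact ⟨a, ha⟩
  have hPl : ∀ j k, ∃ Q : Polynomial L0, Q.map (ι : L0 →+* L) = P j k := by
    intro j k
    rw [← Polynomial.mem_lifts, Polynomial.lifts_iff_coeff_lifts]
    intro i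
    obtain ⟨a, ha⟩ := hι ((P j k).coeff i) (by
      refine Or.inr (Or.inr (Or.inr ?_))
      simp only [Set.mem_iUnion]
      exact ⟨j, k, i, rfl⟩)
    exact ⟨a, ha⟩
  choose P0 hP0' using hPl
  have hιev : ∀ (Q : Polynomial L0) (a : L0), (Q.map (ι : L0 →+* L)).eval (ι a) = ι (Q.eval a) :=
    fun Q a => by
      rw [Polynomial.eval_map]
      exact Polynomial.eval₂_at_apply (ι : L0 →+* L) (p := Q) a
  refine ⟨L0, inferInstance, inferInstance, inferInstance, ι, x0, ⟨fun m hm h0 => h.ne m hm ?_,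
    t0, ρ0, ?_, fun m => ?_, fun i j hij hj h0 => ?_, fun j => ?_⟩, hx0⟩
  · funext j
    have h1 := congrArg ι (congrFun h0 j)
    rw [hx0, Pi.zero_apply, map_zero] at h1
    exact h1
  · rwa [← hρ0, Polynomial.natDegree_map] at hρd
  · apply hιinj
    rw [ht0, ← hιev, ht0, hρ0, hρ]
  · have h1 := congrArg ι h0
    rw [ht0, ht0] at h1
    exact htd i j hij hj h1
  · obtain ⟨k, hk, hPk⟩ := hP0 j
    refine ⟨P0 j, ⟨k, hk, fun h0 => hPk ?_⟩, fun k => ?_, fun m hm => ?_⟩
    · rw [← hP0', h0, Polynomial.map_zero]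
    · have h1 := hPd j k
      rwa [← hP0', Polynomial.natDegree_map] at h1
    · apply hιinj
      rw [map_zero, map_sum, ← hP j m hm]
      refine Finset.sum_congr rfl fun k _ => ?_
      rw [map_mul, hx0, ← hP0' j k, ← ht0, hιev]

section props

variable {k : Type} [Field k]

/-- For all `r`, `e`, `q` there are a form `G` which does not vanish on `X` and a number `B` such that
all sequences `x 0, ..., x M` of points of `X(k)`, for all `M`, given by linear recurrences of order at
most `r` with coefficients of degree at most `e` along orbits of polynomials of degree at most `q`,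
contain at most `B` different points outside of `G = 0`. -/
def OrbB (I : Ideal (MvPolynomial (Fin (n + 1)) k)) : Prop :=
  ∀ r e q : ℕ, ∃ G : MvPolynomial (Fin (n + 1)) k, (∃ d, G.IsHomogeneous d) ∧ G ∉ I ∧
    ∃ B : ℕ, ∀ (M : ℕ) (x : ℕ → Fin (n + 1) → k), OSeq r e q M x →
      (∀ m ≤ M, ∀ F ∈ I, eval (x m) F = 0) → FewOff B M G x

/-- For every `d` there is a form `G` which does not vanish on `X` such that all infinite sequences of
points of `X(k)` with `ORec 1 d 1` contain only finitely many points outside of `G = 0`. -/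
def OrbF (I : Ideal (MvPolynomial (Fin (n + 1)) k)) : Prop :=
  ∀ d : ℕ, ∃ G : MvPolynomial (Fin (n + 1)) k, (∃ e, G.IsHomogeneous e) ∧ G ∉ I ∧
    ∀ x : ℕ → Fin (n + 1) → k, ORec 1 d 1 x → (∀ m, x m ≠ 0) →
      (∀ m, ∀ F ∈ I, eval (x m) F = 0) → (ptsOff G x).Finite

theorem few_finite {G : MvPolynomial (Fin (n + 1)) k} {x : ℕ → Fin (n + 1) → k} {B : ℕ}
    (hx : ∀ m, x m ≠ 0) (h : ∀ M, FewOff B M G x) : (ptsOff G x).encard ≤ (B : ℕ∞) := by
  classical
  by_contra hB
  have h1 : ((B + 1 : ℕ) : ℕ∞) ≤ (ptsOff G x).encard := by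
    rw [Nat.cast_add, Nat.cast_one]
    exact Order.add_one_le_of_lt (not_le.1 hB)
  obtain ⟨t, hts, htc⟩ := Set.exists_subset_encard_eq h1
  have htf : t.Finite := Set.finite_of_encard_eq_coe htc
  have hcard : htf.toFinset.card = B + 1 := by
    have h2 := htf.encard_eq_coe_toFinset_card
    rw [htc] at h2
    exact_mod_cast h2.symm
  have hP : ∀ v ∈ htf.toFinset, ∃ m : ℕ, ∃ h0 : x m ≠ 0, eval (x m) G ≠ 0 ∧
      v = Projectivization.mk k (x m) h0 := by
    intro v hv
    obtain ⟨m, h0, hG, he⟩ := hts (htf.mem_toFinset.1 hv)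
    refine ⟨m, h0, ?_, he⟩
    rwa [MvPolynomial.aeval_def] at hG
  choose! f hf using hP
  obtain ⟨I, hI, hIm⟩ := h (htf.toFinset.sup f)
  have hg : ∀ v ∈ htf.toFinset, ∃ i ∈ I, ∀ a b, x i a * x (f v) b = x i b * x (f v) a := by
    intro v hv
    obtain ⟨h0, hG, he⟩ := hf v hv
    obtain ⟨i, hi, -, hs⟩ := hIm (f v) (Finset.le_sup (f := f) hv) hG
    exact ⟨i, hi, hs⟩
  choose! g hg using hg
  obtain ⟨v, hv, w, hw, hvw, hgvw⟩ := Finset.exists_ne_map_eq_of_card_lt_of_maps_to
    (s := htf.toFinset) (t := I) (by omega) (f := g) (fun v hv => (hg v hv).1)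
  apply hvw
  obtain ⟨hv0, -, hve⟩ := hf v hv
  obtain ⟨hw0, -, hwe⟩ := hf w hw
  rw [hve, hwe, Projectivization.mk_eq_mk_iff']
  have e1 := (hg v hv).2
  have e2 := (hg w hw).2
  rw [← hgvw] at e2
  obtain ⟨l, hl⟩ := Function.ne_iff.1 (hx (g v))
  rw [Pi.zero_apply] at hl
  have hwl : x (f w) l ≠ 0 := by
    intro h0
    apply hw0
    funext a
    have h3 := e2 l a
    rw [h0, mul_zero] at h3
    exact (mul_eq_zero.1 h3).resolve_left hl
  refine ⟨x (f v) l / x (f w) l, ?_⟩
  funext a
  rw [Pi.smul_apply, smul_eq_mul, div_mul_eq_mul_div, div_eq_iff hwl]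
  have h3 := e1 l a
  have h4 := e2 l a
  apply mul_left_cancel₀ hl
  linear_combination x (f v) l * h4 - x (f w) l * h3

theorem orbF_of_orbB {I : Ideal (MvPolynomial (Fin (n + 1)) k)} (h : OrbB I) : OrbF I := by
  intro d
  obtain ⟨G, h1, h2, B, hB⟩ := h 1 d 1
  exact ⟨G, h1, h2, fun x hx hx0 hF => Set.finite_of_encard_le_coe
    (few_finite hx0 fun M => hB M x (hx.oseq hx0 M) fun m _ => hF m)⟩

/-- **The converse.** -/
theorem ratDegF_of_orbF [CharZero k] {I : Ideal (MvPolynomial (Fin (n + 1)) k)} (h : OrbF I) :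
    RatDegF I := by
  classical
  intro d
  obtain ⟨G, hG1, hG2, hG3⟩ := h d
  refine ⟨G, hG1, hG2, fun p hp1 hp2 hp3 => ?_⟩
  by_contra hne
  have hp3' := hp3
  obtain ⟨s, t, i, j, hst⟩ := hp3
  obtain ⟨l, hl⟩ : ∃ l, p l ≠ 0 := by
    by_contra hcon
    push Not at hcon
    apply hst
    rw [hcon i, hcon j, Polynomial.eval_zero, Polynomial.eval_zero]
  -- a starting point
  obtain ⟨c, hc⟩ : ∃ c : ℕ, ∀ m : ℕ, c ≤ m → (p l * aeval p G).eval (m : k) ≠ 0 := by
    have h1 : {m : ℕ | (p l * aeval p G).eval (m : k) = 0}.Finite :=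
      Set.Finite.preimage (fun a _ b _ hab => Nat.cast_injective hab)
        (Polynomial.finite_setOfPred_isRoot (mul_ne_zero hl hne)) (f := fun h : ℕ => (h : k))
    obtain ⟨c, hc⟩ := h1.bddAbove
    exact ⟨c + 1, fun m hm h0 => by
      have := hc h0
      omega⟩
  let x : ℕ → Fin (n + 1) → k := fun m j => (p j).eval ((c : k) + m)
  have hcm : ∀ m : ℕ, ((c : k) + m) = ((c + m : ℕ) : k) := fun m => by push_cast; rfl
  have hx0 : ∀ m, x m ≠ 0 := by
    intro m h0
    have h1 := hc (c + m) (by omega)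
    rw [Polynomial.eval_mul, ← hcm] at h1
    exact left_ne_zero_of_mul h1 (congrFun h0 l)
  have hrec : ORec 1 d 1 x := by
    refine ⟨fun m => (c : k) + m, Polynomial.X + 1, ?_, fun m => ?_, fun a b hab => ?_,
      fun j => ?_⟩
    · exact (Polynomial.natDegree_X_add_C (1 : k)).le
    · rw [Polynomial.eval_add, Polynomial.eval_X, Polynomial.eval_one]
      push_cast
      ring
    · have h1 : (a : k) = b := add_left_cancel hab
      exact_mod_cast h1
    · by_cases h0 : p j = 0
      · refine ⟨fun _ => 1, ⟨0, Nat.zero_le _, one_ne_zero⟩, fun k => by simp, fun m => ?_⟩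
        simp only [x, h0]
        simp
      · refine ⟨fun k => if k = 0 then -((p j).comp (Polynomial.X + Polynomial.C 1)) else p j,
          ⟨1, le_rfl, by simpa using h0⟩, fun k => ?_, fun m => ?_⟩
        · by_cases hk : k = 0
          · simp only [if_pos hk]
            rw [Polynomial.natDegree_neg]
            refine Polynomial.natDegree_comp_le.trans ?_
            rw [Polynomial.natDegree_X_add_C, mul_one]
            exact hp1 j
          · simp only [if_neg hk]
            exact hp1 j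
        · rw [Finset.sum_range_succ, Finset.sum_range_one]
          simp only [x, if_pos, if_neg one_ne_zero, Polynomial.eval_neg, Polynomial.eval_comp,
            Polynomial.eval_add, Polynomial.eval_X, Polynomial.eval_C, Nat.cast_add, Nat.cast_one,
            add_zero]
          ring_nf
  have hfin := hG3 x hrec hx0 fun m F hF => by
    have h1 := congrArg (Polynomial.eval ((c : k) + m)) (hp2 F hF)
    rw [poly_eval, Polynomial.eval_zero] at h1
    exact h1
  let f : ℕ → Projectivization k (Fin (n + 1) → k) := fun m =>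
    Projectivization.mk k (x m) (hx0 m)
  have hmaps : ∀ m, f m ∈ ptsOff G x := by
    intro m
    refine ⟨m, hx0 m, ?_, rfl⟩
    have h1 := hc (c + m) (by omega)
    rw [Polynomial.eval_mul, ← hcm] at h1
    have h2 := right_ne_zero_of_mul h1
    rw [poly_eval] at h2
    exact h2
  obtain ⟨P, hP, hPi⟩ : ∃ P ∈ ptsOff G x, {m | f m = P}.Infinite := by
    by_contra hcon
    push Not at hcon
    refine Set.infinite_univ (α := ℕ) (Set.Finite.subset
      (hfin.biUnion (t := fun P => {m | f m = P}) fun P hP => ?_) fun m _ => ?_)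
    · exact hcon P hP
    · rw [Set.mem_iUnion₂]
      exact ⟨f m, hmaps m, rfl⟩
  obtain ⟨m0, hm0⟩ := hPi.nonempty
  have hcc : ∀ u v : Fin (n + 1), p u * Polynomial.C (x m0 v) = p v * Polynomial.C (x m0 u) := by
    intro u v
    refine Polynomial.eq_of_infinite_eval_eq _ _ (Set.Infinite.mono ?_
      (hPi.image (f := fun m : ℕ => (c : k) + m) fun a _ b _ hab => by
        have h1 : (a : k) = b := add_left_cancel hab
        exact_mod_cast h1))
    rintro _ ⟨m, hm, rfl⟩
    change (p u * Polynomial.C (x m0 v)).eval ((c : k) + m) =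
      (p v * Polynomial.C (x m0 u)).eval ((c : k) + m)
    have h2 : f m = f m0 := hm.trans hm0.symm
    obtain ⟨a, ha⟩ := (Projectivization.mk_eq_mk_iff' k _ _ (hx0 m) (hx0 m0)).1 h2
    have hcu : ∀ w, a * x m0 w = (p w).eval ((c : k) + m) := fun w => congrFun ha w
    rw [Polynomial.eval_mul, Polynomial.eval_C, Polynomial.eval_mul, Polynomial.eval_C, ← hcu u,
      ← hcu v]
    ring
  obtain ⟨l', hl'⟩ := Function.ne_iff.1 (hx0 m0)
  rw [Pi.zero_apply] at hl'
  have hcs : ∀ (w : k) (u : Fin (n + 1)), (p u).eval w = (p l').eval w * (x m0 u / x m0 l') := by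
    intro w u
    have h2 := congrArg (fun q => Polynomial.eval w q) (hcc u l')
    simp only [Polynomial.eval_mul, Polynomial.eval_C] at h2
    field_simp
    exact h2
  apply hst
  rw [hcs s i, hcs t j, hcs s j, hcs t i]
  ring

end props

/-- **One closed subset and one bound for all sequences of bounded complexity.** -/
theorem orbB_of_ratDegF {k : Type} [Field k] [CharZero k] [IsAlgClosed k]
    (FF : Finset (MvPolynomial (Fin (n + 1)) k))
    (hhom : ∀ F ∈ FF, ∃ e, F.IsHomogeneous e)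
    (hprime : (Ideal.span (FF : Set (MvPolynomial (Fin (n + 1)) k))).IsPrime)
    (h : RatDegF (Ideal.span (FF : Set (MvPolynomial (Fin (n + 1)) k)))) :
    OrbB (Ideal.span (FF : Set (MvPolynomial (Fin (n + 1)) k))) := by
  classical
  set I : Ideal (MvPolynomial (Fin (n + 1)) k) :=
    Ideal.span (FF : Set (MvPolynomial (Fin (n + 1)) k)) with hIdef
  choose Gd hGd1 hGd2 hGd3 using h
  obtain ⟨k1, _, _, hkc, hka, hk⟩ := exists_ctbleK
    ((⋃ F ∈ FF, (F.coeffs : Set k)) ∪ ⋃ d, ((Gd d).coeffs : Set k)) (by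
      refine Set.Countable.union ?_ ?_
      · exact Set.Countable.biUnion FF.countable_toSet fun F _ => F.coeffs.countable_toSet
      · exact Set.countable_iUnion fun d => (Gd d).coeffs.countable_toSet)
  have hinj : Function.Injective (algebraMap k1 k) := (algebraMap k1 k).injective
  have hlift : ∀ F : MvPolynomial (Fin (n + 1)) k, (∀ c ∈ F.coeffs, ∃ a : k1,
      algebraMap k1 k a = c) → ∃ F' : MvPolynomial (Fin (n + 1)) k1,
        map (algebraMap k1 k) F' = F := by
    intro F hF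
    exact mem_range_map_iff_coeffs_subset.2 hF
  have hliftF : ∀ F ∈ FF, ∃ F' : MvPolynomial (Fin (n + 1)) k1, map (algebraMap k1 k) F' = F :=
    fun F hF => hlift F fun c hc => hk c (Or.inl (Set.mem_biUnion (x := F) hF hc))
  have hliftG : ∀ d, ∃ G' : MvPolynomial (Fin (n + 1)) k1, map (algebraMap k1 k) G' = Gd d :=
    fun d => hlift (Gd d) fun c hc => hk c (Or.inr (Set.mem_iUnion.2 ⟨d, hc⟩))
  let FFk : Set (MvPolynomial (Fin (n + 1)) k1) := {F | (∃ e, F.IsHomogeneous e) ∧
    map (algebraMap k1 k) F ∈ I}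
  have hspan : Ideal.span FFk = Ideal.comap (map (algebraMap k1 k)) I :=
    span_formsK ⟨_, hhom, rfl⟩
  have hpk : (Ideal.span FFk).IsPrime := by
    rw [hspan]
    exact Ideal.IsPrime.comap _
  have hmem : ∀ F, F ∈ Ideal.span FFk ↔ map (algebraMap k1 k) F ∈ I := by
    intro F
    rw [hspan, Ideal.mem_comap]
  have hnu : ¬ Uniruled (Ideal.span FFk) := by
    apply not_uniruled
    intro d
    obtain ⟨G', hG'⟩ := hliftG d
    refine ⟨G', ?_, ?_, ?_⟩
    · obtain ⟨e, he⟩ := hGd1 d
      exact ⟨e, IsHomogeneous.of_map hinj (hG' ▸ he)⟩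
    · rw [hmem, hG']
      exact hGd2 d
    · intro p hp1 hp2 hp3
      let φ : Polynomial k1 →ₐ[k1] Polynomial k := Polynomial.mapAlgHom (Algebra.ofId k1 k)
      have hφi : Function.Injective φ := Polynomial.map_injective _ hinj
      have hc : ∀ F : MvPolynomial (Fin (n + 1)) k1,
          aeval (fun j => φ (p j)) (map (algebraMap k1 k) F) = φ (aeval p F) := by
        intro F
        rw [MvPolynomial.comp_aeval_apply, MvPolynomial.aeval_map_algebraMap]
      have h0 := hGd3 d (fun j => φ (p j)) (fun j => ?_) (fun F hF => ?_) ?_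
      · rw [← hG', hc] at h0
        exact hφi (h0.trans (map_zero φ).symm)
      · exact (Polynomial.natDegree_map_le).trans (hp1 j)
      · have h1 : I ≤ RingHom.ker (aeval (fun j => φ (p j)) :
            MvPolynomial (Fin (n + 1)) k →ₐ[k] Polynomial k) := by
          rw [hIdef, Ideal.span_le]
          intro F hF
          obtain ⟨F', hF'⟩ := hliftF F hF
          change aeval (fun j => φ (p j)) F = 0
          rw [← hF', hc, hp2 F' ((hmem F').2 (by rw [hF']; exact Ideal.subset_span hF)), map_zero]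
        exact h1 hF
      · obtain ⟨s, t, i, j, hst⟩ := hp3
        have he : ∀ (E : Polynomial k1) (w : k1),
            (φ E).eval (algebraMap k1 k w) = algebraMap k1 k (E.eval w) := by
          intro E w
          change (Polynomial.map _ E).eval _ = _
          rw [Polynomial.eval_map]
          exact Polynomial.eval₂_at_apply (algebraMap k1 k) w
        refine ⟨algebraMap k1 k s, algebraMap k1 k t, i, j, fun h1 => hst ?_⟩
        rw [he, he, he, he, ← map_mul, ← map_mul] at h1
        exact hinj h1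
  have hc1 : CharZero k1 := RingHom.charZero (algebraMap k1 k)
  have hkc' : Countable k1 := hkc
  obtain ⟨τ1⟩ := exists_embed k1
  let _ : Algebra k1 ℂ := τ1.toAlgebra
  intro r e q
  obtain ⟨G, hG1, hG2, B, hB⟩ := few_ctble FFk (fun F hF => hF.1) hpk hnu r e q
  refine ⟨map (algebraMap k1 k) G, ?_, fun h1 => hG2 ((hmem G).2 h1), B, ?_⟩
  · obtain ⟨d, hd⟩ := hG1
    exact ⟨d, hd.map _⟩
  · intro M x hx hI
    obtain ⟨L0, _, _, _, ι, x0, hx0, hιx⟩ := oseq_desc (k1 := k1) hx
    have hev : ∀ (m : ℕ) (F : MvPolynomial (Fin (n + 1)) k1),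
        (ι : L0 →+* k) (eval (x0 m) (map (algebraMap k1 L0) F)) =
          eval (x m) (map (algebraMap k1 k) F) := by
      intro m F
      rw [eval_map, eval_map]
      change ι (aeval (x0 m) F) = aeval (x m) F
      rw [MvPolynomial.comp_aeval_apply]
      congr 2
      funext j
      exact hιx m j
    obtain ⟨J, hJ, hJm⟩ := hB L0 M x0 hx0 (fun m hm F hF => by
      apply (ι : L0 →+* k).injective
      rw [hev, map_zero]
      exact hI m hm _ hF.2)
    refine ⟨J, hJ, fun m hm hGm => ?_⟩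
    obtain ⟨i, hi, hiM, hs⟩ := hJm m hm fun h0 => hGm (by rw [← hev, h0, map_zero])
    refine ⟨i, hi, hiM, fun u v => ?_⟩
    rw [← hιx, ← hιx, ← hιx, ← hιx, ← map_mul, ← map_mul, hs u v]

/-- **The equivalence.** -/
theorem orb_tfae {k : Type} [Field k] [CharZero k] [IsAlgClosed k]
    (FF : Finset (MvPolynomial (Fin (n + 1)) k))
    (hhom : ∀ F ∈ FF, ∃ e, F.IsHomogeneous e)
    (hprime : (Ideal.span (FF : Set (MvPolynomial (Fin (n + 1)) k))).IsPrime) :
    List.TFAE [¬ Uniruled (Ideal.span (FF : Set (MvPolynomial (Fin (n + 1)) k))),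
      RatDegF (Ideal.span (FF : Set (MvPolynomial (Fin (n + 1)) k))),
      OrbB (Ideal.span (FF : Set (MvPolynomial (Fin (n + 1)) k))),
      OrbF (Ideal.span (FF : Set (MvPolynomial (Fin (n + 1)) k)))] := by
  tfae_have 1 → 2 := ratDegF_of_not hprime
  tfae_have 2 → 1 := not_uniruled
  tfae_have 2 → 3 := orbB_of_ratDegF FF hhom hprime
  tfae_have 3 → 4 := orbF_of_orbB
  tfae_have 4 → 2 := ratDegF_of_orbF
  tfae_finish

end Pool.Agent.Q309.OFF
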